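import Pool.Agent.W_63dac5_h37.Potential
import Pool.Agent.W_63dac5_h37.Conc

/-!
# Basic definitions (proofs row 568)
-/

set_option autoImplicit false

namespace Pool.Agent.W_63dac5_h39b

open ENNReal Finset
open Pool.Agent.W_MP_63dac5_pr Pool.Agent.W_63dac5_h37

/-- probability that a word of length `n` has at most `k` letters with unused left stubs and at
most `i` letters with unused right stubs -/
noncomputable def J (μ : PMF ℕ) (n k i : ℕ) : ℝ≥0∞ :=
  Ex (nu μ) n (fun w => if Pw w ≤ k ∧ Nw w ≤ i then 1 else 0)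

/-- second moment of the excess of the number of left stubs over `h` -/
noncomputable def m2 (μ : PMF ℕ) (h : ℕ) : ℝ≥0∞ :=
  ∑' a : ℕ × ℕ, nu μ a * ((a.1 - h : ℕ) : ℝ≥0∞) ^ 2

/-- moment of order `s + 1` of the number of left stubs -/
noncomputable def Ks (μ : PMF ℕ) (s : ℝ) : ℝ≥0∞ :=
  ∑' a : ℕ × ℕ, nu μ a * (a.1 : ℝ≥0∞) ^ (s + 1)

/-- mean of the `s`-th power of the unmet demand of a letter, if `y` entries are present -/
noncomputable def lam (μ : PMF ℕ) (s : ℝ) (y : ℕ) : ℝ≥0∞ :=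
  ∑' a : ℕ × ℕ, nu μ a * ((a.1 - y : ℕ) : ℝ≥0∞) ^ s

/-- sum of the `s`-th powers of the unmet demands -/
noncomputable def Rs (s : ℝ) (w : List (ℕ × ℕ)) : ℝ≥0∞ :=
  ((need [] w).map (fun x : ℕ => (x : ℝ≥0∞) ^ s)).sum

/-- the two bounds, for all lengths below `n` -/
structure Hyp (μ : PMF ℕ) (A C : ℝ) (n : ℕ) : Prop where
  F : ∀ m : ℕ, 1 ≤ m → m < n → ∀ k : ℕ, Fp μ m k ≤ ENNReal.ofReal (A * (k + 1) / √(m : ℝ))
  S : ∀ k i : ℕ, ∑ m ∈ range n, J μ m k i ≤ ENNReal.ofReal (C * (((k : ℝ) + 1) * (i + 1)))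

private lemma Base_pow_mono (x : ℕ) {s t : ℝ} (h0 : 0 < s) (h : s ≤ t) :
    (x : ℝ≥0∞) ^ s ≤ (x : ℝ≥0∞) ^ t := by
  rcases Nat.eq_zero_or_pos x with hx | hx
  · subst hx
    rw [Nat.cast_zero, ENNReal.zero_rpow_of_pos h0]
    exact bot_le
  · exact ENNReal.rpow_le_rpow_of_exponent_le (by exact_mod_cast hx) h

lemma Hyp.mono {μ : PMF ℕ} {A C : ℝ} {m n : ℕ} (H : Hyp μ A C n) (h : m ≤ n) : Hyp μ A C m := by
  refine ⟨fun l h1 hl k => H.F l h1 (lt_of_lt_of_le hl h) k, fun k i => ?_⟩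
  refine le_trans ?_ (H.S k i)
  exact Finset.sum_le_sum_of_subset (Finset.range_mono h)

/-- `Ex_mir` -/
lemma Fp_eq_Nw (μ : PMF ℕ) (n k : ℕ) :
    Ex (nu μ) n (fun w => if Nw w ≤ k then 1 else 0) = Fp μ n k := by
  unfold Fp
  rw [← Ex_mir (nu_swap μ)]
  exact Ex_congr _ _ fun w _ => by rw [Nw_eq, mir_mir]

/-- split a word at the letter `j + 1`; `Ex_append` and the definition of `Ex` -/
theorem Ex_split {α : Type*} (ν : α → ℝ≥0∞) (d : α) (n : ℕ)
    (ψ : List α → α → List α → ℝ≥0∞) :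
    Ex ν n (fun w => ∑ j ∈ range n, ψ (w.take j) (w.getD j d) (w.drop (j + 1))) =
      ∑ j ∈ range n, Ex ν j (fun u => ∑' a, ν a * Ex ν (n - 1 - j) (fun v => ψ u a v)) := by
  rw [Ex_sum]
  refine Finset.sum_congr rfl ?_
  intro j hj
  have hjn : j < n := Finset.mem_range.1 hj
  have hn : n = j + ((n - 1 - j) + 1) := by omega
  have h1 : Ex ν n (fun w => ψ (w.take j) (w.getD j d) (w.drop (j + 1))) =
      Ex ν (j + ((n - 1 - j) + 1)) (fun w => ψ (w.take j) (w.getD j d) (w.drop (j + 1))) := by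
    rw [← hn]
  rw [h1, Ex_append]
  refine Ex_congr _ _ ?_
  intro u hu
  have h2 : Ex ν ((n - 1 - j) + 1) (fun v => ψ ((u ++ v).take j) ((u ++ v).getD j d)
      ((u ++ v).drop (j + 1))) = ∑' a, ν a * Ex ν (n - 1 - j) (fun v =>
        ψ ((u ++ a :: v).take j) ((u ++ a :: v).getD j d) ((u ++ a :: v).drop (j + 1))) := rfl
  rw [h2]
  refine tsum_congr ?_
  intro a
  congr 1
  refine Ex_congr _ _ ?_
  intro v _
  have e1 : (u ++ a :: v).take j = u := by
    rw [← hu, List.take_left]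
  have e2 : (u ++ a :: v).getD j d = a := by
    rw [← hu]
    simp [List.getD_eq_getElem?_getD]
  have e3 : (u ++ a :: v).drop (j + 1) = v := by
    rw [← hu]
    have : u ++ a :: v = (u ++ [a]) ++ v := by simp
    rw [this]
    have hl : u.length + 1 = (u ++ [a]).length := by simp
    rw [hl, List.drop_left]
  rw [e1, e2, e3]

/-- `∑ l < N, F_l(k) ≤ 1 + 2 A (k + 1) √N ≤ 3 A (k + 1) √N` for `1 ≤ N` -/
lemma sum_Fp_le {μ : PMF ℕ} {A C : ℝ} {N : ℕ} (H : Hyp μ A C N) (hA : 1 ≤ A) (hN : 1 ≤ N) (k : ℕ) :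
    ∑ l ∈ range N, Fp μ l k ≤ ENNReal.ofReal (3 * A * (k + 1) * √(N : ℝ)) := by
  have hk : (0 : ℝ) ≤ A * (k + 1) := by positivity
  have key : ∀ M : ℕ, M + 1 ≤ N → ∑ l ∈ range (M + 1), Fp μ l k ≤
      ENNReal.ofReal (1 + 2 * (A * (k + 1)) * √(M : ℝ)) := by
    intro M
    induction M with
    | zero =>
      intro _
      rw [zero_add, Finset.sum_range_one]
      refine le_trans (Fp_le_one 0 k) ?_
      simp
    | succ M ih =>
      intro hM
      rw [Finset.sum_range_succ]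
      refine le_trans (add_le_add (ih (by omega)) (H.F (M + 1) (by omega) (by omega) k)) ?_
      rw [← ENNReal.ofReal_add (by positivity) (by positivity)]
      refine ENNReal.ofReal_le_ofReal ?_
      set s : ℝ := √((M + 1 : ℕ) : ℝ) with hs
      set t : ℝ := √(M : ℝ) with ht
      have hs2 : s * s = (M : ℝ) + 1 := by
        rw [hs, Real.mul_self_sqrt (by positivity)]
        push_cast
        ring
      have ht2 : t * t = (M : ℝ) := by
        rw [ht, Real.mul_self_sqrt (by positivity)]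
      have hs0 : 0 < s := Real.sqrt_pos.2 (by positivity)
      have h1 : 1 / s ≤ 2 * (s - t) := by
        rw [div_le_iff₀ hs0]
        nlinarith [sq_nonneg (s - t)]
      have h2 : A * (k + 1) / s = A * (k + 1) * (1 / s) := by ring
      rw [h2]
      have h3 := mul_le_mul_of_nonneg_left h1 hk
      nlinarith [h3]
  obtain ⟨M, rfl⟩ : ∃ M, N = M + 1 := ⟨N - 1, by omega⟩
  refine le_trans (key M (le_refl _)) ?_
  refine ENNReal.ofReal_le_ofReal ?_
  have h1 : √(M : ℝ) ≤ √((M + 1 : ℕ) : ℝ) := by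
    refine Real.sqrt_le_sqrt ?_
    push_cast
    linarith
  have h2 : (1 : ℝ) ≤ √((M + 1 : ℕ) : ℝ) := by
    rw [Real.one_le_sqrt]
    push_cast
    have : (0 : ℝ) ≤ M := Nat.cast_nonneg M
    linarith
  have h3 : (1 : ℝ) ≤ A * (k + 1) := by
    have : (0 : ℝ) ≤ k := Nat.cast_nonneg k
    nlinarith
  have h4 : A * (k + 1) * √(M : ℝ) ≤ A * (k + 1) * √((M + 1 : ℕ) : ℝ) :=
    mul_le_mul_of_nonneg_left h1 hk
  have h5 : 1 ≤ A * (k + 1) * √((M + 1 : ℕ) : ℝ) := by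
    calc (1 : ℝ) = 1 * 1 := (one_mul 1).symm
      _ ≤ _ := mul_le_mul h3 h2 zero_le_one hk
  linarith

/-- a natural number `x` satisfies `x ^ 2 ≤ x ^ (s + 1)` -/
lemma Ks_mono (μ : PMF ℕ) {s t : ℝ} (h1 : 0 ≤ s) (h : s ≤ t) : Ks μ s ≤ Ks μ t := by
  unfold Ks
  refine ENNReal.tsum_le_tsum ?_
  intro a
  exact mul_le_mul' (le_refl _) (Base_pow_mono a.1 (by linarith) (by linarith))

/-- `x ≤ x ^ (s + 1)` for a natural number `x` -/
lemma m1_le_Ks (μ : PMF ℕ) {s : ℝ} (h1 : 0 ≤ s) : m1 μ ≤ Ks μ s := by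
  unfold m1 Ks
  refine ENNReal.tsum_le_tsum ?_
  intro a
  have h := Base_pow_mono a.1 (s := 1) (t := s + 1) one_pos (by linarith)
  rw [ENNReal.rpow_one] at h
  exact mul_le_mul' (le_refl _) h

end Pool.Agent.W_63dac5_h39b
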