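import Pool.Agent.W_63dac5_h39b.Exit

/-!
# The Green function of `T` (proofs row 568, B1)
-/

set_option autoImplicit false

namespace Pool.Agent.W_63dac5_h39b

open ENNReal Finset
open Pool.Agent.W_MP_63dac5_pr Pool.Agent.W_63dac5_h37

variable {μ : PMF ℕ} {A C : ℝ}

/-- probability that a point has no right stubs -/
noncomputable def pz (μ : PMF ℕ) : ℝ≥0∞ := ∑' a : ℕ × ℕ, nu μ a * (if a.2 = 0 then 1 else 0)

lemma pz_pos (μ : PMF ℕ) : pz μ ≠ 0 := by
  intro h
  obtain ⟨d, hd⟩ : ∃ d, μ d ≠ 0 := by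
    by_contra hcon
    push Not at hcon
    have := μ.tsum_coe
    simp [hcon] at this
  unfold pz at h
  rw [ENNReal.tsum_eq_zero] at h
  have h1 := h (d, 0)
  simp only [if_true, mul_one] at h1
  unfold nu at h1
  simp only [add_zero, Nat.choose_zero_right, Nat.cast_one, mul_one, ENNReal.div_eq_zero_iff] at h1
  rcases h1 with h1 | h1
  · exact hd h1
  · exact ENNReal.pow_ne_top (by simp) h1

lemma pz_le_one (μ : PMF ℕ) : pz μ ≤ 1 := by
  unfold pz
  refine le_trans (ENNReal.tsum_le_tsum (g := fun a => nu μ a) fun a => ?_)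
    (tsum_nu_one (μ := μ)).le
  split_ifs
  · rw [mul_one]
  · rw [mul_zero]
    exact bot_le

private lemma TGreen_nz {u : List ℕ} (h : 1 ≤ u.sum) : 1 ≤ nz u := by
  induction u with
  | nil => simp at h
  | cons a t ih =>
    cases a with
    | zero =>
      simp only [nz]
      apply ih
      simpa using h
    | succ a =>
      simp only [nz]
      omega

/-- For `Tw w ≠ z` bound the mean of the minimum by the minimum of the mean and `z` (`step_T`).  For `Tw w = z`
the value after the letter is at most `z`, and at most `z - 1` if `a.2 = 0` (then `1 ≤ a.1`, as `μ 0 = 0`,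
and `1 ≤ Nw w`). -/
lemma step_min (h0 : μ 0 = 0) (hm : m1 μ ≠ ∞) {z : ℕ} (hz : 1 ≤ z) (w : List (ℕ × ℕ)) :
    ∑' a, nu μ a * ((min (Tw (w ++ [a])) z : ℕ) : ℝ≥0∞) + (if Tw w = z then pz μ else 0) ≤
      (min (Tw w) z : ℕ) + lam μ 1 (Nw w) := by
  rcases lt_trichotomy (Tw w) z with h | h | h
  · rw [if_neg (by omega), add_zero, min_eq_left h.le, ← step_T hm w]
    refine ENNReal.tsum_le_tsum fun a => ?_
    refine mul_le_mul' le_rfl ?_
    exact_mod_cast min_le_left _ _
  · rw [if_pos h, h, min_self]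
    refine le_trans ?_ le_self_add
    have e : ((z : ℕ) : ℝ≥0∞) = ∑' a, nu μ a * ((z : ℕ) : ℝ≥0∞) := by
      rw [ENNReal.tsum_mul_right, tsum_nu_one, one_mul]
    rw [e]
    unfold pz
    rw [← ENNReal.tsum_add]
    refine ENNReal.tsum_le_tsum fun a => ?_
    rw [← mul_add]
    by_cases ha : nu μ a = 0
    · rw [ha, zero_mul, zero_mul]
    refine mul_le_mul' le_rfl ?_
    by_cases h2 : a.2 = 0
    · rw [if_pos h2]
      have h1 : 1 ≤ a.1 := by
        by_contra hcon
        have h3 : a.1 = 0 := by omega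
        apply ha
        unfold nu
        rw [h3, h2]
        simp [h0]
      have hN : 1 ≤ Nw w := TGreen_nz (by
        have : Tw w = (run [] w).sum := rfl
        omega)
      have hT := Tw_snoc w a
      have h4 : min a.1 (Nw w) ≥ 1 := le_min h1 hN
      have h5 : min (Tw (w ++ [a])) z + 1 ≤ z := by
        have : min (Tw (w ++ [a])) z ≤ Tw (w ++ [a]) := min_le_left _ _
        omega
      exact_mod_cast h5
    · rw [if_neg h2, add_zero]
      exact_mod_cast min_le_right _ _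
  · rw [if_neg (by omega), add_zero, min_eq_right h.le]
    refine le_trans ?_ le_self_add
    calc ∑' a, nu μ a * ((min (Tw (w ++ [a])) z : ℕ) : ℝ≥0∞)
        ≤ ∑' a, nu μ a * ((z : ℕ) : ℝ≥0∞) := by
          refine ENNReal.tsum_le_tsum fun a => ?_
          refine mul_le_mul' le_rfl ?_
          exact_mod_cast min_le_right _ _
      _ = ((z : ℕ) : ℝ≥0∞) := by rw [ENNReal.tsum_mul_right, tsum_nu_one, one_mul]

private lemma TGreen_step (h0 : μ 0 = 0) (hm : m1 μ ≠ ∞) {z : ℕ} (hz : 1 ≤ z) (k m : ℕ) :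
    Ex (nu μ) (m + 1) (fun w => if Pw w ≤ k then ((min (Tw w) z : ℕ) : ℝ≥0∞) else 0) +
      Ex (nu μ) m (fun w => if Pw w ≤ k ∧ Tw w = z then 1 else 0) * pz μ ≤
      Ex (nu μ) m (fun w => if Pw w ≤ k then ((min (Tw w) z : ℕ) : ℝ≥0∞) else 0) +
        Ex (nu μ) m (fun w => if Pw w ≤ k then lam μ 1 (Nw w) else 0) := by
  rw [Ex_snoc, ← Ex_mul_right, ← Ex_add, ← Ex_add]
  refine Ex_mono _ _ fun w _ => ?_
  by_cases hk : Pw w ≤ k
  · rw [if_pos hk, if_pos hk]
    refine le_trans ?_ (step_min h0 hm hz w)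
    refine add_le_add ?_ ?_
    · refine ENNReal.tsum_le_tsum fun a => ?_
      refine mul_le_mul' le_rfl ?_
      split_ifs
      · exact le_rfl
      · exact bot_le
    · by_cases hT : Tw w = z
      · rw [if_pos ⟨hk, hT⟩, if_pos hT, one_mul]
      · rw [if_neg (fun h => hT h.2), zero_mul]
        exact bot_le
  · rw [if_neg hk, if_neg hk, if_neg (fun h => hk h.1), zero_mul, add_zero, add_zero]
    refine le_of_eq ?_
    rw [ENNReal.tsum_eq_zero]
    intro a
    have h2 : ¬ Pw (w ++ [a]) ≤ k := fun h => hk (le_trans (Pw_left_le w [a]) h)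
    rw [if_neg h2, mul_zero]

private lemma TGreen_sum (h0 : μ 0 = 0) (hm : m1 μ ≠ ∞) {z : ℕ} (hz : 1 ≤ z) (k n : ℕ) :
    Ex (nu μ) n (fun w => if Pw w ≤ k then ((min (Tw w) z : ℕ) : ℝ≥0∞) else 0) +
      (∑ m ∈ range n, Ex (nu μ) m (fun w => if Pw w ≤ k ∧ Tw w = z then 1 else 0)) * pz μ ≤
      ∑ m ∈ range n, Ex (nu μ) m (fun w => if Pw w ≤ k then lam μ 1 (Nw w) else 0) := by
  induction n with
  | zero =>
    simp only [Ex, range_zero, sum_empty, zero_mul, add_zero]
    have h1 : Tw [] = 0 := rfl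
    rw [h1]
    simp
  | succ n ih =>
    rw [sum_range_succ, sum_range_succ, add_mul]
    calc _ = (Ex (nu μ) (n + 1) (fun w => if Pw w ≤ k then ((min (Tw w) z : ℕ) : ℝ≥0∞) else 0) +
          Ex (nu μ) n (fun w => if Pw w ≤ k ∧ Tw w = z then 1 else 0) * pz μ) +
          (∑ m ∈ range n, Ex (nu μ) m (fun w => if Pw w ≤ k ∧ Tw w = z then 1 else 0)) *
            pz μ := by ring
      _ ≤ (Ex (nu μ) n (fun w => if Pw w ≤ k then ((min (Tw w) z : ℕ) : ℝ≥0∞) else 0) +
          Ex (nu μ) n (fun w => if Pw w ≤ k then lam μ 1 (Nw w) else 0)) +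
          (∑ m ∈ range n, Ex (nu μ) m (fun w => if Pw w ≤ k ∧ Tw w = z then 1 else 0)) *
            pz μ := add_le_add (TGreen_step h0 hm hz k n) le_rfl
      _ = (Ex (nu μ) n (fun w => if Pw w ≤ k then ((min (Tw w) z : ℕ) : ℝ≥0∞) else 0) +
          (∑ m ∈ range n, Ex (nu μ) m (fun w => if Pw w ≤ k ∧ Tw w = z then 1 else 0)) *
            pz μ) + Ex (nu μ) n (fun w => if Pw w ≤ k then lam μ 1 (Nw w) else 0) := by ring
      _ ≤ _ := add_le_add ih le_rfl

/-- For `z = 0` this is `Hyp.S` with `i = 0`.  For `1 ≤ z` sum `step_min` over the lengths, restricted to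
`Pw w ≤ k`, and use `J_lam`. -/
theorem T_green (h0 : μ 0 = 0) (H : ∀ n, Hyp μ A C n) (hC : 0 ≤ C) (hK : Ks μ 1 ≠ ∞) :
    ∃ D : ℝ, 0 ≤ D ∧ ∀ n k z : ℕ, ∑ m ∈ range n,
      Ex (nu μ) m (fun w => if Pw w ≤ k ∧ Tw w = z then 1 else 0) ≤
        ENNReal.ofReal (D * (k + 1)) := by
  have hm : m1 μ ≠ ∞ := ne_top_of_le_ne_top hK (m1_le_Ks μ zero_le_one)
  have hp := pz_pos μ
  have hp1 : pz μ ≠ ∞ := ne_top_of_le_ne_top ENNReal.one_ne_top (pz_le_one μ)
  have hQ : Ks μ 1 / pz μ ≠ ∞ := ENNReal.div_ne_top hK hp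
  refine ⟨C + C * (Ks μ 1 / pz μ).toReal, by positivity, fun n k z => ?_⟩
  have hk : (0 : ℝ) ≤ (k : ℝ) + 1 := by positivity
  have hQ0 : 0 ≤ (Ks μ 1 / pz μ).toReal := ENNReal.toReal_nonneg
  rcases Nat.eq_zero_or_pos z with hz | hz
  · subst hz
    calc ∑ m ∈ range n, Ex (nu μ) m (fun w => if Pw w ≤ k ∧ Tw w = 0 then 1 else 0)
        ≤ ∑ m ∈ range n, J μ m k 0 := by
          refine sum_le_sum fun m _ => ?_
          unfold J
          refine Ex_mono _ _ fun w _ => ?_
          by_cases h : Pw w ≤ k ∧ Tw w = 0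
          · have hN := Nw_le_Tw w
            rw [if_pos h, if_pos ⟨h.1, by omega⟩]
          · rw [if_neg h]
            exact bot_le
      _ ≤ ENNReal.ofReal (C * (((k : ℝ) + 1) * ((0 : ℕ) + 1))) := (H n).S k 0
      _ ≤ _ := by
          refine ENNReal.ofReal_le_ofReal ?_
          have : 0 ≤ C * (Ks μ 1 / pz μ).toReal * ((k : ℝ) + 1) := by positivity
          simp only [Nat.cast_zero, zero_add, mul_one]
          nlinarith
  · have h1 := TGreen_sum h0 hm hz k n
    have h2 := J_lam (H n) hC k (s := 1) le_rfl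
    have h3 : (∑ m ∈ range n, Ex (nu μ) m (fun w => if Pw w ≤ k ∧ Tw w = z then 1 else 0)) * pz μ ≤
        ENNReal.ofReal (C * (k + 1)) * Ks μ 1 := le_trans le_add_self (le_trans h1 h2)
    have h4 := (ENNReal.le_div_iff_mul_le (Or.inl hp) (Or.inl hp1)).2 h3
    refine le_trans h4 ?_
    have h5 : ENNReal.ofReal (C * (k + 1)) * Ks μ 1 / pz μ =
        ENNReal.ofReal (C * (k + 1) * (Ks μ 1 / pz μ).toReal) := by
      rw [mul_div_assoc, ENNReal.ofReal_mul (p := C * ((k : ℝ) + 1)) (by positivity),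
        ENNReal.ofReal_toReal hQ]
    rw [h5]
    refine ENNReal.ofReal_le_ofReal ?_
    have : 0 ≤ C * ((k : ℝ) + 1) := by positivity
    nlinarith

end Pool.Agent.W_63dac5_h39b
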