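import Pool.Agent.W_63dac5_h39b.Base

/-!
# Abel summation (proofs row 568, A1 and A4)
-/

set_option autoImplicit false

namespace Pool.Agent.W_63dac5_h39b

open ENNReal Finset
open Pool.Agent.W_MP_63dac5_pr Pool.Agent.W_63dac5_h37

variable {μ : PMF ℕ} {A C : ℝ} {n : ℕ}

lemma abel_pt {g : ℕ → ℝ≥0∞} (hg : Antitone g) {X : ℕ} (hX : g X = 0) (hf : ∀ i, g i ≠ ∞) (N : ℕ) :
    g N ≤ ∑ i ∈ range X, (g i - g (i + 1)) * (if N ≤ i then 1 else 0) := by
  have key : ∀ Y, N ≤ Y → g N ≤ (∑ i ∈ range Y, (g i - g (i + 1)) * (if N ≤ i then 1 else 0)) + g Y := by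
    intro Y hY
    induction Y, hY using Nat.le_induction with
    | base => exact le_add_self
    | succ Y hY ih =>
      refine ih.trans ?_
      rw [Finset.sum_range_succ, if_pos hY, mul_one, add_assoc,
        tsub_add_cancel_of_le (hg (Nat.le_succ Y))]
  rcases le_total N X with h | h
  · have := key X h
    rwa [hX, add_zero] at this
  · have h1 : g N ≤ g X := hg h
    rw [hX] at h1
    exact h1.trans bot_le

lemma abel_sum {g : ℕ → ℝ≥0∞} (hg : Antitone g) {X : ℕ} (hX : g X = 0) (hf : ∀ i, g i ≠ ∞) :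
    ∑ i ∈ range X, (g i - g (i + 1)) * ((i : ℝ≥0∞) + 1) ≤ ∑ i ∈ range X, g i := by
  have key : ∀ Y : ℕ, (∑ i ∈ range Y, (g i - g (i + 1)) * ((i : ℝ≥0∞) + 1)) + (Y : ℝ≥0∞) * g Y =
      ∑ i ∈ range Y, g i := by
    intro Y
    induction Y with
    | zero => simp
    | succ Y ih =>
      rw [Finset.sum_range_succ, Finset.sum_range_succ, ← ih]
      have h1 : (g Y - g (Y + 1)) * ((Y : ℝ≥0∞) + 1) + ((Y + 1 : ℕ) : ℝ≥0∞) * g (Y + 1) =
          (Y : ℝ≥0∞) * g Y + g Y := by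
        push_cast
        rw [mul_comm ((Y : ℝ≥0∞) + 1) (g (Y + 1)), ← add_mul,
          tsub_add_cancel_of_le (hg (Nat.le_succ Y))]
        ring
      rw [add_assoc, h1, add_assoc]
  have h := key X
  rw [hX, mul_zero, add_zero] at h
  exact h.le

/-- `abel_pt`, `Hyp.S`, `abel_sum` -/
theorem J_abel (H : Hyp μ A C n) (hC : 0 ≤ C) (k : ℕ) {g : ℕ → ℝ≥0∞} (hg : Antitone g) {X : ℕ}
    (hX : g X = 0) (hf : ∀ i, g i ≠ ∞) :
    ∑ m ∈ range n, Ex (nu μ) m (fun w => if Pw w ≤ k then g (Nw w) else 0) ≤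
      ENNReal.ofReal (C * (k + 1)) * ∑ i ∈ range X, g i := by
  have h1 : ∀ m, Ex (nu μ) m (fun w => if Pw w ≤ k then g (Nw w) else 0) ≤
      ∑ i ∈ range X, (g i - g (i + 1)) * J μ m k i := by
    intro m
    calc Ex (nu μ) m (fun w => if Pw w ≤ k then g (Nw w) else 0)
        ≤ Ex (nu μ) m (fun w => ∑ i ∈ range X, (g i - g (i + 1)) *
            (if Pw w ≤ k ∧ Nw w ≤ i then 1 else 0)) := by
          refine Ex_mono _ _ fun w _ => ?_
          by_cases hk : Pw w ≤ k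
          · simp only [hk, if_true, true_and]
            exact abel_pt hg hX hf (Nw w)
          · simp only [hk, if_false]
            exact bot_le
      _ = ∑ i ∈ range X, (g i - g (i + 1)) * J μ m k i := by
          rw [Ex_sum]
          refine Finset.sum_congr rfl fun i _ => ?_
          exact Ex_mul_left _ _ _ _
  calc ∑ m ∈ range n, Ex (nu μ) m (fun w => if Pw w ≤ k then g (Nw w) else 0)
      ≤ ∑ m ∈ range n, ∑ i ∈ range X, (g i - g (i + 1)) * J μ m k i :=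
        Finset.sum_le_sum fun m _ => h1 m
    _ = ∑ i ∈ range X, (g i - g (i + 1)) * ∑ m ∈ range n, J μ m k i := by
        rw [Finset.sum_comm]
        exact Finset.sum_congr rfl fun i _ => by rw [Finset.mul_sum]
    _ ≤ ∑ i ∈ range X, (g i - g (i + 1)) * (ENNReal.ofReal (C * (k + 1)) * ((i : ℝ≥0∞) + 1)) := by
        refine Finset.sum_le_sum fun i _ => ?_
        gcongr
        refine (H.S k i).trans (le_of_eq ?_)
        rw [← mul_assoc, ENNReal.ofReal_mul (by positivity)]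
        congr 1
        rw [ENNReal.ofReal_add (by positivity) zero_le_one, ENNReal.ofReal_natCast,
          ENNReal.ofReal_one]
    _ = ENNReal.ofReal (C * (k + 1)) * ∑ i ∈ range X, (g i - g (i + 1)) * ((i : ℝ≥0∞) + 1) := by
        rw [Finset.mul_sum]
        exact Finset.sum_congr rfl fun i _ => by ring
    _ ≤ _ := mul_le_mul_right (abel_sum hg hX hf) _

/-- `abel_pt`, `Fp_eq_Nw`, `Hyp.F`, `abel_sum` -/
theorem F_abel (H : Hyp μ A C n) (hA : 0 ≤ A) {l : ℕ} (h1 : 1 ≤ l) (hl : l < n) {g : ℕ → ℝ≥0∞}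
    (hg : Antitone g) {X : ℕ} (hX : g X = 0) (hf : ∀ i, g i ≠ ∞) :
    Ex (nu μ) l (fun w => g (Nw w)) ≤ ENNReal.ofReal (A / √(l : ℝ)) * ∑ i ∈ range X, g i := by
  have h2 : 0 ≤ A / √(l : ℝ) := by positivity
  calc Ex (nu μ) l (fun w => g (Nw w))
      ≤ Ex (nu μ) l (fun w => ∑ i ∈ range X, (g i - g (i + 1)) *
            (if Nw w ≤ i then 1 else 0)) :=
        Ex_mono _ _ fun w _ => abel_pt hg hX hf (Nw w)
    _ = ∑ i ∈ range X, (g i - g (i + 1)) * Fp μ l i := by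
        rw [Ex_sum]
        refine Finset.sum_congr rfl fun i _ => ?_
        rw [← Fp_eq_Nw]
        exact Ex_mul_left _ _ _ _
    _ ≤ ∑ i ∈ range X, (g i - g (i + 1)) * (ENNReal.ofReal (A / √(l : ℝ)) * ((i : ℝ≥0∞) + 1)) := by
        refine Finset.sum_le_sum fun i _ => ?_
        gcongr
        refine (H.F l h1 hl i).trans (le_of_eq ?_)
        rw [show A * ((i : ℝ) + 1) / √(l : ℝ) = A / √(l : ℝ) * ((i : ℝ) + 1) by ring,
          ENNReal.ofReal_mul h2]
        congr 1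
        rw [ENNReal.ofReal_add (by positivity) zero_le_one, ENNReal.ofReal_natCast,
          ENNReal.ofReal_one]
    _ = ENNReal.ofReal (A / √(l : ℝ)) * ∑ i ∈ range X, (g i - g (i + 1)) * ((i : ℝ≥0∞) + 1) := by
        rw [Finset.mul_sum]
        exact Finset.sum_congr rfl fun i _ => by ring
    _ ≤ _ := mul_le_mul_right (abel_sum hg hX hf) _

lemma sum_pow_le {s : ℝ} (hs : 0 ≤ s) (x : ℕ) :
    ∑ i ∈ range x, ((x - i : ℕ) : ℝ≥0∞) ^ s ≤ (x : ℝ≥0∞) ^ (s + 1) := by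
  calc ∑ i ∈ range x, ((x - i : ℕ) : ℝ≥0∞) ^ s
      ≤ ∑ _i ∈ range x, (x : ℝ≥0∞) ^ s := by
        refine Finset.sum_le_sum fun i _ => ?_
        refine ENNReal.rpow_le_rpow ?_ hs
        exact_mod_cast Nat.sub_le x i
    _ = (x : ℝ≥0∞) ^ (s + 1) := by
        rw [Finset.sum_const, Finset.card_range, nsmul_eq_mul,
          ENNReal.rpow_add_of_nonneg _ _ hs zero_le_one, ENNReal.rpow_one, mul_comm]

private lemma Abel_J_tsum (H : Hyp μ A C n) (hC : 0 ≤ C) (k : ℕ) {G : ℕ × ℕ → ℕ → ℝ≥0∞}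
    {X : ℕ × ℕ → ℕ} (hg : ∀ a, Antitone (G a)) (hX : ∀ a, G a (X a) = 0) (hf : ∀ a i, G a i ≠ ∞) :
    ∑ m ∈ range n, Ex (nu μ) m
      (fun w => if Pw w ≤ k then ∑' a, nu μ a * G a (Nw w) else 0) ≤
      ENNReal.ofReal (C * (k + 1)) * ∑' a, nu μ a * ∑ i ∈ range (X a), G a i := by
  have h1 : ∀ m, Ex (nu μ) m (fun w => if Pw w ≤ k then ∑' a, nu μ a * G a (Nw w) else 0) =
      ∑' a, nu μ a * Ex (nu μ) m (fun w => if Pw w ≤ k then G a (Nw w) else 0) := by
    intro m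
    calc Ex (nu μ) m (fun w => if Pw w ≤ k then ∑' a, nu μ a * G a (Nw w) else 0)
        = Ex (nu μ) m (fun w => ∑' a, nu μ a * (if Pw w ≤ k then G a (Nw w) else 0)) := by
          refine Ex_congr _ _ fun w _ => ?_
          by_cases hk : Pw w ≤ k
          · simp only [hk, if_true]
          · simp only [hk, if_false, mul_zero, tsum_zero]
      _ = _ := by
          rw [Ex_tsum]
          exact tsum_congr fun a => Ex_mul_left _ _ _ _
  simp only [h1]
  calc ∑ m ∈ range n, ∑' a, nu μ a * Ex (nu μ) m (fun w => if Pw w ≤ k then G a (Nw w) else 0)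
      = ∑' a, nu μ a * ∑ m ∈ range n, Ex (nu μ) m (fun w => if Pw w ≤ k then G a (Nw w) else 0) := by
        rw [← Summable.tsum_finsetSum (fun _ _ => ENNReal.summable)]
        exact tsum_congr fun a => by rw [Finset.mul_sum]
    _ ≤ ∑' a, nu μ a * (ENNReal.ofReal (C * (k + 1)) * ∑ i ∈ range (X a), G a i) := by
        refine ENNReal.tsum_le_tsum fun a => ?_
        gcongr
        exact J_abel H hC k (hg a) (hX a) (hf a)
    _ = _ := by
        rw [← ENNReal.tsum_mul_left]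
        exact tsum_congr fun a => by ring

private lemma Abel_F_tsum (H : Hyp μ A C n) (hA : 0 ≤ A) {l : ℕ} (h1 : 1 ≤ l) (hl : l < n)
    {G : ℕ × ℕ → ℕ → ℝ≥0∞}
    {X : ℕ × ℕ → ℕ} (hg : ∀ a, Antitone (G a)) (hX : ∀ a, G a (X a) = 0) (hf : ∀ a i, G a i ≠ ∞) :
    Ex (nu μ) l (fun w => ∑' a, nu μ a * G a (Nw w)) ≤
      ENNReal.ofReal (A / √(l : ℝ)) * ∑' a, nu μ a * ∑ i ∈ range (X a), G a i := by
  rw [Ex_tsum]
  calc ∑' a, Ex (nu μ) l (fun w => nu μ a * G a (Nw w))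
      = ∑' a, nu μ a * Ex (nu μ) l (fun w => G a (Nw w)) :=
        tsum_congr fun a => Ex_mul_left _ _ _ _
    _ ≤ ∑' a, nu μ a * (ENNReal.ofReal (A / √(l : ℝ)) * ∑ i ∈ range (X a), G a i) := by
        refine ENNReal.tsum_le_tsum fun a => ?_
        gcongr
        exact F_abel H hA h1 hl (hg a) (hX a) (hf a)
    _ = _ := by
        rw [← ENNReal.tsum_mul_left]
        exact tsum_congr fun a => by ring

private lemma Abel_pow_anti (x : ℕ) {s : ℝ} (hs : 0 ≤ s) :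
    Antitone (fun i : ℕ => ((x - i : ℕ) : ℝ≥0∞) ^ s) := by
  intro i j hij
  refine ENNReal.rpow_le_rpow ?_ hs
  exact_mod_cast Nat.sub_le_sub_left hij x

private lemma Abel_pow_fin (x : ℕ) {s : ℝ} (hs : 0 ≤ s) (i : ℕ) :
    ((x - i : ℕ) : ℝ≥0∞) ^ s ≠ ∞ :=
  ENNReal.rpow_ne_top_of_nonneg hs (ENNReal.natCast_ne_top _)

private lemma Abel_pow_zero (x : ℕ) {s : ℝ} (hs : 0 < s) :
    ((x - x : ℕ) : ℝ≥0∞) ^ s = 0 := by
  rw [Nat.sub_self, Nat.cast_zero, ENNReal.zero_rpow_of_pos hs]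

/-- `J_abel` with `g i = (x - i) ^ s`, `X = x`, for each letter `a`, `x = a.1` -/
theorem J_lam (H : Hyp μ A C n) (hC : 0 ≤ C) (k : ℕ) {s : ℝ} (hs : 1 ≤ s) :
    ∑ m ∈ range n, Ex (nu μ) m (fun w => if Pw w ≤ k then lam μ s (Nw w) else 0) ≤
      ENNReal.ofReal (C * (k + 1)) * Ks μ s := by
  have h0 : 0 ≤ s := by linarith
  have h := Abel_J_tsum H hC k (G := fun a i => ((a.1 - i : ℕ) : ℝ≥0∞) ^ s) (X := fun a => a.1)
    (fun a => Abel_pow_anti a.1 h0) (fun a => Abel_pow_zero a.1 (by linarith))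
    (fun a i => Abel_pow_fin a.1 h0 i)
  refine h.trans ?_
  unfold Ks
  gcongr with a
  exact sum_pow_le h0 a.1

theorem F_lam (H : Hyp μ A C n) (hA : 0 ≤ A) {l : ℕ} (h1 : 1 ≤ l) (hl : l < n) {s : ℝ}
    (hs : 1 ≤ s) :
    Ex (nu μ) l (fun w => lam μ s (Nw w)) ≤ ENNReal.ofReal (A / √(l : ℝ)) * Ks μ s := by
  have h0 : 0 ≤ s := by linarith
  have h := Abel_F_tsum H hA h1 hl (G := fun a i => ((a.1 - i : ℕ) : ℝ≥0∞) ^ s) (X := fun a => a.1)
    (fun a => Abel_pow_anti a.1 h0) (fun a => Abel_pow_zero a.1 (by linarith))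
    (fun a i => Abel_pow_fin a.1 h0 i)
  refine h.trans ?_
  unfold Ks
  gcongr with a
  exact sum_pow_le h0 a.1

/-- `J_abel` with `g i = x - h - i`, `X = x - h` -/
theorem gk_sum (H : Hyp μ A C n) (hC : 0 ≤ C) (h k : ℕ) :
    ∑ m ∈ range n, gk μ h k m ≤ ENNReal.ofReal (C * (k + 1)) * m2 μ h := by
  have hh := Abel_J_tsum H hC k (G := fun a i => ((a.1 - i - h : ℕ) : ℝ≥0∞))
    (X := fun a => a.1 - h)
    (fun a i j hij => by
      show ((a.1 - j - h : ℕ) : ℝ≥0∞) ≤ ((a.1 - i - h : ℕ) : ℝ≥0∞)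
      exact_mod_cast (show a.1 - j - h ≤ a.1 - i - h by omega))
    (fun a => by
      show ((a.1 - (a.1 - h) - h : ℕ) : ℝ≥0∞) = 0
      exact_mod_cast (show a.1 - (a.1 - h) - h = 0 by omega))
    (fun a i => ENNReal.natCast_ne_top _)
  refine le_trans (le_of_eq rfl) (hh.trans ?_)
  unfold m2
  gcongr with a
  calc ∑ i ∈ range (a.1 - h), ((a.1 - i - h : ℕ) : ℝ≥0∞)
      ≤ ∑ _i ∈ range (a.1 - h), ((a.1 - h : ℕ) : ℝ≥0∞) := by
        refine Finset.sum_le_sum fun i _ => ?_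
        exact_mod_cast (show a.1 - i - h ≤ a.1 - h by omega)
    _ = ((a.1 - h : ℕ) : ℝ≥0∞) ^ 2 := by
        rw [Finset.sum_const, Finset.card_range, nsmul_eq_mul, sq]

/-- `F_abel` with `g i = x - max i I`: the part of `lam` from `N > I`.  The sum over `i < x` is at most
`x ^ 2` if `I < x`, and `0` otherwise. -/
theorem F_lam_tail (H : Hyp μ A C n) (hA : 0 ≤ A) {l : ℕ} (h1 : 1 ≤ l) (hl : l < n) (I : ℕ) :
    Ex (nu μ) l (fun w => if I < Nw w then lam μ 1 (Nw w) else 0) ≤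
      ENNReal.ofReal (A / √(l : ℝ)) * ∑' a : ℕ × ℕ, nu μ a * (if I < a.1 then (a.1 : ℝ≥0∞) ^ 2 else 0) := by
  have hh := Abel_F_tsum H hA h1 hl (G := fun a i => ((a.1 - max i I : ℕ) : ℝ≥0∞))
    (X := fun a => a.1)
    (fun a i j hij => by
      show ((a.1 - max j I : ℕ) : ℝ≥0∞) ≤ ((a.1 - max i I : ℕ) : ℝ≥0∞)
      have := max_le_max_right I hij
      exact_mod_cast (show a.1 - max j I ≤ a.1 - max i I by omega))
    (fun a => by
      show ((a.1 - max a.1 I : ℕ) : ℝ≥0∞) = 0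
      have := le_max_left a.1 I
      exact_mod_cast (show a.1 - max a.1 I = 0 by omega))
    (fun a i => ENNReal.natCast_ne_top _)
  refine le_trans (Ex_mono _ _ fun w _ => ?_) (hh.trans ?_)
  · by_cases hI : I < Nw w
    · rw [if_pos hI]
      unfold lam
      refine ENNReal.tsum_le_tsum fun a => ?_
      rw [ENNReal.rpow_one, max_eq_left hI.le]
    · rw [if_neg hI]
      exact bot_le
  · gcongr with a
    by_cases hI : I < a.1
    · rw [if_pos hI]
      calc ∑ i ∈ range a.1, ((a.1 - max i I : ℕ) : ℝ≥0∞)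
          ≤ ∑ _i ∈ range a.1, (a.1 : ℝ≥0∞) := by
            refine Finset.sum_le_sum fun i _ => ?_
            exact_mod_cast Nat.sub_le _ _
        _ = (a.1 : ℝ≥0∞) ^ 2 := by
            rw [Finset.sum_const, Finset.card_range, nsmul_eq_mul, sq]
    · rw [if_neg hI]
      refine le_of_eq (Finset.sum_eq_zero fun i _ => ?_)
      have := le_max_right i I
      exact_mod_cast (show a.1 - max i I = 0 by omega)

end Pool.Agent.W_63dac5_h39b
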