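import Pool.Agent.W_63dac5_h39b.SelB
import Pool.Agent.W_63dac5_h37.Kernel2

/-!
# Closed words from pairs of words (proofs row 568, B6 and B7)
-/

set_option autoImplicit false

namespace Pool.Agent.W_63dac5_h39b

open ENNReal Finset
open Pool.Agent.W_MP_63dac5_pr Pool.Agent.W_63dac5_h37

variable {μ : PMF ℕ}

open Classical in
private lemma CloseE_core (E : List (ℕ × ℕ) → Prop) (n : ℕ) :
    ∑' z : ℤ, qz μ E n z ^ 2 = Ex (nu μ) n (fun w => Ex (nu μ) n (fun v =>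
      if E w ∧ E (mir v) ∧ Sw w = Sw (mir v) then 1 else 0)) := by
  have h1 : ∀ z : ℤ, qz μ E n z = Ex (nu μ) n (fun v =>
      if E (mir v) ∧ Sw (mir v) = z then 1 else 0) := by
    intro z
    unfold qz
    rw [← Ex_mir (nu_swap μ)]
  have h2 : ∀ z : ℤ, qz μ E n z ^ 2 = Ex (nu μ) n (fun w =>
      (if E w ∧ Sw w = z then 1 else 0) * Ex (nu μ) n (fun v =>
      if E (mir v) ∧ Sw (mir v) = z then 1 else 0)) := by
    intro z
    rw [Ex_mul_right, ← h1, sq]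
    rfl
  simp_rw [h2]
  rw [← Ex_tsum]
  refine Ex_congr _ _ fun w _ => ?_
  by_cases hw : E w
  · rw [tsum_eq_single (Sw w)]
    · rw [if_pos ⟨hw, rfl⟩, one_mul]
      refine Ex_congr _ _ fun v _ => ?_
      by_cases hv : E (mir v)
      · by_cases hs : Sw w = Sw (mir v)
        · rw [if_pos ⟨hv, hs.symm⟩, if_pos ⟨hw, hv, hs⟩]
        · rw [if_neg (fun h => hs h.2.symm), if_neg (fun h => hs h.2.2)]
      · rw [if_neg (fun h => hv h.1), if_neg (fun h => hv h.2.1)]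
    · intro z hz
      rw [if_neg (fun h => hz h.2.symm), zero_mul]
  · have h3 : ∀ z : ℤ, ((if E w ∧ Sw w = z then 1 else 0 : ℝ≥0∞) * Ex (nu μ) n (fun v =>
      if E (mir v) ∧ Sw (mir v) = z then 1 else 0)) = 0 := by
      intro z
      rw [if_neg (fun h => hw h.1), zero_mul]
    simp_rw [h3]
    rw [tsum_zero]
    symm
    refine (Ex_congr (nu μ) n (g := fun _ => 0) fun v _ => ?_).trans (Ex_zero (nu μ) n)
    rw [if_neg (fun h => hw h.1)]

/-- `qz (z) ^ 2` is the probability of the pair `(w, mir w')`; sum over `z` inside `Ex` -/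
lemma tsum_qz_sq (E : List (ℕ × ℕ) → Prop) (n : ℕ) [DecidablePred E] :
    ∑' z : ℤ, qz μ E n z ^ 2 = Ex (nu μ) n (fun w => Ex (nu μ) n (fun v =>
      if E w ∧ E (mir v) ∧ Sw w = Sw (mir v) then 1 else 0)) := by
  rw [CloseE_core]
  refine Ex_congr _ _ fun w _ => Ex_congr _ _ fun v _ => ?_
  by_cases h : E w ∧ E (mir v) ∧ Sw w = Sw (mir v)
  · rw [if_pos h, if_pos h]
  · rw [if_neg h, if_neg h]

/-- as `cw_geB` in `W_63dac5_h37/Kernel2.lean`: `Ex_append`, `Ex_ge_single` for the first and last words,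
`prods_ne_zero`; `c` is a positive real number below the product of the two weights. -/
theorem close_cw {E : List (ℕ × ℕ) → Prop} {k d : ℕ} (hd : 1 ≤ d) (hμ : μ d ≠ 0)
    (hE : ∀ w w' : List (ℕ × ℕ), E w → E w' → Sw w = Sw w' →
      CW (List.replicate k (0, d) ++ (w ++ (mir w' ++ Vk d k)))) :
    ∃ c : ℝ, 0 < c ∧ ∀ n : ℕ, ENNReal.ofReal c * ∑' z : ℤ, qz μ E n z ^ 2 ≤
      cw (nu μ) (k + (n + (n + k * d))) := by
  classical
  have _ := hd
  have hpos : ∀ a : ℕ × ℕ, a.1 + a.2 = d → nu μ a ≠ 0 := by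
    intro a ha
    rw [nu_eq, ha]
    refine mul_ne_zero hμ ?_
    rw [Ne, ENNReal.ofReal_eq_zero, not_le]
    have h1 : 0 < d.choose a.1 := Nat.choose_pos (by omega)
    have h2 : (0 : ℝ) < (d.choose a.1 : ℝ) := by exact_mod_cast h1
    positivity
  obtain ⟨h1, h2⟩ := prods_ne_zero (ν := nu μ) (k := k) hpos
  set P : ℝ≥0∞ := ((List.replicate k ((0 : ℕ), d)).map (nu μ)).prod with hP
  set R : ℝ≥0∞ := ((Vk d k).map (nu μ)).prod with hR
  have hm0 : min (P * R) 1 ≠ 0 := by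
    rcases min_choice (P * R) 1 with h | h
    · rw [h]; exact mul_ne_zero h1 h2
    · rw [h]; exact one_ne_zero
  have hmt : min (P * R) 1 ≠ ∞ := ne_top_of_le_ne_top ENNReal.one_ne_top (min_le_right _ _)
  refine ⟨(min (P * R) 1).toReal, ENNReal.toReal_pos hm0 hmt, fun n => ?_⟩
  rw [ENNReal.ofReal_toReal hmt]
  refine le_trans (mul_le_mul' (min_le_left _ _) le_rfl) ?_
  rw [CloseE_core, mul_assoc]
  unfold cw
  rw [Ex_append]
  have h3 : (List.replicate k ((0 : ℕ), d)).length = k := by simp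
  refine le_trans ?_ (le_of_le_of_eq (Ex_ge_single (nu μ) (List.replicate k ((0 : ℕ), d)) _)
    (by rw [h3]))
  rw [← hP]
  refine mul_le_mul' le_rfl ?_
  rw [Ex_append, ← Ex_mul_left]
  refine Ex_mono _ _ fun w hw => ?_
  rw [Ex_append, ← Ex_mul_left]
  refine Ex_mono _ _ fun v hv => ?_
  refine le_trans ?_ (le_of_le_of_eq (Ex_ge_single (nu μ) (Vk d k) _) (by rw [Vk_length]))
  rw [← hR]
  refine mul_le_mul' le_rfl ?_
  by_cases h : E w ∧ E (mir v) ∧ Sw w = Sw (mir v)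
  · have h4 := hE w (mir v) h.1 h.2.1 h.2.2
    rw [mir_mir] at h4
    rw [if_pos h, if_pos h4]
  · rw [if_neg h]
    exact bot_le

private lemma CloseE_tsum (f : ℕ → ℝ≥0∞) :
    ∑' e : ℕ × ℕ, f (e.1 + e.2) = ∑' m : ℕ, ((m + 1 : ℕ) : ℝ≥0∞) * f m := by
  rw [← (HasAntidiagonal.sigmaAntidiagonalEquivProd (A := ℕ)).tsum_eq
    (fun a : ℕ × ℕ => f (a.1 + a.2)), ENNReal.tsum_sigma']
  refine tsum_congr fun d => ?_
  rw [tsum_fintype]
  have h1 : ∀ x : (antidiagonal d : Finset (ℕ × ℕ)),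
      f (((HasAntidiagonal.sigmaAntidiagonalEquivProd (A := ℕ)) ⟨d, x⟩).1 +
        ((HasAntidiagonal.sigmaAntidiagonalEquivProd (A := ℕ)) ⟨d, x⟩).2) = f d := by
    intro x
    have ha := mem_antidiagonal.1 x.2
    simp only [HasAntidiagonal.sigmaAntidiagonalEquivProd_apply]
    rw [ha]
  simp only [h1]
  rw [Finset.sum_const, Finset.card_univ, Fintype.card_coe, Finset.Nat.card_antidiagonal,
    nsmul_eq_mul]

/-- If the sum over `e` is finite, then `c √N ≤ N ∑ g ≤ ∑ (K + 2 n + 1) f (K + 2 n) / c₁` is bounded, where `m + 1`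
is the number of pairs `e` with `e.1 + e.2 = m`. -/
theorem tsum_top {g f : ℕ → ℝ≥0∞} {K : ℕ} {c c₁ : ℝ} (hc : 0 < c) (hc₁ : 0 < c₁)
    (h1 : ∀ N : ℕ, 1 ≤ N → ENNReal.ofReal (c / √(N : ℝ)) ≤ ∑ n ∈ Ico N (4 * N), g n)
    (h2 : ∀ n, ENNReal.ofReal c₁ * g n ≤ f (K + 2 * n)) :
    ∑' e : ℕ × ℕ, f (e.1 + e.2) = ∞ := by
  rw [CloseE_tsum]
  have key : ∀ N : ℕ, 1 ≤ N → ENNReal.ofReal (c₁ * c * √(N : ℝ)) ≤
      ∑' m : ℕ, ((m + 1 : ℕ) : ℝ≥0∞) * f m := by
    intro N hN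
    have hN0 : (0 : ℝ) < N := by exact_mod_cast hN
    have hs : √(N : ℝ) * √(N : ℝ) = N := Real.mul_self_sqrt hN0.le
    have hs0 : 0 < √(N : ℝ) := Real.sqrt_pos.2 hN0
    calc ENNReal.ofReal (c₁ * c * √(N : ℝ))
        = ENNReal.ofReal N * (ENNReal.ofReal c₁ * ENNReal.ofReal (c / √(N : ℝ))) := by
          rw [← ENNReal.ofReal_mul hc₁.le, ← ENNReal.ofReal_mul hN0.le]
          congr 1
          field_simp
          nlinarith [hs]
      _ ≤ ENNReal.ofReal N * (ENNReal.ofReal c₁ * ∑ n ∈ Ico N (4 * N), g n) := by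
          gcongr
          exact h1 N hN
      _ = ∑ n ∈ Ico N (4 * N), (N : ℝ≥0∞) * (ENNReal.ofReal c₁ * g n) := by
          rw [Finset.mul_sum, Finset.mul_sum, ENNReal.ofReal_natCast]
      _ ≤ ∑ n ∈ Ico N (4 * N), ((K + 2 * n + 1 : ℕ) : ℝ≥0∞) * f (K + 2 * n) := by
          refine Finset.sum_le_sum fun n hn => ?_
          rw [Finset.mem_Ico] at hn
          refine mul_le_mul' ?_ (h2 n)
          exact_mod_cast (by omega : N ≤ K + 2 * n + 1)
      _ ≤ ∑' n : ℕ, ((K + 2 * n + 1 : ℕ) : ℝ≥0∞) * f (K + 2 * n) :=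
          ENNReal.sum_le_tsum _
      _ ≤ ∑' m : ℕ, ((m + 1 : ℕ) : ℝ≥0∞) * f m := by
          have hinj : Function.Injective (fun n : ℕ => K + 2 * n) := by
            intro a b hab
            simp only at hab
            omega
          exact ENNReal.tsum_comp_le_tsum_of_injective hinj
            (fun m : ℕ => ((m + 1 : ℕ) : ℝ≥0∞) * f m)
  refine ENNReal.eq_top_of_forall_nnreal_le fun r => ?_
  obtain ⟨N, hN⟩ := exists_nat_ge ((r / (c₁ * c)) ^ 2 + 1)
  have hr : (0 : ℝ) ≤ r := r.2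
  have hN1 : 1 ≤ N := by
    have h3 : (1 : ℝ) ≤ N := le_trans (by nlinarith [sq_nonneg ((r : ℝ) / (c₁ * c))]) hN
    exact_mod_cast h3
  refine le_trans ?_ (key N hN1)
  rw [← ENNReal.ofReal_coe_nnreal]
  refine ENNReal.ofReal_le_ofReal ?_
  have h4 : (r : ℝ) / (c₁ * c) ≤ √(N : ℝ) := by
    refine Real.le_sqrt_of_sq_le ?_
    linarith
  rw [div_le_iff₀ (by positivity)] at h4
  linarith

end Pool.Agent.W_63dac5_h39b
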