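import Mathlib

/-!
# The constants (proofs row 568, A5), real analysis
-/

set_option autoImplicit false

namespace Pool.Agent.W_63dac5_h39b

/-- With `Λ = 1 + log (A (1 + K))` and `C = c A ^ 2 Λ` take `Y = ⌈(8 / (s - 1) * K * (2 C + 24 A ^ 2)) ^ (1 / (s - 1))⌉ + 2`:
the last term is at most `A`, `log Y ≤ c' (Λ + log c)` with `c'` depending on `s` only (`log C ≤ 2 Λ + log c + Λ`), and
`c Λ ≥ 6 + 8 c' (Λ + log c) + 104 s / (s - 1)` for a large constant `c`. -/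
theorem exists_const {s : ℝ} (hs : 1 < s) : ∃ c : ℝ, 1 ≤ c ∧ ∀ A K : ℝ, 1 ≤ A → 0 ≤ K →
    ∃ Y : ℕ, 2 ≤ Y ∧ 1 + 4 * A + 8 * A ^ 2 * Real.log Y + 104 * s / (s - 1) * A ^ 2 +
      8 / (s - 1) * (K * (2 * A * (c * A ^ 2 * (1 + Real.log (A * (1 + K)))) + 24 * A ^ 3)) *
        (Y : ℝ) ^ (1 - s) ≤ c * A ^ 2 * (1 + Real.log (A * (1 + K))) := by
  have hs1 : 0 < s - 1 := by linarith
  set α : ℝ := 1 / (s - 1) with hα
  have hα0 : 0 < α := by positivity
  set B : ℝ := 8 / (s - 1) with hB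
  have hB0 : 0 < B := by positivity
  set b₀ : ℝ := Real.log (1 + 26 * B) with hb₀
  have hb0 : 0 ≤ b₀ := Real.log_nonneg (by linarith)
  have h104 : 0 ≤ 104 * s / (s - 1) := by positivity
  set c₀ : ℝ := 22 + 8 * α * b₀ + 24 * α + 104 * s / (s - 1) with hc₀
  have hc0 : 22 ≤ c₀ := by
    have : 0 ≤ 8 * α * b₀ := by positivity
    have : 0 ≤ 24 * α := by positivity
    linarith
  set r : ℝ := c₀ + 16 * α + 1 with hr
  have hr1 : 1 ≤ r := by
    have : 0 ≤ 16 * α := by positivity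
    linarith
  have hr0 : 0 < r := by linarith
  have hc1 : 1 ≤ r ^ 2 := one_le_pow₀ hr1
  have hlogc : Real.log (r ^ 2) ≤ 2 * r := by
    rw [Real.log_pow]
    have := Real.log_le_sub_one_of_pos hr0
    push_cast
    linarith
  have hlogc0 : 0 ≤ Real.log (r ^ 2) := Real.log_nonneg hc1
  have hmain : c₀ + 8 * α * Real.log (r ^ 2) ≤ r ^ 2 := by
    have h1 : 8 * α * Real.log (r ^ 2) ≤ 8 * α * (2 * r) := by gcongr
    have h2 : c₀ ≤ c₀ * r := le_mul_of_one_le_right (by linarith) hr1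
    calc c₀ + 8 * α * Real.log (r ^ 2) ≤ c₀ * r + 8 * α * (2 * r) := by linarith
      _ = (c₀ + 16 * α) * r := by ring
      _ ≤ (c₀ + 16 * α + 1) * r := by
        apply mul_le_mul_of_nonneg_right (by linarith) hr0.le
      _ = r ^ 2 := by rw [← hr]; ring
  refine ⟨r ^ 2, hc1, fun A K hA hK => ?_⟩
  set c : ℝ := r ^ 2 with hc
  clear_value c
  have hA0 : 0 < A := by linarith
  have hK1 : 0 < 1 + K := by linarith
  have hlA : 0 ≤ Real.log A := Real.log_nonneg hA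
  have hlK : 0 ≤ Real.log (1 + K) := Real.log_nonneg (by linarith)
  set Λ : ℝ := 1 + Real.log (A * (1 + K)) with hΛ
  have hΛe : Λ = 1 + Real.log A + Real.log (1 + K) := by
    rw [hΛ, Real.log_mul hA0.ne' hK1.ne']
    ring
  clear_value Λ
  have hΛ1 : 1 ≤ Λ := by linarith
  have hΛ0 : 0 < Λ := by linarith
  obtain ⟨E, hE⟩ : ∃ E : ℝ, E = (1 + 26 * B) * c * (1 + K) * A ^ 2 * Λ := ⟨_, rfl⟩
  have hA2 : 1 ≤ A ^ 2 := one_le_pow₀ hA
  have hE1 : 1 ≤ E := by
    rw [hE]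
    have e1 : (1 : ℝ) ≤ 1 + 26 * B := by linarith
    have e2 : (1 : ℝ) ≤ (1 + 26 * B) * c := one_le_mul_of_one_le_of_one_le e1 hc1
    have e3 : (1 : ℝ) ≤ (1 + 26 * B) * c * (1 + K) :=
      one_le_mul_of_one_le_of_one_le e2 (by linarith)
    have e4 := one_le_mul_of_one_le_of_one_le e3 hA2
    exact one_le_mul_of_one_le_of_one_le e4 hΛ1
  have hE0 : 0 < E := by linarith
  have hlogE : Real.log E ≤ b₀ + Real.log c + 3 * Λ := by
    have hcpos : 0 < c := by linarith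
    have h1 : Real.log E = b₀ + Real.log c + Real.log (1 + K) + 2 * Real.log A + Real.log Λ := by
      rw [hE, Real.log_mul (by positivity) (by positivity), Real.log_mul (by positivity)
        (by positivity), Real.log_mul (by positivity) (by positivity), Real.log_mul
        (by positivity) (by positivity), Real.log_pow]
      push_cast
      ring
    have h2 := Real.log_le_sub_one_of_pos hΛ0
    rw [h1]
    linarith
  have hEα1 : 1 ≤ E ^ α := Real.one_le_rpow hE1 hα0.le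
  refine ⟨⌈E ^ α⌉₊ + 1, ?_, ?_⟩
  · have : 1 ≤ ⌈E ^ α⌉₊ := Nat.one_le_iff_ne_zero.2 (by
      have := Nat.ceil_pos.2 (by linarith : (0 : ℝ) < E ^ α)
      omega)
    omega
  set Y : ℝ := ((⌈E ^ α⌉₊ + 1 : ℕ) : ℝ) with hY
  have hYlo : E ^ α ≤ Y := by
    rw [hY]
    push_cast
    have := Nat.le_ceil (E ^ α)
    linarith
  have hYhi : Y ≤ 3 * E ^ α := by
    rw [hY]
    push_cast
    have := Nat.ceil_lt_add_one (by linarith : (0 : ℝ) ≤ E ^ α)
    linarith
  have hY0 : 0 < Y := by linarith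
  have hlogY : Real.log Y ≤ 2 + α * (b₀ + Real.log c + 3 * Λ) := by
    have h1 : Real.log Y ≤ Real.log (3 * E ^ α) := Real.log_le_log hY0 hYhi
    rw [Real.log_mul (by norm_num) (by positivity), Real.log_rpow hE0] at h1
    have h2 : Real.log 3 ≤ 2 := by
      have := Real.log_le_sub_one_of_pos (show (0 : ℝ) < 3 by norm_num)
      linarith
    have h3 : α * Real.log E ≤ α * (b₀ + Real.log c + 3 * Λ) := by gcongr
    linarith
  have hYpow : E ≤ Y ^ (s - 1) := by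
    have h1 : (E ^ α) ^ (s - 1) ≤ Y ^ (s - 1) :=
      Real.rpow_le_rpow (by linarith) hYlo hs1.le
    rw [← Real.rpow_mul hE0.le] at h1
    have h2 : α * (s - 1) = 1 := by
      rw [hα]
      field_simp
    rwa [h2, Real.rpow_one] at h1
  have hD : B * (K * (2 * (c * A ^ 2 * Λ) + 24 * A ^ 2)) ≤ E := by
    have h1 : A ^ 2 ≤ c * A ^ 2 * Λ := by
      calc A ^ 2 = 1 * A ^ 2 * 1 := by ring
        _ ≤ c * A ^ 2 * Λ := by gcongr
    have h2 : 2 * (c * A ^ 2 * Λ) + 24 * A ^ 2 ≤ 26 * (c * A ^ 2 * Λ) := by linarith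
    have h3 : 0 ≤ c * A ^ 2 * Λ := by positivity
    calc B * (K * (2 * (c * A ^ 2 * Λ) + 24 * A ^ 2))
        ≤ B * ((1 + K) * (26 * (c * A ^ 2 * Λ))) := by
          gcongr
          linarith
      _ = (26 * B) * c * (1 + K) * A ^ 2 * Λ := by ring
      _ ≤ E := by
          rw [hE]
          have : (0 : ℝ) ≤ c * (1 + K) * A ^ 2 * Λ := by positivity
          nlinarith
  have hlast : B * (K * (2 * A * (c * A ^ 2 * Λ) + 24 * A ^ 3)) * Y ^ (1 - s) ≤ A := by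
    have h1 : Y ^ (1 - s) = (Y ^ (s - 1))⁻¹ := by
      rw [← Real.rpow_neg hY0.le]
      congr 1
      ring
    rw [h1, ← div_eq_mul_inv, div_le_iff₀ (by positivity)]
    calc B * (K * (2 * A * (c * A ^ 2 * Λ) + 24 * A ^ 3))
        = A * (B * (K * (2 * (c * A ^ 2 * Λ) + 24 * A ^ 2))) := by ring
      _ ≤ A * E := by gcongr
      _ ≤ A * Y ^ (s - 1) := by gcongr
  have hAA : A ≤ A ^ 2 * Λ := by
    calc A = A * 1 * 1 := by ring
      _ ≤ A * A * Λ := mul_le_mul (mul_le_mul_of_nonneg_left hA hA0.le) hΛ1 zero_le_one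
          (by positivity)
      _ = A ^ 2 * Λ := by ring
  have h1A : 1 ≤ A ^ 2 * Λ := by linarith
  have hAΛ : A ^ 2 ≤ A ^ 2 * Λ := le_mul_of_one_le_right (by positivity) hΛ1
  have hmid : 8 * A ^ 2 * Real.log Y ≤ A ^ 2 * Λ * (16 + 8 * α * b₀ + 8 * α * Real.log c +
      24 * α) := by
    calc 8 * A ^ 2 * Real.log Y ≤ 8 * A ^ 2 * (2 + α * (b₀ + Real.log c + 3 * Λ)) := by
          gcongr
      _ = A ^ 2 * (16 + 8 * α * b₀ + 8 * α * Real.log c) + A ^ 2 * Λ * (24 * α) := by ring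
      _ ≤ A ^ 2 * Λ * (16 + 8 * α * b₀ + 8 * α * Real.log c) + A ^ 2 * Λ * (24 * α) := by
          gcongr
      _ = _ := by ring
  have h104' : 104 * s / (s - 1) * A ^ 2 ≤ 104 * s / (s - 1) * (A ^ 2 * Λ) := by gcongr
  calc 1 + 4 * A + 8 * A ^ 2 * Real.log Y + 104 * s / (s - 1) * A ^ 2 +
      B * (K * (2 * A * (c * A ^ 2 * Λ) + 24 * A ^ 3)) * Y ^ (1 - s)
      ≤ A ^ 2 * Λ + 4 * (A ^ 2 * Λ) + A ^ 2 * Λ * (16 + 8 * α * b₀ + 8 * α * Real.log c +
      24 * α) + 104 * s / (s - 1) * (A ^ 2 * Λ) + A ^ 2 * Λ := by linarith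
    _ = (A ^ 2 * Λ) * (c₀ + 8 * α * Real.log c) := by rw [hc₀]; ring
    _ ≤ (A ^ 2 * Λ) * c := by gcongr
    _ = c * A ^ 2 * Λ := by ring

end Pool.Agent.W_63dac5_h39b
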