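import Pool.Agent.W_63dac5_h39b.PartA
import Pool.Agent.W_63dac5_h39b.CloseE
import Pool.Agent.W_63dac5_h37A.GoodB
import Pool.Agent.W_63dac5_h37A.CloseC
import Pool.Agent.W_63dac5_h37A.CritB
import Pool.Agent.W_63dac5_h37.Final

/-!
# All components are finite (proofs row 568)
-/

set_option autoImplicit false

namespace Pool.Agent.W_63dac5_h39b

open ENNReal Finset MeasureTheory ProbabilityTheory
open Pool.Agent.W_MP_63dac5_pr Pool.Agent.W_63dac5_h37 Pool.Agent.W_63dac5_h37A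

variable {μ : PMF ℕ}

theorem cw_top (h0 : μ 0 = 0) {A C s : ℝ} (H : ∀ n, Hyp μ A C n) (hA : 1 ≤ A) (hC : 0 ≤ C)
    (hs : 1 < s) (hs2 : s ≤ 2) (hK : Ks μ s ≠ ∞) :
    ∑' e : ℕ × ℕ, cw (nu μ) (e.1 + e.2) = ∞ := by
  classical
  -- a degree of positive probability
  obtain ⟨d, hd⟩ : ∃ d, μ d ≠ 0 := by
    by_contra h
    push Not at h
    have h1 := μ.tsum_coe
    simp only [h, tsum_zero] at h1
    exact zero_ne_one h1
  have hd1 : 1 ≤ d := by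
    rcases Nat.eq_zero_or_pos d with rfl | h
    · exact absurd h0 hd
    · exact h
  have hK1 : Ks μ 1 ≠ ∞ := ne_top_of_le_ne_top hK (Ks_mono μ (by norm_num) hs.le)
  obtain ⟨κ, hκ, hcl⟩ := closing hs hs2
  obtain ⟨ρ, c₀, M, c, hc, h1⟩ := selA h0 H hA hC hK1
    (fun c₀ w => Good s κ c₀ (run [] w))
    (fun I ρ δ hδ => good_bound h0 H hA hC hs hK hκ I ρ hδ)
  obtain ⟨k, hk⟩ := hcl κ hκ le_rfl ρ c₀ d hd1
  set E : List (ℕ × ℕ) → Prop := fun w => Rw w ≤ ρ ∧ Good s κ c₀ (run [] w) with hE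
  have h1' : ∀ N : ℕ, 1 ≤ N → ENNReal.ofReal (c * √(N : ℝ)) ≤ ∑ n ∈ Ico N (4 * N),
      Ex (nu μ) n (fun w => if Tw w ≤ M * (Nat.sqrt N + 1) ∧ E w then 1 else 0) := by
    intro N hN
    refine (h1 N hN).trans (le_of_eq (Finset.sum_congr rfl fun n _ => Ex_congr _ _ fun w _ => ?_))
    by_cases hw : Tw w ≤ M * (Nat.sqrt N + 1) ∧ Rw w ≤ ρ ∧ Good s κ c₀ (run [] w)
    · rw [if_pos hw]
    · rw [if_neg hw]
  obtain ⟨c', hc', h2⟩ := selB (E := E) hc (fun w h => h.1) (fun N hN => by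
    refine (h1' N hN).trans (le_of_eq (Finset.sum_congr rfl fun n _ => Ex_congr _ _ fun w _ => ?_))
    by_cases hw : Tw w ≤ M * (Nat.sqrt N + 1) ∧ E w
    · rw [if_pos hw, if_pos hw]
    · rw [if_neg hw, if_neg hw])
  obtain ⟨c₁, hc₁, h3⟩ := close_cw (μ := μ) (E := E) (k := k) hd1 hd
    (fun w w' h h' hS => hk w w' h.1 h'.1 h.2 h'.2 hS)
  refine tsum_top (K := k + k * d) hc' hc₁ h2 fun n => ?_
  have e : k + k * d + 2 * n = k + (n + (n + k * d)) := by ring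
  rw [e]
  exact h3 n

/-- the criterion, in terms of the number of left stubs -/
theorem cw_top_crit {s : ℝ} (hs : 1 < s) (hs2 : s ≤ 2) : ∃ c : ℝ, 1 ≤ c ∧ ∀ (μ : PMF ℕ), μ 0 = 0 →
    ∀ (K M : ℝ) (h : ℕ), 0 ≤ K → 0 ≤ M → 1 ≤ h → Ks μ s ≤ ENNReal.ofReal K →
      m2 μ h ≤ ENNReal.ofReal M → c * (h * (1 + Real.log (h * (1 + K))) * M) ≤ 1 →
      ∑' e : ℕ × ℕ, cw (nu μ) (e.1 + e.2) = ∞ := by
  obtain ⟨c, hc, hcc⟩ := partA hs
  refine ⟨c, hc, fun μ h0 K M h hK hM hh hKs hm2 hle => ?_⟩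
  obtain ⟨A, C, hA, hC, H⟩ := hcc μ h0 K M h hK hM hh hKs hm2 hle
  exact cw_top h0 H hA (by linarith) hs hs2 (ne_top_of_le_ne_top ENNReal.ofReal_ne_top hKs)

variable {Ω : Type*} [MeasurableSpace Ω] {P : Measure Ω} [IsProbabilityMeasure P]
  {X : ℤ → Ω → ℕ × ℕ}

theorem no_perc (h : ∑' e : ℕ × ℕ, cw (nu μ) (e.1 + e.2) = ∞)
    (hX : ∀ i, Measurable (X i)) (hind : iIndepFun X P)
    (hν : ∀ i a, P (X i ⁻¹' {a}) = nu μ a) :
    ∀ᵐ ω ∂P, ∀ i, {j | (G (fun i => X i ω)).Reachable i j}.Finite := by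
  refine no_percolation_of_tsum hX hind (ident_of_law hX hν) ?_
  rw [eq_top_iff, ← h]
  exact ENNReal.tsum_le_tsum fun e => prob_closed_ge hX hind hν (e.1 + e.2)

end Pool.Agent.W_63dac5_h39b
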