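import Pool.Agent.W_63dac5_h39b.Abel

/-!
# Exits (proofs row 568, B3)
-/

set_option autoImplicit false

namespace Pool.Agent.W_63dac5_h39b

open ENNReal Finset
open Pool.Agent.W_MP_63dac5_pr Pool.Agent.W_63dac5_h37

variable {μ : PMF ℕ} {A C : ℝ}

/-- the mean of `Tw` after one more letter: `Tw (w ++ [a]) + a.1 = a.2 + Tw w + (a.1 - Nw w)` (`Tw_snoc`),
and `m1_eq` -/
lemma step_T (hm : m1 μ ≠ ∞) (w : List (ℕ × ℕ)) :
    ∑' a, nu μ a * (Tw (w ++ [a]) : ℝ≥0∞) = Tw w + lam μ 1 (Nw w) := by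
  have h0 : ∀ a : ℕ × ℕ, (Tw (w ++ [a]) : ℝ≥0∞) + (a.1 : ℝ≥0∞) =
      (a.2 : ℝ≥0∞) + (Tw w : ℝ≥0∞) + ((a.1 - Nw w : ℕ) : ℝ≥0∞) := by
    intro a
    have h1 := Tw_snoc w a
    have h2 : Tw (w ++ [a]) + a.1 = a.2 + Tw w + (a.1 - Nw w) := by omega
    exact_mod_cast h2
  have h1 : (∑' a, nu μ a * (Tw (w ++ [a]) : ℝ≥0∞)) + m1 μ =
      (Tw w + lam μ 1 (Nw w)) + m1 μ := by
    calc (∑' a, nu μ a * (Tw (w ++ [a]) : ℝ≥0∞)) + m1 μ
        = ∑' a, nu μ a * ((Tw (w ++ [a]) : ℝ≥0∞) + (a.1 : ℝ≥0∞)) := by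
          unfold m1
          rw [← ENNReal.tsum_add]
          exact tsum_congr fun a => (mul_add _ _ _).symm
      _ = ∑' a, (nu μ a * (a.2 : ℝ≥0∞) + nu μ a * (Tw w : ℝ≥0∞) +
            nu μ a * ((a.1 - Nw w : ℕ) : ℝ≥0∞)) := by
          refine tsum_congr fun a => ?_
          rw [h0 a, mul_add, mul_add]
      _ = m1 μ + Tw w + lam μ 1 (Nw w) := by
          rw [ENNReal.tsum_add, ENNReal.tsum_add, ← m1_eq, ENNReal.tsum_mul_right, tsum_nu_one,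
            one_mul]
          unfold lam
          simp only [ENNReal.rpow_one]
      _ = (Tw w + lam μ 1 (Nw w)) + m1 μ := by ring
  exact (ENNReal.add_left_inj hm).1 h1

/-- induction on `n`, `step_T`, `Ex_snoc` -/
theorem exit_le (hm : m1 μ ≠ ∞) (n k : ℕ) :
    Ex (nu μ) n (fun w => if Pw w ≤ k then (Tw w : ℝ≥0∞) else 0) +
      ∑ j ∈ range n, Ex (nu μ) j (fun w => ∑' a, nu μ a *
        (if Pw w ≤ k ∧ k < Pw (w ++ [a]) then (Tw (w ++ [a]) : ℝ≥0∞) else 0)) ≤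
      ∑ j ∈ range n, Ex (nu μ) j (fun w => if Pw w ≤ k then lam μ 1 (Nw w) else 0) := by
  have hstep : ∀ n : ℕ,
      Ex (nu μ) (n + 1) (fun w => if Pw w ≤ k then (Tw w : ℝ≥0∞) else 0) +
        Ex (nu μ) n (fun w => ∑' a, nu μ a *
          (if Pw w ≤ k ∧ k < Pw (w ++ [a]) then (Tw (w ++ [a]) : ℝ≥0∞) else 0)) =
      Ex (nu μ) n (fun w => if Pw w ≤ k then (Tw w : ℝ≥0∞) else 0) +
        Ex (nu μ) n (fun w => if Pw w ≤ k then lam μ 1 (Nw w) else 0) := by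
    intro n
    rw [Ex_snoc, ← Ex_add, ← Ex_add]
    refine Ex_congr _ _ fun w _ => ?_
    rw [← ENNReal.tsum_add]
    by_cases hk : Pw w ≤ k
    · rw [if_pos hk, if_pos hk, ← step_T hm w]
      refine tsum_congr fun a => ?_
      rw [← mul_add]
      congr 1
      by_cases h2 : Pw (w ++ [a]) ≤ k
      · rw [if_pos h2, if_neg (fun h => absurd h2 (not_le.2 h.2)), add_zero]
      · rw [if_neg h2, if_pos ⟨hk, not_le.1 h2⟩, zero_add]
    · rw [if_neg hk, if_neg hk, add_zero, ENNReal.tsum_eq_zero]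
      intro a
      have h2 : ¬ Pw (w ++ [a]) ≤ k := by
        intro h
        exact hk (le_trans (Pw_left_le w [a]) h)
      rw [if_neg h2, if_neg (fun h => hk h.1), mul_zero, add_zero]
  induction n with
  | zero =>
    simp only [Ex, range_zero, sum_empty, add_zero]
    have h1 : Tw [] = 0 := rfl
    rw [h1]
    simp
  | succ n ih =>
    rw [sum_range_succ, sum_range_succ]
    calc _ = (Ex (nu μ) (n + 1) (fun w => if Pw w ≤ k then (Tw w : ℝ≥0∞) else 0) +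
          Ex (nu μ) n (fun w => ∑' a, nu μ a *
            (if Pw w ≤ k ∧ k < Pw (w ++ [a]) then (Tw (w ++ [a]) : ℝ≥0∞) else 0))) +
          ∑ j ∈ range n, Ex (nu μ) j (fun w => ∑' a, nu μ a *
            (if Pw w ≤ k ∧ k < Pw (w ++ [a]) then (Tw (w ++ [a]) : ℝ≥0∞) else 0)) := by ring
      _ = (Ex (nu μ) n (fun w => if Pw w ≤ k then (Tw w : ℝ≥0∞) else 0) +
          ∑ j ∈ range n, Ex (nu μ) j (fun w => ∑' a, nu μ a *
            (if Pw w ≤ k ∧ k < Pw (w ++ [a]) then (Tw (w ++ [a]) : ℝ≥0∞) else 0))) +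
          Ex (nu μ) n (fun w => if Pw w ≤ k then lam μ 1 (Nw w) else 0) := by
          rw [hstep n]; ring
      _ ≤ _ := add_le_add ih le_rfl

/-- `exit_le`, `J_lam` -/
theorem ET_le (H : ∀ n, Hyp μ A C n) (hC : 0 ≤ C) (hK : Ks μ 1 ≠ ∞) (n k : ℕ) :
    Ex (nu μ) n (fun w => if Pw w ≤ k then (Tw w : ℝ≥0∞) else 0) ≤
      ENNReal.ofReal (C * (k + 1)) * Ks μ 1 := by
  have hm : m1 μ ≠ ∞ := ne_top_of_le_ne_top hK (m1_le_Ks μ zero_le_one)
  refine le_trans (le_trans le_self_add (exit_le hm n k)) ?_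
  exact J_lam (H n) hC k le_rfl

/-- increments of more than `b` unmet demands -/
noncomputable def ab (μ : PMF ℕ) (I b n : ℕ) : ℝ≥0∞ :=
  ∑ j ∈ range n, Ex (nu μ) j (fun w => ∑' a, nu μ a *
    (if Pw w ≤ I ∧ Nw w + b < a.1 then ((I + 1 + Tw (w ++ [a]) : ℕ) : ℝ≥0∞) else 0))

/-- If `Nw w < a.1` then `Pw (w ++ [a]) = Pw w + 1`, so the `Tw` part is at most the sum over `k ≤ I` of the
exits of `exit_le`; and `1 ≤ a.1 - Nw w` for the part `I + 1`. -/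
theorem ab_zero (H : ∀ n, Hyp μ A C n) (hC : 0 ≤ C) (hK : Ks μ 1 ≠ ∞) (I : ℕ) :
    ∃ B : ℝ, ∀ n, ab μ I 0 n ≤ ENNReal.ofReal B := by
  have hm : m1 μ ≠ ∞ := ne_top_of_le_ne_top hK (m1_le_Ks μ zero_le_one)
  set Bt : ℝ≥0∞ := ((I + 1 : ℕ) : ℝ≥0∞) * (ENNReal.ofReal (C * (I + 1)) * Ks μ 1) +
    ∑ k ∈ range (I + 1), ENNReal.ofReal (C * (k + 1)) * Ks μ 1 with hBt
  have hBt_top : Bt ≠ ∞ := by
    rw [hBt]
    refine ENNReal.add_ne_top.2 ⟨?_, ?_⟩
    · exact ENNReal.mul_ne_top (ENNReal.natCast_ne_top _) (ENNReal.mul_ne_top ENNReal.ofReal_ne_top hK)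
    · exact (ENNReal.sum_ne_top).2 fun k _ => ENNReal.mul_ne_top ENNReal.ofReal_ne_top hK
  refine ⟨Bt.toReal, fun n => ?_⟩
  rw [ENNReal.ofReal_toReal hBt_top]
  have hpt : ∀ w : List (ℕ × ℕ), ∀ a : ℕ × ℕ,
      (if Pw w ≤ I ∧ Nw w + 0 < a.1 then ((I + 1 + Tw (w ++ [a]) : ℕ) : ℝ≥0∞) else 0) ≤
        ((I + 1 : ℕ) : ℝ≥0∞) * (if Pw w ≤ I then ((a.1 - Nw w : ℕ) : ℝ≥0∞) else 0) +
        ∑ k ∈ range (I + 1), (if Pw w ≤ k ∧ k < Pw (w ++ [a]) then (Tw (w ++ [a]) : ℝ≥0∞) else 0) := by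
    intro w a
    by_cases h : Pw w ≤ I ∧ Nw w + 0 < a.1
    · rw [if_pos h, if_pos h.1]
      have h1 : (1 : ℝ≥0∞) ≤ ((a.1 - Nw w : ℕ) : ℝ≥0∞) := by
        have : 1 ≤ a.1 - Nw w := by omega
        exact_mod_cast this
      have h2 : (Tw (w ++ [a]) : ℝ≥0∞) ≤ ∑ k ∈ range (I + 1),
          (if Pw w ≤ k ∧ k < Pw (w ++ [a]) then (Tw (w ++ [a]) : ℝ≥0∞) else 0) := by
        have h3 : (if Pw w ≤ Pw w ∧ Pw w < Pw (w ++ [a]) then (Tw (w ++ [a]) : ℝ≥0∞) else 0) =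
            (Tw (w ++ [a]) : ℝ≥0∞) := by
          refine if_pos ⟨le_rfl, ?_⟩
          rw [Pw_snoc, if_pos (by omega)]
          omega
        have h4 : Pw w ∈ range (I + 1) := by
          rw [mem_range]
          omega
        exact le_trans h3.ge (Finset.single_le_sum (f := fun k =>
          (if Pw w ≤ k ∧ k < Pw (w ++ [a]) then (Tw (w ++ [a]) : ℝ≥0∞) else 0))
          (fun _ _ => bot_le) h4)
      rw [Nat.cast_add (I + 1) (Tw (w ++ [a]))]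
      refine add_le_add ?_ h2
      calc ((I + 1 : ℕ) : ℝ≥0∞) = ((I + 1 : ℕ) : ℝ≥0∞) * 1 := (mul_one _).symm
        _ ≤ ((I + 1 : ℕ) : ℝ≥0∞) * ((a.1 - Nw w : ℕ) : ℝ≥0∞) := mul_le_mul' le_rfl h1
    · rw [if_neg h]
      exact bot_le
  have hsum : ab μ I 0 n ≤
      ((I + 1 : ℕ) : ℝ≥0∞) * ∑ j ∈ range n, Ex (nu μ) j (fun w => if Pw w ≤ I then lam μ 1 (Nw w) else 0) +
      ∑ k ∈ range (I + 1), ∑ j ∈ range n, Ex (nu μ) j (fun w => ∑' a, nu μ a *
        (if Pw w ≤ k ∧ k < Pw (w ++ [a]) then (Tw (w ++ [a]) : ℝ≥0∞) else 0)) := by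
    unfold ab
    rw [sum_comm (s := range (I + 1)), mul_sum, ← sum_add_distrib]
    refine sum_le_sum fun j _ => ?_
    rw [← Ex_mul_left, ← Ex_sum, ← Ex_add]
    refine Ex_mono _ _ fun w _ => ?_
    have h5 : ∑' a, nu μ a * (if Pw w ≤ I ∧ Nw w + 0 < a.1 then ((I + 1 + Tw (w ++ [a]) : ℕ) : ℝ≥0∞)
        else 0) ≤ ∑' a, (nu μ a * (((I + 1 : ℕ) : ℝ≥0∞) *
          (if Pw w ≤ I then ((a.1 - Nw w : ℕ) : ℝ≥0∞) else 0)) +
        ∑ k ∈ range (I + 1), nu μ a *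
          (if Pw w ≤ k ∧ k < Pw (w ++ [a]) then (Tw (w ++ [a]) : ℝ≥0∞) else 0)) := by
      refine ENNReal.tsum_le_tsum fun a => ?_
      rw [← mul_sum, ← mul_add]
      exact mul_le_mul' le_rfl (hpt w a)
    refine le_trans h5 (le_of_eq ?_)
    rw [ENNReal.tsum_add]
    congr 1
    · by_cases hk : Pw w ≤ I
      · rw [if_pos hk]
        simp only [if_pos hk]
        unfold lam
        simp only [ENNReal.rpow_one]
        rw [← ENNReal.tsum_mul_left]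
        exact tsum_congr fun a => by ring
      · rw [if_neg hk]
        simp only [if_neg hk, mul_zero]
        rw [tsum_zero]
    · exact Summable.tsum_finsetSum (fun _ _ => ENNReal.summable)
  refine le_trans hsum (add_le_add (mul_le_mul' le_rfl (J_lam (H n) hC I le_rfl)) ?_)
  refine sum_le_sum fun k _ => ?_
  exact le_trans (le_trans le_add_self (exit_le hm n k)) (J_lam (H n) hC k le_rfl)

/-- `ab μ I b n` is at most the sum over `x > b` of `s x`, where `s x` is the part of the (finite) sum over all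
`j` of the terms of `ab μ I 0` with `a.1 = x`; this tail tends to `0`. -/
theorem ab_small (H : ∀ n, Hyp μ A C n) (hC : 0 ≤ C) (hK : Ks μ 1 ≠ ∞) (I : ℕ) {δ : ℝ} (hδ : 0 < δ) :
    ∃ b : ℕ, ∀ n, ab μ I b n ≤ ENNReal.ofReal δ := by
  obtain ⟨B, hB⟩ := ab_zero H hC hK I
  set t : ℕ → ℕ → ℝ≥0∞ := fun j x => Ex (nu μ) j (fun w => ∑' a, nu μ a *
    (if a.1 = x ∧ Pw w ≤ I ∧ Nw w + 0 < a.1 then ((I + 1 + Tw (w ++ [a]) : ℕ) : ℝ≥0∞) else 0)) with ht
  have hrow : ∀ j, ∑' x, t j x = Ex (nu μ) j (fun w => ∑' a, nu μ a *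
      (if Pw w ≤ I ∧ Nw w + 0 < a.1 then ((I + 1 + Tw (w ++ [a]) : ℕ) : ℝ≥0∞) else 0)) := by
    intro j
    rw [ht]
    simp only
    rw [← Ex_tsum]
    refine Ex_congr _ _ fun w _ => ?_
    rw [ENNReal.tsum_comm]
    refine tsum_congr fun a => ?_
    rw [ENNReal.tsum_mul_left]
    congr 1
    rw [tsum_eq_single a.1]
    · simp only [true_and]
    · intro x hx
      rw [if_neg (fun h => hx h.1.symm)]
  have hfin : ∑' x, ∑' j, t j x ≠ ∞ := by
    rw [ENNReal.tsum_comm]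
    refine ne_top_of_le_ne_top (ENNReal.ofReal_ne_top (r := B)) ?_
    refine ENNReal.tsum_le_of_sum_range_le fun n => ?_
    refine le_trans (le_of_eq ?_) (hB n)
    unfold ab
    exact sum_congr rfl fun j _ => hrow j
  have htend := ENNReal.tendsto_sum_nat_add (fun x => ∑' j, t j x) hfin
  have hδ' : (0 : ℝ≥0∞) < ENNReal.ofReal δ := ENNReal.ofReal_pos.2 hδ
  obtain ⟨b, hb⟩ := ((tendsto_order.1 htend).2 _ hδ').exists
  refine ⟨b, fun n => ?_⟩
  refine le_trans ?_ hb.le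
  calc ab μ I b n ≤ ∑ j ∈ range n, ∑' k, t j (k + b) := by
        unfold ab
        refine sum_le_sum fun j _ => ?_
        rw [ht]
        simp only
        rw [← Ex_tsum]
        refine Ex_mono _ _ fun w _ => ?_
        rw [ENNReal.tsum_comm]
        refine ENNReal.tsum_le_tsum fun a => ?_
        rw [ENNReal.tsum_mul_left]
        refine mul_le_mul' le_rfl ?_
        by_cases h : Pw w ≤ I ∧ Nw w + b < a.1
        · rw [if_pos h]
          refine le_trans (le_of_eq ?_) (ENNReal.le_tsum (a.1 - b))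
          rw [if_pos ⟨by omega, h.1, by omega⟩]
        · rw [if_neg h]
          exact bot_le
    _ ≤ ∑' j, ∑' k, t j (k + b) := ENNReal.sum_le_tsum _
    _ = ∑' k, ∑' j, t j (k + b) := ENNReal.tsum_comm

end Pool.Agent.W_63dac5_h39b
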