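import Pool.Agent.W_63dac5_h39b.Abel

/-!
# One step for `F` (proofs row 568, A1)
-/

set_option autoImplicit false

namespace Pool.Agent.W_63dac5_h39b

open ENNReal Finset
open Pool.Agent.W_MP_63dac5_pr Pool.Agent.W_63dac5_h37

variable {μ : PMF ℕ} {A C : ℝ} {n : ℕ}

/-- `main_ineq`: `(Nat.sqrt n + 1) F ≤ 17 (h (k + 1) + ∑ gk)`, `gk_sum`, and `√n ≤ Nat.sqrt n + 1`. -/
theorem F_step (h0 : μ 0 = 0) (hm : m1 μ ≠ ∞) (H : Hyp μ A C n) (hC : 0 ≤ C) {M : ℝ} (hM : 0 ≤ M)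
    {h : ℕ} (hm2 : m2 μ h ≤ ENNReal.ofReal M) (hA : 17 * (h + C * M) ≤ A) (hn : 1 ≤ n) (k : ℕ) :
    Fp μ n k ≤ ENNReal.ofReal (A * (k + 1) / √(n : ℝ)) := by
  have hk : (0 : ℝ) ≤ (k : ℝ) + 1 := by positivity
  have hnpos : (0 : ℝ) < √(n : ℝ) := Real.sqrt_pos.2 (by exact_mod_cast hn)
  have h1 := main_ineq h0 hm h k n hn
  have h2 : Phi μ h k n ≤ ENNReal.ofReal ((h + C * M) * (k + 1)) := by
    unfold Phi
    calc ((h * (k + 1) : ℕ) : ℝ≥0∞) + ∑ m ∈ range n, gk μ h k m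
        ≤ ENNReal.ofReal (h * (k + 1)) + ENNReal.ofReal (C * (k + 1)) * ENNReal.ofReal M := by
          refine add_le_add (le_of_eq ?_)
            ((gk_sum H hC h k).trans (mul_le_mul' le_rfl hm2))
          rw [← ENNReal.ofReal_natCast]
          push_cast
          rfl
      _ = ENNReal.ofReal ((h + C * M) * (k + 1)) := by
          rw [← ENNReal.ofReal_mul (by positivity), ← ENNReal.ofReal_add (by positivity)
            (by positivity)]
          congr 1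
          ring
  have h3 : ENNReal.ofReal (√(n : ℝ)) ≤ ((Nat.sqrt n + 1 : ℕ) : ℝ≥0∞) := by
    rw [← ENNReal.ofReal_natCast]
    refine ENNReal.ofReal_le_ofReal ?_
    rw [Real.sqrt_le_left (by positivity)]
    have := Nat.lt_succ_sqrt n
    have h4 : n ≤ (Nat.sqrt n + 1) * (Nat.sqrt n + 1) := this.le
    calc (n : ℝ) ≤ (((Nat.sqrt n + 1) * (Nat.sqrt n + 1) : ℕ) : ℝ) := by exact_mod_cast h4
      _ = ((Nat.sqrt n + 1 : ℕ) : ℝ) ^ 2 := by push_cast; ring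
  have h4 : ENNReal.ofReal (√(n : ℝ)) * Fp μ n k ≤ ENNReal.ofReal (A * (k + 1)) := by
    calc ENNReal.ofReal (√(n : ℝ)) * Fp μ n k ≤ ((Nat.sqrt n + 1 : ℕ) : ℝ≥0∞) * Fp μ n k :=
          mul_le_mul' h3 le_rfl
      _ ≤ 17 * Phi μ h k n := h1
      _ ≤ 17 * ENNReal.ofReal ((h + C * M) * (k + 1)) := mul_le_mul' le_rfl h2
      _ = ENNReal.ofReal (17 * ((h + C * M) * (k + 1))) := by
          rw [ENNReal.ofReal_mul (by norm_num : (0 : ℝ) ≤ 17)]
          congr 1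
          exact (ENNReal.ofReal_ofNat 17).symm
      _ ≤ ENNReal.ofReal (A * (k + 1)) := by
          refine ENNReal.ofReal_le_ofReal ?_
          rw [← mul_assoc]
          exact mul_le_mul_of_nonneg_right hA hk
  rw [ENNReal.ofReal_div_of_pos hnpos, ENNReal.le_div_iff_mul_le
    (Or.inl (by simpa using hnpos)) (Or.inl ENNReal.ofReal_ne_top), mul_comm]
  exact h4

end Pool.Agent.W_63dac5_h39b
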