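import Pool.Agent.W_63dac5_h39b.Base

/-!
# Bounds for `J` (proofs row 568, A2, A3, A4a)
-/

set_option autoImplicit false

namespace Pool.Agent.W_63dac5_h39b

open ENNReal Finset
open Pool.Agent.W_MP_63dac5_pr Pool.Agent.W_63dac5_h37

variable {μ : PMF ℕ}

lemma J_le_left (n k i : ℕ) : J μ n k i ≤ Fp μ n k := by
  unfold J Fp
  refine Ex_mono _ _ fun w _ => ?_
  by_cases h : Pw w ≤ k
  · rw [if_pos h]
    split_ifs <;> simp
  · rw [if_neg h, if_neg (fun h' => h h'.1)]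

/-- `Ex_mir` -/
lemma J_symm (n k i : ℕ) : J μ n k i = J μ n i k := by
  unfold J
  rw [← Ex_mir (nu_swap μ)]
  refine Ex_congr _ _ fun w _ => ?_
  have h1 : Pw (mir w) = Nw w := (Nw_eq w).symm
  have h2 : Nw (mir w) = Pw w := (Pw_eq w).symm
  rw [h1, h2]
  exact if_congr and_comm rfl rfl

lemma J_le_one (n k i : ℕ) : J μ n k i ≤ 1 := by
  unfold J
  calc Ex (nu μ) n (fun w => if Pw w ≤ k ∧ Nw w ≤ i then 1 else 0)
      ≤ Ex (nu μ) n (fun _ => 1) := by
        refine Ex_mono _ _ fun w _ => ?_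
        split_ifs <;> simp
    _ = 1 := Ex_one _ (tsum_nu_one μ) n

/-- `Pw` of the first `a` letters, `Nw` of the last `b` letters: `Ex_append_mul`, `Pw_left_le`,
`Nw_right_le` -/
lemma J_split (a b k i : ℕ) : J μ (a + b) k i ≤ Fp μ a k * Fp μ b i := by
  rw [← Fp_eq_Nw μ b i]
  unfold J Fp
  rw [← Ex_append_mul]
  refine Ex_mono _ _ fun w _ => ?_
  by_cases h : Pw w ≤ k ∧ Nw w ≤ i
  · have h1 : Pw (w.take a) ≤ k := by
      refine le_trans ?_ h.1
      conv_rhs => rw [← List.take_append_drop a w]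
      exact Pw_left_le _ _
    have h2 : Nw (w.drop a) ≤ i := by
      refine le_trans ?_ h.2
      conv_rhs => rw [← List.take_append_drop a w]
      exact Nw_right_le _ _
    rw [if_pos h, if_pos h1, if_pos h2, one_mul]
  · rw [if_neg h]; exact bot_le

private lemma JA_comm {α : Type*} (ν : α → ℝ≥0∞) (m n : ℕ) (f : List α → List α → ℝ≥0∞) :
    Ex ν m (fun u => Ex ν n (fun v => f u v)) = Ex ν n (fun v => Ex ν m (fun u => f u v)) := by
  induction m generalizing f with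
  | zero => rfl
  | succ m ih =>
    simp only [Ex]
    rw [Ex_tsum]
    refine tsum_congr fun a => ?_
    rw [ih, Ex_mul_left]

/-- For a word `u ++ (v ++ w)` of this kind `|Sw v + Sw u + Sw w| ≤ y` (`Sw_eq`), and `conc` for `v`. -/
theorem J_mid (h0 : μ 0 = 0) (a b c k i y : ℕ) (hb : 1 ≤ b) :
    Ex (nu μ) (a + (b + c)) (fun w =>
      if Pw w ≤ k ∧ Nw w ≤ i ∧ Rw w ≤ y ∧ Tw w ≤ y then 1 else 0) ≤
      Fp μ a k * Fp μ c i * ENNReal.ofReal ((2 * y + 1) / √(b : ℝ)) := by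
  rw [Ex_append]
  have key : ∀ w1 w2 w3 : List (ℕ × ℕ),
      (if Pw (w1 ++ (w2 ++ w3)) ≤ k ∧ Nw (w1 ++ (w2 ++ w3)) ≤ i ∧ Rw (w1 ++ (w2 ++ w3)) ≤ y ∧
        Tw (w1 ++ (w2 ++ w3)) ≤ y then (1 : ℝ≥0∞) else 0) ≤
      (if Pw w1 ≤ k then 1 else 0) * ∑ s ∈ range (2 * y + 1), ((if Nw w3 ≤ i then 1 else 0) *
        (if Sw w2 = (s : ℤ) - y - Sw w1 - Sw w3 then 1 else 0)) := by
    intro w1 w2 w3
    by_cases h : Pw (w1 ++ (w2 ++ w3)) ≤ k ∧ Nw (w1 ++ (w2 ++ w3)) ≤ i ∧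
        Rw (w1 ++ (w2 ++ w3)) ≤ y ∧ Tw (w1 ++ (w2 ++ w3)) ≤ y
    · obtain ⟨h1, h2, h3, h4⟩ := h
      have h5 : Pw w1 ≤ k := (Pw_left_le w1 (w2 ++ w3)).trans h1
      have h6 : Nw w3 ≤ i := by
        have h7 := Nw_right_le (w1 ++ w2) w3
        rw [List.append_assoc] at h7
        omega
      have h10 : Sw (w1 ++ (w2 ++ w3)) = Sw w1 + (Sw w2 + Sw w3) := by
        rw [Sw_append, Sw_append]
      have h11 := Sw_eq (w1 ++ (w2 ++ w3))
      obtain ⟨s, hs⟩ : ∃ s : ℕ, (s : ℤ) = Sw w1 + (Sw w2 + Sw w3) + y := by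
        refine ⟨(Sw w1 + (Sw w2 + Sw w3) + y).toNat, ?_⟩
        rw [Int.toNat_of_nonneg]
        omega
      rw [if_pos ⟨h1, h2, h3, h4⟩, if_pos h5, one_mul]
      refine le_trans ?_ (Finset.single_le_sum (f := fun s : ℕ =>
        ((if Nw w3 ≤ i then (1 : ℝ≥0∞) else 0) *
        (if Sw w2 = (s : ℤ) - y - Sw w1 - Sw w3 then 1 else 0))) (fun _ _ => bot_le)
        (Finset.mem_range.2 (show s < 2 * y + 1 by omega)))
      rw [if_pos h6, if_pos (by omega), one_mul]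
    · rw [if_neg h]; exact bot_le
  have hfin : ((2 * y + 1 : ℕ) : ℝ≥0∞) * ENNReal.ofReal (1 / Real.sqrt b) =
      ENNReal.ofReal ((2 * y + 1) / √(b : ℝ)) := by
    rw [← ENNReal.ofReal_natCast, ← ENNReal.ofReal_mul (by positivity)]
    congr 1
    push_cast
    ring
  calc Ex (nu μ) a (fun w1 => Ex (nu μ) (b + c) (fun v =>
        if Pw (w1 ++ v) ≤ k ∧ Nw (w1 ++ v) ≤ i ∧ Rw (w1 ++ v) ≤ y ∧ Tw (w1 ++ v) ≤ y
        then 1 else 0))
      ≤ Ex (nu μ) a (fun w1 => (if Pw w1 ≤ k then 1 else 0) *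
          (((2 * y + 1 : ℕ) : ℝ≥0∞) * (Fp μ c i * ENNReal.ofReal (1 / Real.sqrt b)))) := by
        refine Ex_mono _ _ fun w1 _ => ?_
        rw [Ex_append]
        calc Ex (nu μ) b (fun w2 => Ex (nu μ) c (fun w3 =>
              if Pw (w1 ++ (w2 ++ w3)) ≤ k ∧ Nw (w1 ++ (w2 ++ w3)) ≤ i ∧
                Rw (w1 ++ (w2 ++ w3)) ≤ y ∧ Tw (w1 ++ (w2 ++ w3)) ≤ y then 1 else 0))
            ≤ Ex (nu μ) b (fun w2 => Ex (nu μ) c (fun w3 =>
                (if Pw w1 ≤ k then 1 else 0) * ∑ s ∈ range (2 * y + 1),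
                  ((if Nw w3 ≤ i then 1 else 0) *
                  (if Sw w2 = (s : ℤ) - y - Sw w1 - Sw w3 then 1 else 0)))) :=
              Ex_mono _ _ fun w2 _ => Ex_mono _ _ fun w3 _ => key w1 w2 w3
          _ = (if Pw w1 ≤ k then 1 else 0) * ∑ s ∈ range (2 * y + 1), Ex (nu μ) c (fun w3 =>
                (if Nw w3 ≤ i then 1 else 0) * Ex (nu μ) b (fun w2 =>
                  if Sw w2 = (s : ℤ) - y - Sw w1 - Sw w3 then 1 else 0)) := by
              simp only [Ex_mul_left, Ex_sum]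
              congr 1
              refine Finset.sum_congr rfl fun s _ => ?_
              rw [JA_comm]
              refine Ex_congr _ _ fun w3 _ => ?_
              rw [Ex_mul_left]
          _ ≤ (if Pw w1 ≤ k then 1 else 0) * ∑ s ∈ range (2 * y + 1), Ex (nu μ) c (fun w3 =>
                (if Nw w3 ≤ i then 1 else 0) * ENNReal.ofReal (1 / Real.sqrt b)) := by
              gcongr with s hs
              refine Ex_mono _ _ fun w3 _ => ?_
              gcongr
              exact conc μ h0 hb _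
          _ = _ := by
              congr 1
              simp only [Ex_mul_right]
              rw [Finset.sum_const, Finset.card_range, nsmul_eq_mul]
              congr 2
              rw [Fp_eq_Nw]
    _ = _ := by
        rw [Ex_mul_right, ← hfin]
        unfold Fp
        ring

end Pool.Agent.W_63dac5_h39b
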