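import Pool.Agent.W_63dac5_h39b.Base

/-!
# The unmet demands (proofs row 568, A4b)
-/

set_option autoImplicit false

namespace Pool.Agent.W_63dac5_h39b

open ENNReal Finset
open Pool.Agent.W_MP_63dac5_pr Pool.Agent.W_63dac5_h37

variable {μ : PMF ℕ}

private lemma JB_filter (l : List ℕ) :
    nz l = (l.filter (fun x => decide (x ≠ 0))).length ∧
      l.sum = (l.filter (fun x => decide (x ≠ 0))).sum := by
  induction l with
  | nil => simp [nz]
  | cons a t ih =>
    cases a with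
    | zero => simpa [nz] using ih
    | succ a =>
      obtain ⟨h1, h2⟩ := ih
      constructor
      · simp [nz, h1]
      · simp only [List.sum_cons]
        rw [List.filter_cons_of_pos (by simp), List.sum_cons, ← h2]

private lemma JB_filter_pow {s : ℝ} (hs : 0 < s) (l : List ℕ) :
    (l.map (fun x : ℕ => (x : ℝ≥0∞) ^ s)).sum =
      ((l.filter (fun x => decide (x ≠ 0))).map (fun x : ℕ => (x : ℝ≥0∞) ^ s)).sum := by
  induction l with
  | nil => simp
  | cons a t ih =>
    cases a with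
    | zero =>
      rw [List.filter_cons_of_neg (by simp), List.map_cons, List.sum_cons, ih, Nat.cast_zero,
        ENNReal.zero_rpow_of_pos hs, zero_add]
    | succ a =>
      rw [List.filter_cons_of_pos (by simp), List.map_cons, List.sum_cons, List.map_cons,
        List.sum_cons, ih]

/-- Power mean, for the `nz l` nonzero entries of a list `l`. -/
lemma sum_pow_le_list {s : ℝ} (hs : 1 ≤ s) (l : List ℕ) :
    (l.sum : ℝ≥0∞) ^ s ≤ (nz l : ℝ≥0∞) ^ (s - 1) * (l.map (fun x : ℕ => (x : ℝ≥0∞) ^ s)).sum := by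
  obtain ⟨h1, h2⟩ := JB_filter l
  rw [h1, h2, JB_filter_pow (by linarith) l]
  generalize l.filter (fun x => decide (x ≠ 0)) = m
  have h3 := ENNReal.rpow_sum_le_const_mul_sum_rpow (s := (Finset.univ : Finset (Fin m.length)))
    (f := fun i => ((m.get i : ℕ) : ℝ≥0∞)) hs
  have e1 : ∑ i : Fin m.length, ((m.get i : ℕ) : ℝ≥0∞) = (m.sum : ℝ≥0∞) := by
    rw [← Nat.cast_sum]
    congr 1
    exact Fin.sum_univ_getElem m
  have e2 : ∑ i : Fin m.length, ((m.get i : ℕ) : ℝ≥0∞) ^ s =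
      (m.map (fun x : ℕ => (x : ℝ≥0∞) ^ s)).sum := by
    exact Fin.sum_univ_fun_getElem m (fun x : ℕ => (x : ℝ≥0∞) ^ s)
  rw [e1, e2, Finset.card_univ, Fintype.card_fin] at h3
  exact h3

/-- Markov with `sum_pow_le_list` -/
theorem J_err {s : ℝ} (hs : 1 ≤ s) (n k i y : ℕ) :
    Ex (nu μ) n (fun w => if Pw w ≤ k ∧ Nw w ≤ i ∧ y < Rw w then 1 else 0) ≤
      ENNReal.ofReal (((y : ℝ) + 1) ^ (-s) * (k : ℝ) ^ (s - 1)) *
        Ex (nu μ) n (fun w => if Pw w ≤ k ∧ Nw w ≤ i then Rs s w else 0) := by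
  rw [← Ex_mul_left]
  refine Ex_mono _ _ ?_
  intro w _
  by_cases hc : Pw w ≤ k ∧ Nw w ≤ i ∧ y < Rw w
  · obtain ⟨h1, h2, h3⟩ := hc
    rw [if_pos ⟨h1, h2, h3⟩, if_pos ⟨h1, h2⟩]
    have hy : (0 : ℝ) < (y : ℝ) + 1 := by positivity
    have e1 : ENNReal.ofReal (((y : ℝ) + 1) ^ (-s) * (k : ℝ) ^ (s - 1)) =
        ((y + 1 : ℕ) : ℝ≥0∞) ^ (-s) * (k : ℝ≥0∞) ^ (s - 1) := by
      rw [ENNReal.ofReal_mul (by positivity), ← ENNReal.ofReal_rpow_of_pos hy,
        ← ENNReal.ofReal_rpow_of_nonneg (Nat.cast_nonneg k) (by linarith), ENNReal.ofReal_natCast]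
      congr 2
      rw [show ((y : ℝ) + 1) = ((y + 1 : ℕ) : ℝ) by push_cast; rfl, ENNReal.ofReal_natCast]
    rw [e1]
    have h4 : ((y + 1 : ℕ) : ℝ≥0∞) ^ s ≤ (k : ℝ≥0∞) ^ (s - 1) * Rs s w := by
      calc ((y + 1 : ℕ) : ℝ≥0∞) ^ s ≤ ((Rw w : ℕ) : ℝ≥0∞) ^ s := by
            refine ENNReal.rpow_le_rpow ?_ (by linarith)
            exact_mod_cast h3
        _ ≤ (nz (need [] w) : ℝ≥0∞) ^ (s - 1) * Rs s w := by
            have := sum_pow_le_list hs (need [] w)
            unfold Rs Rw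
            exact this
        _ ≤ _ := by
            refine mul_le_mul' (ENNReal.rpow_le_rpow ?_ (by linarith)) le_rfl
            exact_mod_cast h1
    have h5 : ((y + 1 : ℕ) : ℝ≥0∞) ^ (-s) * ((y + 1 : ℕ) : ℝ≥0∞) ^ s = 1 := by
      rw [← ENNReal.rpow_add _ _ (by simp) (ENNReal.natCast_ne_top _)]
      simp
    calc (1 : ℝ≥0∞) = ((y + 1 : ℕ) : ℝ≥0∞) ^ (-s) * ((y + 1 : ℕ) : ℝ≥0∞) ^ s := h5.symm
      _ ≤ ((y + 1 : ℕ) : ℝ≥0∞) ^ (-s) * ((k : ℝ≥0∞) ^ (s - 1) * Rs s w) :=
          mul_le_mul' le_rfl h4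
      _ = _ := by rw [mul_assoc]
  · rw [if_neg hc]
    exact bot_le

private lemma JB_Rs {s : ℝ} (w : List (ℕ × ℕ)) :
    Rs s w = ∑ j ∈ range w.length,
      (((w.getD j (0, 0)).1 - Nw (w.take j) : ℕ) : ℝ≥0∞) ^ s := by
  induction w using List.reverseRecOn with
  | nil => simp [Rs, need]
  | append_singleton w a ih =>
    have h1 : Rs s (w ++ [a]) = Rs s w + ((a.1 - Nw w : ℕ) : ℝ≥0∞) ^ s := by
      unfold Rs Nw
      rw [need_snoc, List.map_append, List.sum_append]
      simp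
    rw [h1, ih, List.length_append, List.length_singleton, Finset.sum_range_succ]
    congr 1
    · refine Finset.sum_congr rfl fun j hj => ?_
      have hj' := Finset.mem_range.1 hj
      rw [List.take_append_of_le_length hj'.le]
      congr 3
      rw [List.getD_append _ _ _ _ hj']
    · congr 2
      rw [List.take_left]
      congr 1
      simp [List.getD_eq_getElem?_getD]

/-- The unmet demand of the letter `j + 1` is `a.1 - Nw u`, where `u` is the word before it
(`need_append`); `Ex_split`, `Pw_left_le`, `Nw_right_le`. -/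
theorem Rs_sum {s : ℝ} (hs : 0 < s) (n k i : ℕ) :
    Ex (nu μ) n (fun w => if Pw w ≤ k ∧ Nw w ≤ i then Rs s w else 0) ≤
      ∑ j ∈ range n, Ex (nu μ) j (fun w => if Pw w ≤ k then lam μ s (Nw w) else 0) *
        Fp μ (n - 1 - j) i := by
  let ψ : List (ℕ × ℕ) → (ℕ × ℕ) → List (ℕ × ℕ) → ℝ≥0∞ := fun u a v =>
    (if Pw u ≤ k then ((a.1 - Nw u : ℕ) : ℝ≥0∞) ^ s else 0) * (if Nw v ≤ i then 1 else 0)
  have h1 : Ex (nu μ) n (fun w => if Pw w ≤ k ∧ Nw w ≤ i then Rs s w else 0) ≤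
      Ex (nu μ) n (fun w => ∑ j ∈ range n, ψ (w.take j) (w.getD j (0, 0)) (w.drop (j + 1))) := by
    refine Ex_mono _ _ ?_
    intro w hw
    by_cases hc : Pw w ≤ k ∧ Nw w ≤ i
    · rw [if_pos hc, JB_Rs, hw]
      refine Finset.sum_le_sum fun j hj => ?_
      have h2 : Pw (w.take j) ≤ k := by
        have := Pw_left_le (w.take j) (w.drop j)
        rw [List.take_append_drop] at this
        exact this.trans hc.1
      have h3 : Nw (w.drop (j + 1)) ≤ i := by
        have := Nw_right_le (w.take (j + 1)) (w.drop (j + 1))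
        rw [List.take_append_drop] at this
        exact this.trans hc.2
      simp only [ψ]
      rw [if_pos h2, if_pos h3, mul_one]
    · rw [if_neg hc]
      exact bot_le
  refine h1.trans ?_
  rw [Ex_split]
  refine Finset.sum_le_sum fun j _ => ?_
  rw [← Fp_eq_Nw, ← Ex_mul_right]
  refine Ex_mono _ _ ?_
  intro u _
  simp only [ψ]
  simp only [Ex_mul_left]
  by_cases hc : Pw u ≤ k
  · simp only [if_pos hc]
    unfold lam
    rw [← ENNReal.tsum_mul_right]
    refine ENNReal.tsum_le_tsum fun a => ?_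
    rw [mul_assoc]
  · simp only [if_neg hc]
    simp

private lemma JB_lam_anti {s : ℝ} (hs : 0 < s) {x y : ℕ} (h : x ≤ y) : lam μ s y ≤ lam μ s x := by
  unfold lam
  refine ENNReal.tsum_le_tsum fun a => ?_
  refine mul_le_mul' le_rfl (ENNReal.rpow_le_rpow ?_ hs.le)
  have : a.1 - y ≤ a.1 - x := by omega
  exact_mod_cast this

/-- `Pw` of the first `a` letters, `Nw` of the last `l` letters, `lam` is antitone -/
theorem late {s : ℝ} (hs : 0 < s) (a l k : ℕ) :
    Ex (nu μ) (a + l) (fun w => if Pw w ≤ k then lam μ s (Nw w) else 0) ≤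
      Fp μ a k * Ex (nu μ) l (fun w => lam μ s (Nw w)) := by
  unfold Fp
  rw [← Ex_append_mul]
  refine Ex_mono _ _ ?_
  intro w _
  by_cases hc : Pw w ≤ k
  · have h2 : Pw (w.take a) ≤ k := by
      have := Pw_left_le (w.take a) (w.drop a)
      rw [List.take_append_drop] at this
      exact this.trans hc
    have h3 : Nw (w.drop a) ≤ Nw w := by
      have := Nw_right_le (w.take a) (w.drop a)
      rw [List.take_append_drop] at this
      exact this
    rw [if_pos hc, if_pos h2, one_mul]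
    exact JB_lam_anti hs h3
  · rw [if_neg hc]
    exact bot_le

end Pool.Agent.W_63dac5_h39b
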