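import Pool.Agent.W_63dac5_h39b.Abel
import Pool.Agent.W_63dac5_h39b.JB

/-!
# The `s`-th moment of the unmet demands (proofs row 568, A4b)
-/

set_option autoImplicit false

namespace Pool.Agent.W_63dac5_h39b

open ENNReal Finset
open Pool.Agent.W_MP_63dac5_pr Pool.Agent.W_63dac5_h37

variable {μ : PMF ℕ} {A C K s : ℝ} {n : ℕ}

private lemma jc_first (H : Hyp μ A C n) (hA : 1 ≤ A) (hC : 0 ≤ C) (hK : 0 ≤ K) (hs : 1 ≤ s)
    (hKs : Ks μ s ≤ ENNReal.ofReal K) (hn : 5 ≤ n) (k i : ℕ) :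
    ∑ j ∈ range (n / 2), Ex (nu μ) j (fun w => if Pw w ≤ k then lam μ s (Nw w) else 0) *
        Fp μ (n - 1 - j) i ≤
      ENNReal.ofReal (((k : ℝ) + 1) * (i + 1) * (K * (2 * A * C) / √(n : ℝ))) := by
  have hn0 : (0 : ℝ) < n := by
    have : (0 : ℕ) < n := by omega
    exact_mod_cast this
  have hsn : 0 < √(n : ℝ) := Real.sqrt_pos.2 hn0
  have h1 : ∀ j ∈ range (n / 2), Ex (nu μ) j (fun w => if Pw w ≤ k then lam μ s (Nw w) else 0) *
      Fp μ (n - 1 - j) i ≤ ENNReal.ofReal (2 * A * (i + 1) / √(n : ℝ)) *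
      Ex (nu μ) j (fun w => if Pw w ≤ k then lam μ s (Nw w) else 0) := by
    intro j hj
    have hj := Finset.mem_range.1 hj
    rw [mul_comm]
    refine mul_le_mul' ((H.F (n - 1 - j) (by omega) (by omega) i).trans ?_) le_rfl
    refine ENNReal.ofReal_le_ofReal ?_
    have h2 : (n : ℝ) / 4 ≤ ((n - 1 - j : ℕ) : ℝ) := by
      have : n ≤ 4 * (n - 1 - j) := by omega
      have : (n : ℝ) ≤ 4 * ((n - 1 - j : ℕ) : ℝ) := by exact_mod_cast this
      linarith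
    have h3 : √(n : ℝ) / 2 ≤ √((n - 1 - j : ℕ) : ℝ) := by
      have h4 : √(n : ℝ) / 2 = √((n : ℝ) / 4) := by
        rw [Real.sqrt_div hn0.le]
        congr 1
        rw [show (4 : ℝ) = 2 ^ 2 by norm_num]
        simp
      rw [h4]
      exact Real.sqrt_le_sqrt h2
    have h5 : 0 ≤ A * ((i : ℝ) + 1) := by positivity
    calc A * ((i : ℝ) + 1) / √((n - 1 - j : ℕ) : ℝ) ≤ A * ((i : ℝ) + 1) / (√(n : ℝ) / 2) := by
          gcongr
      _ = 2 * A * (i + 1) / √(n : ℝ) := by field_simp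
  refine (Finset.sum_le_sum h1).trans ?_
  rw [← Finset.mul_sum]
  have h2 : ∑ j ∈ range (n / 2), Ex (nu μ) j (fun w => if Pw w ≤ k then lam μ s (Nw w) else 0) ≤
      ENNReal.ofReal (C * (k + 1) * K) := by
    refine (Finset.sum_le_sum_of_subset
      (Finset.range_mono (Nat.div_le_self n 2))).trans ((J_lam H hC k hs).trans ?_)
    rw [ENNReal.ofReal_mul (p := C * ((k : ℝ) + 1)) (by positivity)]
    exact mul_le_mul' le_rfl hKs
  refine (mul_le_mul' le_rfl h2).trans ?_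
  rw [← ENNReal.ofReal_mul (by positivity)]
  refine ENNReal.ofReal_le_ofReal (le_of_eq ?_)
  field_simp

private lemma jc_second (H : Hyp μ A C n) (hA : 1 ≤ A) (hK : 0 ≤ K) (hs : 1 ≤ s)
    (hKs : Ks μ s ≤ ENNReal.ofReal K) (hn : 5 ≤ n) (k i : ℕ) :
    ∑ j ∈ Ico (n / 2) n, Ex (nu μ) j (fun w => if Pw w ≤ k then lam μ s (Nw w) else 0) *
        Fp μ (n - 1 - j) i ≤
      ENNReal.ofReal (((k : ℝ) + 1) * (i + 1) * (K * (24 * A ^ 3) / √(n : ℝ))) := by
  have hn0 : (0 : ℝ) < n := by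
    have : (0 : ℕ) < n := by omega
    exact_mod_cast this
  have hA0 : 0 ≤ A := by linarith
  have hsn : 0 < √(n : ℝ) := Real.sqrt_pos.2 hn0
  have h1 : ∀ j ∈ Ico (n / 2) n, Ex (nu μ) j (fun w => if Pw w ≤ k then lam μ s (Nw w) else 0) *
      Fp μ (n - 1 - j) i ≤ ENNReal.ofReal (6 * A ^ 2 * (k + 1) / n * K) * Fp μ (n - 1 - j) i := by
    intro j hj
    obtain ⟨hj1, hj2⟩ := Finset.mem_Ico.1 hj
    refine mul_le_mul' ?_ le_rfl
    obtain ⟨l, rfl⟩ : ∃ l, j = n / 4 + l := ⟨j - n / 4, by omega⟩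
    refine (late (by linarith) (n / 4) l k).trans ?_
    refine (mul_le_mul' (H.F (n / 4) (by omega) (by omega) k)
      ((F_lam H hA0 (l := l) (by omega) (by omega) hs).trans
        (mul_le_mul' le_rfl hKs))).trans ?_
    rw [← ENNReal.ofReal_mul (by positivity), ← ENNReal.ofReal_mul (by positivity)]
    refine ENNReal.ofReal_le_ofReal ?_
    have ha : (n : ℝ) / 7 ≤ ((n / 4 : ℕ) : ℝ) := by
      have : n ≤ 7 * (n / 4) := by omega
      have : (n : ℝ) ≤ 7 * ((n / 4 : ℕ) : ℝ) := by exact_mod_cast this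
      linarith
    have hl : (n : ℝ) / 5 ≤ (l : ℝ) := by
      have : n ≤ 5 * l := by omega
      have : (n : ℝ) ≤ 5 * (l : ℝ) := by exact_mod_cast this
      linarith
    have h3 : (n : ℝ) / 6 ≤ √((n / 4 : ℕ) : ℝ) * √(l : ℝ) := by
      rw [← Real.sqrt_mul (by positivity)]
      refine Real.le_sqrt_of_sq_le ?_
      have h4 : (n : ℝ) / 7 * (n / 5) ≤ ((n / 4 : ℕ) : ℝ) * l :=
        mul_le_mul ha hl (by positivity) (by positivity)
      nlinarith
    calc A * ((k : ℝ) + 1) / √((n / 4 : ℕ) : ℝ) * (A / √(l : ℝ) * K)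
        = A ^ 2 * ((k : ℝ) + 1) * K / (√((n / 4 : ℕ) : ℝ) * √(l : ℝ)) := by
          rw [div_mul_eq_mul_div, mul_comm (A / √(l : ℝ)) K, mul_div_assoc', mul_div_assoc',
            div_div]
          ring
      _ ≤ A ^ 2 * ((k : ℝ) + 1) * K / ((n : ℝ) / 6) := by gcongr
      _ = 6 * A ^ 2 * (k + 1) / n * K := by field_simp
  refine (Finset.sum_le_sum h1).trans ?_
  rw [← Finset.mul_sum]
  have h2 : ∑ j ∈ Ico (n / 2) n, Fp μ (n - 1 - j) i ≤
      ENNReal.ofReal (3 * A * (i + 1) * √(n : ℝ)) := by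
    refine le_trans ?_ (sum_Fp_le H hA (by omega) i)
    calc ∑ j ∈ Ico (n / 2) n, Fp μ (n - 1 - j) i ≤ ∑ j ∈ range n, Fp μ (n - 1 - j) i := by
          refine Finset.sum_le_sum_of_subset ?_
          intro j hj
          exact Finset.mem_range.2 (Finset.mem_Ico.1 hj).2
      _ = ∑ j ∈ range n, Fp μ j i := Finset.sum_range_reflect (fun j => Fp μ j i) n
  refine (mul_le_mul' le_rfl h2).trans ?_
  rw [← ENNReal.ofReal_mul (by positivity)]
  refine ENNReal.ofReal_le_ofReal ?_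
  have h5 : √(n : ℝ) / n = 1 / √(n : ℝ) := by
    rw [div_eq_div_iff hn0.ne' hsn.ne', Real.mul_self_sqrt hn0.le, one_mul]
  calc 6 * A ^ 2 * ((k : ℝ) + 1) / n * K * (3 * A * (i + 1) * √(n : ℝ))
      = ((k : ℝ) + 1) * (i + 1) * K * (18 * A ^ 3) * (√(n : ℝ) / n) := by ring
    _ = ((k : ℝ) + 1) * (i + 1) * (K * (18 * A ^ 3) / √(n : ℝ)) := by rw [h5]; ring
    _ ≤ ((k : ℝ) + 1) * (i + 1) * (K * (24 * A ^ 3) / √(n : ℝ)) := by
      have : 0 ≤ A ^ 3 := by positivity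
      gcongr
      norm_num

/-- `Rs_sum`.  For `j < n / 2` the factor `F (n - 1 - j)` is at most `A (i + 1) √2 / √n`, and the sum of the
other factors is at most `C (k + 1) K` (`J_lam`).  For `j ≥ n / 2` use `late` with `a = n / 4 ≥ n/7` and
`l = j - a ≥ n/5` (natural division in `n / 2`, `n / 4`; check `5 ≤ n < 10` by hand), `F_lam`, so the
first factor is at most `6 A ^ 2 (k + 1) K / n`, and `∑ F (n - 1 - j) ≤ 3 A (i + 1) √n` (`sum_Fp_le`). -/
theorem Rs_bound (H : Hyp μ A C n) (hA : 1 ≤ A) (hC : 0 ≤ C) (hK : 0 ≤ K) (hs : 1 ≤ s)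
    (hKs : Ks μ s ≤ ENNReal.ofReal K) (hn : 5 ≤ n) (k i : ℕ) :
    Ex (nu μ) n (fun w => if Pw w ≤ k ∧ Nw w ≤ i then Rs s w else 0) ≤
      ENNReal.ofReal (((k : ℝ) + 1) * (i + 1) * (K * (2 * A * C + 24 * A ^ 3) / √(n : ℝ))) := by
  refine (Rs_sum (by linarith) n k i).trans ?_
  have hsn : 0 ≤ √(n : ℝ) := Real.sqrt_nonneg _
  have hA0 : 0 ≤ A := by linarith
  rw [Finset.range_eq_Ico, ← Finset.sum_Ico_consecutive _ (Nat.zero_le (n / 2))
    (Nat.div_le_self n 2), ← Finset.range_eq_Ico]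
  refine (add_le_add (jc_first H hA hC hK hs hKs hn k i)
    (jc_second H hA hK hs hKs hn k i)).trans ?_
  rw [← ENNReal.ofReal_add (by positivity) (by positivity)]
  refine ENNReal.ofReal_le_ofReal (le_of_eq ?_)
  ring

end Pool.Agent.W_63dac5_h39b
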