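import Pool.Agent.W_63dac5_h39b.JC
import Pool.Agent.W_63dac5_h39b.JA

/-!
# The joint bound for long words (proofs row 568, A4)
-/

set_option autoImplicit false

namespace Pool.Agent.W_63dac5_h39b

open ENNReal Finset
open Pool.Agent.W_MP_63dac5_pr Pool.Agent.W_63dac5_h37

variable {μ : PMF ℕ} {A C K s : ℝ} {n : ℕ}

/-- the threshold for the number of unused stubs; `M = (Y q) ^ 2` -/
noncomputable def yy (s M t : ℝ) : ℝ := √t * (M / t) ^ ((s - 1) / (4 * s))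

/-- `1 ≤ yy` for `1 ≤ M ≤ t` -/
lemma one_le_yy (hs : 1 < s) {M t : ℝ} (hM : 1 ≤ M) (ht : M ≤ t) : 1 ≤ yy s M t := by
  have h0 : (0 : ℝ) < M := lt_of_lt_of_le one_pos hM
  have h1 : 0 < t := lt_of_lt_of_le h0 ht
  have h2 : M / t ≤ 1 := (div_le_one h1).2 ht
  have h3 : (s - 1) / (4 * s) ≤ 1 / 2 := by
    rw [div_le_div_iff₀ (by linarith) (by norm_num)]
    linarith
  have h4 : (M / t) ^ (1 / 2 : ℝ) ≤ (M / t) ^ ((s - 1) / (4 * s)) :=
    Real.rpow_le_rpow_of_exponent_ge (div_pos h0 h1) h2 h3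
  rw [← Real.sqrt_eq_rpow] at h4
  have h5 : √t * √(M / t) = √M := by
    rw [← Real.sqrt_mul h1.le]
    congr 1
    field_simp
  have h6 : 1 ≤ √M := Real.one_le_sqrt.2 hM
  calc (1 : ℝ) ≤ √M := h6
    _ = √t * √(M / t) := h5.symm
    _ ≤ √t * (M / t) ^ ((s - 1) / (4 * s)) := by gcongr

private lemma JD_nusymm (μ : PMF ℕ) : ∀ a : ℕ × ℕ, nu μ a.swap = nu μ a := fun a => nu_swap μ a

/-- the error term after `Rs_bound` -/
private lemma JD_err (H : Hyp μ A C n) (hA : 1 ≤ A) (hC : 0 ≤ C) (hK : 0 ≤ K) (hs : 1 < s)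
    (hKs : Ks μ s ≤ ENNReal.ofReal K) (hn : 5 ≤ n) (k i y : ℕ) {z : ℝ} (hz : 0 < z)
    (hzy : z ≤ (y : ℝ) + 1) :
    Ex (nu μ) n (fun w => if Pw w ≤ k ∧ Nw w ≤ i ∧ y < Rw w then 1 else 0) ≤
      ENNReal.ofReal (((k : ℝ) + 1) * (i + 1) * ((K * (2 * A * C + 24 * A ^ 3)) *
        ((k : ℝ) + i + 1) ^ (s - 1) * (z ^ (-s) / √(n : ℝ)))) := by
  have hA0 : 0 ≤ A := by linarith
  refine (J_err hs.le n k i y).trans ?_
  refine (mul_le_mul_right (Rs_bound H hA hC hK hs.le hKs hn k i) _).trans ?_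
  rw [← ENNReal.ofReal_mul (by positivity)]
  apply ENNReal.ofReal_le_ofReal
  have e1 : ((y : ℝ) + 1) ^ (-s) ≤ z ^ (-s) :=
    Real.rpow_le_rpow_of_nonpos hz hzy (by linarith)
  have e2 : (k : ℝ) ^ (s - 1) ≤ ((k : ℝ) + i + 1) ^ (s - 1) := by
    apply Real.rpow_le_rpow (by positivity) _ (by linarith)
    have : (0 : ℝ) ≤ i := by positivity
    linarith
  have e3 : 0 ≤ ((y : ℝ) + 1) ^ (-s) := by positivity
  calc ((y : ℝ) + 1) ^ (-s) * (k : ℝ) ^ (s - 1) *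
        (((k : ℝ) + 1) * (i + 1) * (K * (2 * A * C + 24 * A ^ 3) / √(n : ℝ)))
      ≤ z ^ (-s) * ((k : ℝ) + i + 1) ^ (s - 1) *
        (((k : ℝ) + 1) * (i + 1) * (K * (2 * A * C + 24 * A ^ 3) / √(n : ℝ))) := by
        gcongr
    _ = _ := by ring

/-- With `y = ⌊yy⌋₊`: `J ≤ (J_mid) + (R > y) + (T > y)`, the last two terms by `J_err`, `Rs_bound` (the last
one after `Ex_mir`, with `k` and `i` exchanged).  `a = c = n / 3 ≥ n/5`, `b = n - 2 a ≥ n/3`,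
`2 y + 1 ≤ 3 yy`, `15 √3 ≤ 26`, `yy = √n (M/n) ^ κ`. -/
theorem J_far (h0 : μ 0 = 0) (H : Hyp μ A C n) (hA : 1 ≤ A) (hC : 0 ≤ C) (hK : 0 ≤ K) (hs : 1 < s)
    (hKs : Ks μ s ≤ ENNReal.ofReal K) {Y : ℕ} (hY : 2 ≤ Y) (k i : ℕ)
    (hn : (Y * (k + i + 1)) ^ 2 < n) :
    J μ n k i ≤ ENNReal.ofReal (((k : ℝ) + 1) * (i + 1) *
      (26 * A ^ 2 * ((((Y : ℝ) * (k + i + 1)) ^ 2 / n) ^ ((s - 1) / (4 * s)) / n) +
        2 * (K * (2 * A * C + 24 * A ^ 3)) * ((k : ℝ) + i + 1) ^ (s - 1) *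
          (yy s (((Y : ℝ) * (k + i + 1)) ^ 2) n ^ (-s) / √(n : ℝ)))) := by
  have hA0 : 0 ≤ A := by linarith
  -- lengths
  have hYq : 2 ≤ Y * (k + i + 1) := by nlinarith
  have hn5 : 5 ≤ n := by nlinarith
  have hM1 : (1 : ℝ) ≤ ((Y : ℝ) * (k + i + 1)) ^ 2 := by
    have : (2 : ℝ) ≤ (Y : ℝ) * (k + i + 1) := by exact_mod_cast hYq
    nlinarith
  have hMn : ((Y : ℝ) * (k + i + 1)) ^ 2 ≤ (n : ℝ) := by exact_mod_cast hn.le
  set M : ℝ := ((Y : ℝ) * (k + i + 1)) ^ 2 with hMdef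
  set z : ℝ := yy s M n with hzdef
  have hz1 : 1 ≤ z := one_le_yy hs hM1 hMn
  have hz0 : 0 < z := by linarith
  set y : ℕ := ⌊z⌋₊ with hy
  have hyz : (y : ℝ) ≤ z := Nat.floor_le hz0.le
  have hzy : z ≤ (y : ℝ) + 1 := (Nat.lt_floor_add_one z).le
  -- the split
  have split : J μ n k i ≤
      Ex (nu μ) n (fun w => if Pw w ≤ k ∧ Nw w ≤ i ∧ Rw w ≤ y ∧ Tw w ≤ y then 1 else 0) +
      (Ex (nu μ) n (fun w => if Pw w ≤ k ∧ Nw w ≤ i ∧ y < Rw w then 1 else 0) +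
      Ex (nu μ) n (fun w => if Pw w ≤ k ∧ Nw w ≤ i ∧ y < Tw w then 1 else 0)) := by
    rw [← Ex_add, ← Ex_add]
    unfold J
    refine Ex_mono' n fun w _ _ => ?_
    by_cases h1 : Pw w ≤ k ∧ Nw w ≤ i
    · by_cases h2 : y < Rw w
      · have e2 : (if Pw w ≤ k ∧ Nw w ≤ i ∧ y < Rw w then (1 : ℝ≥0∞) else 0) = 1 :=
          if_pos ⟨h1.1, h1.2, h2⟩
        rw [if_pos h1, e2]
        exact le_add_left le_self_add
      · by_cases h3 : y < Tw w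
        · have e3 : (if Pw w ≤ k ∧ Nw w ≤ i ∧ y < Tw w then (1 : ℝ≥0∞) else 0) = 1 :=
            if_pos ⟨h1.1, h1.2, h3⟩
          rw [if_pos h1, e3]
          exact le_add_left (le_add_left le_rfl)
        · have e4 : (if Pw w ≤ k ∧ Nw w ≤ i ∧ Rw w ≤ y ∧ Tw w ≤ y then (1 : ℝ≥0∞) else 0) = 1 :=
            if_pos ⟨h1.1, h1.2, not_lt.1 h2, not_lt.1 h3⟩
          rw [if_pos h1, e4]
          exact le_self_add
    · rw [if_neg h1]
      exact bot_le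
  -- first term
  have hnR : (5 : ℝ) ≤ n := by exact_mod_cast hn5
  have hn0 : (0 : ℝ) < n := by linarith
  obtain ⟨a, ha⟩ : ∃ a, a = n / 3 := ⟨_, rfl⟩
  obtain ⟨b, hb⟩ : ∃ b, b = n - 2 * a := ⟨_, rfl⟩
  have hab : a + (b + a) = n := by omega
  have ha1 : 1 ≤ a := by omega
  have han : a < n := by omega
  have hb1 : 1 ≤ b := by omega
  have ha5 : (n : ℝ) / 5 ≤ a := by
    have h : n ≤ 5 * a := by omega
    have h' : (n : ℝ) ≤ 5 * a := by exact_mod_cast h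
    linarith
  have hb3 : (n : ℝ) / 3 ≤ b := by
    have h : n ≤ 3 * b := by omega
    have h' : (n : ℝ) ≤ 3 * b := by exact_mod_cast h
    linarith
  have ha0 : (0 : ℝ) < a := by exact_mod_cast ha1
  have hb0 : (0 : ℝ) < b := by exact_mod_cast hb1
  have hsn : 0 < √(n : ℝ) := Real.sqrt_pos.2 hn0
  have hsa : 0 < √(a : ℝ) := Real.sqrt_pos.2 ha0
  have hsb : 0 < √(b : ℝ) := Real.sqrt_pos.2 hb0
  have hsaa : √(a : ℝ) * √(a : ℝ) = a := Real.mul_self_sqrt ha0.le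
  have hsnn : √(n : ℝ) * √(n : ℝ) = n := Real.mul_self_sqrt hn0.le
  have hsbb : √(b : ℝ) * √(b : ℝ) = b := Real.mul_self_sqrt hb0.le
  have hs3 : √(n : ℝ) * 15 ≤ 26 * √(b : ℝ) := by
    apply le_of_sq_le_sq _ (by positivity)
    · nlinarith [hsnn, hsbb, hb3]
  have t1 : Ex (nu μ) n (fun w => if Pw w ≤ k ∧ Nw w ≤ i ∧ Rw w ≤ y ∧ Tw w ≤ y then 1 else 0) ≤
      ENNReal.ofReal (((k : ℝ) + 1) * (i + 1) *
        (26 * A ^ 2 * ((M / n) ^ ((s - 1) / (4 * s)) / n))) := by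
    have h := J_mid (μ := μ) h0 a b a k i y hb1
    rw [hab] at h
    refine h.trans ?_
    refine (mul_le_mul' (mul_le_mul' (H.F a ha1 han k) (H.F a ha1 han i)) le_rfl).trans ?_
    rw [← ENNReal.ofReal_mul (by positivity), ← ENNReal.ofReal_mul (by positivity)]
    apply ENNReal.ofReal_le_ofReal
    have hzn : z = √(n : ℝ) * (M / n) ^ ((s - 1) / (4 * s)) := rfl
    have hk0 : 0 ≤ (M / n) ^ ((s - 1) / (4 * s)) := by positivity
    have key : (2 * (y : ℝ) + 1) / (a * √(b : ℝ)) ≤ 26 * ((M / n) ^ ((s - 1) / (4 * s)) / n) := by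
      rw [div_le_iff₀ (by positivity)]
      have h3 : 2 * (y : ℝ) + 1 ≤ 3 * (√(n : ℝ) * (M / n) ^ ((s - 1) / (4 * s))) := by
        rw [← hzn]; linarith
      refine h3.trans ?_
      rw [mul_assoc, div_mul_eq_mul_div, mul_div_assoc', le_div_iff₀ hn0]
      calc 3 * (√(n : ℝ) * (M / n) ^ ((s - 1) / (4 * s))) * n
          = (M / n) ^ ((s - 1) / (4 * s)) * ((√(n : ℝ) * 15) * (n / 5)) := by ring
        _ ≤ (M / n) ^ ((s - 1) / (4 * s)) * ((26 * √(b : ℝ)) * a) := by gcongr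
        _ = 26 * ((M / n) ^ ((s - 1) / (4 * s)) * (a * √(b : ℝ))) := by ring
    calc A * ((k : ℝ) + 1) / √(a : ℝ) * (A * ((i : ℝ) + 1) / √(a : ℝ)) * ((2 * (y : ℝ) + 1) / √(b : ℝ))
        = ((k : ℝ) + 1) * (i + 1) * (A ^ 2 * ((2 * (y : ℝ) + 1) / ((√(a : ℝ) * √(a : ℝ)) * √(b : ℝ)))) := by
          field_simp
      _ = ((k : ℝ) + 1) * (i + 1) * (A ^ 2 * ((2 * (y : ℝ) + 1) / (a * √(b : ℝ)))) := by rw [hsaa]
      _ ≤ ((k : ℝ) + 1) * (i + 1) * (A ^ 2 * (26 * ((M / n) ^ ((s - 1) / (4 * s)) / n))) := by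
          gcongr
      _ = _ := by ring
  have t2 := JD_err H hA hC hK hs hKs hn5 k i y hz0 hzy
  have t3 : Ex (nu μ) n (fun w => if Pw w ≤ k ∧ Nw w ≤ i ∧ y < Tw w then 1 else 0) ≤
      ENNReal.ofReal (((k : ℝ) + 1) * (i + 1) * ((K * (2 * A * C + 24 * A ^ 3)) *
        ((k : ℝ) + i + 1) ^ (s - 1) * (z ^ (-s) / √(n : ℝ)))) := by
    have e1 : Ex (nu μ) n (fun w => if Pw w ≤ k ∧ Nw w ≤ i ∧ y < Tw w then 1 else 0) =
        Ex (nu μ) n (fun w => if Pw w ≤ i ∧ Nw w ≤ k ∧ y < Rw w then 1 else 0) := by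
      rw [← Ex_mir (JD_nusymm μ) n]
      congr 1
      funext w
      have p1 : Pw (mir w) = Nw w := (Nw_eq w).symm
      have p2 : Nw (mir w) = Pw w := (Pw_eq w).symm
      have p3 : Tw (mir w) = Rw w := (Rw_eq w).symm
      rw [p1, p2, p3]
      congr 1
      apply propext
      tauto
    rw [e1]
    refine (JD_err H hA hC hK hs hKs hn5 i k y hz0 hzy).trans (le_of_eq ?_)
    congr 1
    have : (i : ℝ) + k + 1 = (k : ℝ) + i + 1 := by ring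
    rw [this]
    ring
  refine split.trans ((add_le_add t1 (add_le_add t2 t3)).trans (le_of_eq ?_))
  rw [← ENNReal.ofReal_add (by positivity) (by positivity),
    ← ENNReal.ofReal_add (by positivity) (by positivity)]
  congr 1
  ring

/-- `J_split` with `a = n / 2`, `b = n - a` -/
theorem J_mid_range (H : Hyp μ A C n) (hA : 1 ≤ A) (hn : 2 ≤ n) (k i : ℕ) :
    J μ n k i ≤ ENNReal.ofReal (((k : ℝ) + 1) * (i + 1) * (4 * A ^ 2 / n)) := by
  have hA0 : 0 ≤ A := by linarith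
  obtain ⟨a, ha⟩ : ∃ a, a = n / 2 := ⟨_, rfl⟩
  obtain ⟨b, hb⟩ : ∃ b, b = n - a := ⟨_, rfl⟩
  have hab : a + b = n := by omega
  have ha1 : 1 ≤ a := by omega
  have hb1 : 1 ≤ b := by omega
  have han : a < n := by omega
  have hbn : b < n := by omega
  have ha0 : (0 : ℝ) < a := by exact_mod_cast ha1
  have hb0 : (0 : ℝ) < b := by exact_mod_cast hb1
  have hn0 : (0 : ℝ) < n := by exact_mod_cast (by omega : 0 < n)
  have hsa : 0 < √(a : ℝ) := Real.sqrt_pos.2 ha0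
  have hsb : 0 < √(b : ℝ) := Real.sqrt_pos.2 hb0
  have h := J_split (μ := μ) a b k i
  rw [hab] at h
  refine h.trans ((mul_le_mul' (H.F a ha1 han k) (H.F b hb1 hbn i)).trans ?_)
  rw [← ENNReal.ofReal_mul (by positivity)]
  apply ENNReal.ofReal_le_ofReal
  have h4 : (n : ℝ) / 4 ≤ √(a : ℝ) * √(b : ℝ) := by
    rw [← Real.sqrt_mul ha0.le]
    apply Real.le_sqrt_of_sq_le
    have h1 : (n : ℝ) ≤ 4 * a := by exact_mod_cast (by omega : n ≤ 4 * a)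
    have h2 : (n : ℝ) ≤ 4 * b := by exact_mod_cast (by omega : n ≤ 4 * b)
    nlinarith
  have key : 1 / (√(a : ℝ) * √(b : ℝ)) ≤ 4 / n := by
    rw [div_le_div_iff₀ (by positivity) hn0]
    linarith
  calc A * ((k : ℝ) + 1) / √(a : ℝ) * (A * ((i : ℝ) + 1) / √(b : ℝ))
      = ((k : ℝ) + 1) * (i + 1) * (A ^ 2 * (1 / (√(a : ℝ) * √(b : ℝ)))) := by
        field_simp
    _ ≤ ((k : ℝ) + 1) * (i + 1) * (A ^ 2 * (4 / n)) := by gcongr
    _ = _ := by ring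

/-- `J_le_left`, `J_symm` -/
theorem J_near (hF : ∀ k : ℕ, Fp μ n k ≤ ENNReal.ofReal (A * (k + 1) / √(n : ℝ))) (k i : ℕ) :
    J μ n k i ≤ ENNReal.ofReal (A * ((min k i : ℕ) + 1) / √(n : ℝ)) := by
  rcases le_total k i with h | h
  · rw [min_eq_left h]
    exact (J_le_left n k i).trans (hF k)
  · rw [min_eq_right h, J_symm]
    exact (J_le_left n i k).trans (hF i)

end Pool.Agent.W_63dac5_h39b
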