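import Pool.Agent.W_63dac5_h39b.Exit

/-!
# The mean of `R` (proofs row 568, B2)
-/

set_option autoImplicit false

namespace Pool.Agent.W_63dac5_h39b

open ENNReal Finset
open Pool.Agent.W_MP_63dac5_pr Pool.Agent.W_63dac5_h37

variable {μ : PMF ℕ} {A C : ℝ}

/-- `Rw_snoc`, `Ex_snoc` -/
lemma ER_eq (n : ℕ) : Ex (nu μ) n (fun w => (Rw w : ℝ≥0∞)) =
    ∑ m ∈ range n, Ex (nu μ) m (fun w => lam μ 1 (Nw w)) := by
  have h1 : Ex (nu μ) n (fun w => (Rw w : ℝ≥0∞)) = Ex (nu μ) n (SN (fun x => (x : ℝ≥0∞))) :=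
    Ex_congr _ _ fun w _ => Rw_eq_SN w
  rw [h1, Ex_SN]
  refine Finset.sum_congr rfl fun m _ => Ex_congr _ _ fun w _ => ?_
  unfold lam
  exact tsum_congr fun a => by rw [ENNReal.rpow_one]

/-- `Ex_mir` -/
lemma ET_eq_ER (n : ℕ) : Ex (nu μ) n (fun w => (Tw w : ℝ≥0∞)) =
    Ex (nu μ) n (fun w => (Rw w : ℝ≥0∞)) := by
  rw [← Ex_mir (nu_swap μ) n (fun w => (Rw w : ℝ≥0∞))]
  exact Ex_congr _ _ fun w _ => by rw [Tw_eq]

/-- `conc` for the integers `c` with `|c| < √n / 4`: there are at most `√n / 2 + 1` of them, so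
`P (|Sw| < √n / 4) ≤ 1 / 2 + 1 / √n ≤ 3 / 4`. -/
lemma abs_S (h0 : μ 0 = 0) {n : ℕ} (hn : 16 ≤ n) :
    ENNReal.ofReal (1 / 4) ≤
      Ex (nu μ) n (fun w => if √(n : ℝ) / 4 ≤ |((Sw w : ℤ) : ℝ)| then 1 else 0) := by
  have hn0 : (16 : ℝ) ≤ n := by exact_mod_cast hn
  have hs4 : (4 : ℝ) ≤ √(n : ℝ) := by
    rw [show (4 : ℝ) = √(16 : ℝ) by
      rw [show (16 : ℝ) = 4 ^ 2 by norm_num, Real.sqrt_sq (by norm_num)]]
    exact Real.sqrt_le_sqrt hn0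
  set X := Ex (nu μ) n (fun w => if √(n : ℝ) / 4 ≤ |((Sw w : ℤ) : ℝ)| then 1 else 0) with hX
  set m : ℤ := ⌈√(n : ℝ) / 4⌉ with hm
  have hm1 : (m : ℝ) < √(n : ℝ) / 4 + 1 := Int.ceil_lt_add_one _
  have hm2 : √(n : ℝ) / 4 ≤ (m : ℝ) := Int.le_ceil _
  have hm0 : 1 ≤ m := by
    have : (1 : ℝ) ≤ m := by linarith
    exact_mod_cast this
  have hcard : ((Finset.Ioo (-m) m).card : ℝ) = 2 * m - 1 := by
    rw [Int.card_Ioo]
    have h2 : ((m - -m - 1).toNat : ℤ) = m - -m - 1 := Int.toNat_of_nonneg (by omega)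
    have h3 : (((m - -m - 1).toNat : ℤ) : ℝ) = ((m - -m - 1 : ℤ) : ℝ) := by rw [h2]
    have h4 : (((m - -m - 1).toNat : ℕ) : ℝ) = (((m - -m - 1).toNat : ℤ) : ℝ) := by norm_cast
    rw [h4, h3]
    push_cast
    ring
  have h1 : (1 : ℝ≥0∞) ≤ X + ENNReal.ofReal (3 / 4) := by
    calc (1 : ℝ≥0∞) = Ex (nu μ) n (fun _ => 1) := (Ex_one _ (tsum_nu_one μ) n).symm
      _ ≤ Ex (nu μ) n (fun w => (if √(n : ℝ) / 4 ≤ |((Sw w : ℤ) : ℝ)| then 1 else 0) +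
          ∑ c ∈ Finset.Ioo (-m) m, (if Sw w = c then 1 else 0)) := by
          refine Ex_mono _ _ fun w _ => ?_
          by_cases h : √(n : ℝ) / 4 ≤ |((Sw w : ℤ) : ℝ)|
          · rw [if_pos h]
            exact le_self_add
          · rw [if_neg h, zero_add]
            push Not at h
            have h2 := abs_lt.1 (lt_of_lt_of_le h hm2)
            have h3 : Sw w ∈ Finset.Ioo (-m) m := by
              rw [Finset.mem_Ioo]
              constructor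
              · have := h2.1
                exact_mod_cast this
              · exact_mod_cast h2.2
            rw [Finset.sum_ite_eq, if_pos h3]
      _ = X + ∑ c ∈ Finset.Ioo (-m) m, Ex (nu μ) n (fun w => if Sw w = c then 1 else 0) := by
          rw [Ex_add, Ex_sum]
      _ ≤ X + ENNReal.ofReal (3 / 4) := by
          gcongr
          refine (Finset.sum_le_card_nsmul _ _ _ fun c _ => conc μ h0 (by omega) c).trans ?_
          rw [nsmul_eq_mul, ← ENNReal.ofReal_natCast, ← ENNReal.ofReal_mul (by positivity)]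
          apply ENNReal.ofReal_le_ofReal
          rw [hcard, mul_one_div, div_le_iff₀ (by linarith)]
          linarith
  have h2 : ENNReal.ofReal (1 / 4) + ENNReal.ofReal (3 / 4) = 1 := by
    rw [← ENNReal.ofReal_add (by norm_num) (by norm_num)]
    norm_num
  rw [← h2] at h1
  exact (ENNReal.add_le_add_iff_right ENNReal.ofReal_ne_top).1 h1

/-- `|Sw| ≤ Tw + Rw` (`Sw_eq`), `abs_S`, `ET_eq_ER` -/
theorem ER_lower (h0 : μ 0 = 0) {n : ℕ} (hn : 16 ≤ n) :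
    ENNReal.ofReal (√(n : ℝ) / 32) ≤ Ex (nu μ) n (fun w => (Rw w : ℝ≥0∞)) := by
  have h1 := abs_S (μ := μ) h0 hn
  have h2 : Ex (nu μ) n (fun w => ENNReal.ofReal (√(n : ℝ) / 4) *
      (if √(n : ℝ) / 4 ≤ |((Sw w : ℤ) : ℝ)| then 1 else 0)) ≤
      Ex (nu μ) n (fun w => (Tw w : ℝ≥0∞) + (Rw w : ℝ≥0∞)) := by
    refine Ex_mono _ _ fun w _ => ?_
    by_cases h : √(n : ℝ) / 4 ≤ |((Sw w : ℤ) : ℝ)|
    · rw [if_pos h, mul_one]
      have h3 : |((Sw w : ℤ) : ℝ)| ≤ (Tw w : ℝ) + Rw w := by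
        have h4 := Sw_eq w
        have h5 : (Tw w : ℝ) = (Rw w : ℝ) + (Sw w : ℝ) := by exact_mod_cast h4
        have h6 : (0 : ℝ) ≤ Tw w := Nat.cast_nonneg _
        have h7 : (0 : ℝ) ≤ Rw w := Nat.cast_nonneg _
        rw [abs_le]
        constructor <;> linarith
      refine (ENNReal.ofReal_le_ofReal (h.trans h3)).trans (le_of_eq ?_)
      rw [ENNReal.ofReal_add (Nat.cast_nonneg _) (Nat.cast_nonneg _), ENNReal.ofReal_natCast,
        ENNReal.ofReal_natCast]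
    · rw [if_neg h, mul_zero]
      exact bot_le
  rw [Ex_mul_left, Ex_add, ET_eq_ER] at h2
  have h3 : ENNReal.ofReal (√(n : ℝ) / 4) * ENNReal.ofReal (1 / 4) ≤
      Ex (nu μ) n (fun w => (Rw w : ℝ≥0∞)) + Ex (nu μ) n (fun w => (Rw w : ℝ≥0∞)) :=
    (mul_le_mul' le_rfl h1).trans h2
  rw [← ENNReal.ofReal_mul (by positivity)] at h3
  have h4 : √(n : ℝ) / 4 * (1 / 4) = √(n : ℝ) / 32 + √(n : ℝ) / 32 := by ring
  rw [h4, ENNReal.ofReal_add (by positivity) (by positivity)] at h3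
  by_contra hcon
  push Not at hcon
  exact absurd h3 (not_le.2 (ENNReal.add_lt_add hcon hcon))

/-- tail of a convergent sum (`Ks μ 1` is the second moment of `a.1`) -/
lemma tail_sq (hK : Ks μ 1 ≠ ∞) {δ : ℝ} (hδ : 0 < δ) :
    ∃ I : ℕ, ∑' a : ℕ × ℕ, nu μ a * (if I < a.1 then (a.1 : ℝ≥0∞) ^ 2 else 0) ≤ ENNReal.ofReal δ := by
  have hf : ∑' a : ℕ × ℕ, nu μ a * (a.1 : ℝ≥0∞) ^ 2 ≠ ∞ := by
    have h1 : Ks μ 1 = ∑' a : ℕ × ℕ, nu μ a * (a.1 : ℝ≥0∞) ^ 2 := by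
      unfold Ks
      refine tsum_congr fun a => ?_
      rw [show (1 : ℝ) + 1 = ((2 : ℕ) : ℝ) by norm_num, ENNReal.rpow_natCast]
    rwa [h1] at hK
  have h2 := ENNReal.tendsto_tsum_compl_atTop_zero hf
  have h3 : ∀ᶠ s : Finset (ℕ × ℕ) in Filter.atTop,
      ∑' b : {x // x ∉ s}, nu μ b.1 * (b.1.1 : ℝ≥0∞) ^ 2 ≤ ENNReal.ofReal δ :=
    h2.eventually_le_const (ENNReal.ofReal_pos.2 hδ)
  obtain ⟨s, hs⟩ := h3.exists
  refine ⟨s.sup Prod.fst, le_trans ?_ hs⟩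
  have h4 := tsum_subtype {x : ℕ × ℕ | x ∉ s} (fun a : ℕ × ℕ => nu μ a * (a.1 : ℝ≥0∞) ^ 2)
  have h5 : ∑' b : {x // x ∉ s}, nu μ b.1 * (b.1.1 : ℝ≥0∞) ^ 2 =
      ∑' a : ℕ × ℕ, ({x : ℕ × ℕ | x ∉ s}).indicator
        (fun a : ℕ × ℕ => nu μ a * (a.1 : ℝ≥0∞) ^ 2) a := h4
  rw [h5]
  refine ENNReal.tsum_le_tsum fun a => ?_
  by_cases ha : s.sup Prod.fst < a.1
  · have h6 : a ∈ {x : ℕ × ℕ | x ∉ s} := by
      intro h7
      have h8 : a.1 ≤ s.sup Prod.fst := Finset.le_sup (f := Prod.fst) h7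
      omega
    rw [if_pos ha, Set.indicator_of_mem h6]
  · rw [if_neg ha, mul_zero]
    exact bot_le

end Pool.Agent.W_63dac5_h39b
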