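import Pool.Agent.W_63dac5_h39b.LowA

/-!
# The lower bound (proofs row 568, B2)
-/

set_option autoImplicit false

namespace Pool.Agent.W_63dac5_h39b

open ENNReal Finset
open Pool.Agent.W_MP_63dac5_pr Pool.Agent.W_63dac5_h37

variable {μ : PMF ℕ} {A C : ℝ}

private lemma LowB_sum (c : ℝ) (hc : 0 ≤ c) (n : ℕ) :
    ∑ m ∈ range n, c / √(m : ℝ) ≤ 2 * c * √(n : ℝ) := by
  have key : ∀ M : ℕ, ∑ m ∈ range (M + 1), c / √(m : ℝ) ≤ 2 * c * √(M : ℝ) := by
    intro M
    induction M with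
    | zero =>
      rw [zero_add, Finset.sum_range_one]
      simp
    | succ M ih =>
      rw [Finset.sum_range_succ]
      set s : ℝ := √((M + 1 : ℕ) : ℝ) with hs
      set t : ℝ := √(M : ℝ) with ht
      have hs2 : s * s = (M : ℝ) + 1 := by
        rw [hs, Real.mul_self_sqrt (by positivity)]
        push_cast
        ring
      have ht2 : t * t = (M : ℝ) := by
        rw [ht, Real.mul_self_sqrt (by positivity)]
      have hs0 : 0 < s := Real.sqrt_pos.2 (by positivity)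
      have h1 : 1 / s ≤ 2 * (s - t) := by
        rw [div_le_iff₀ hs0]
        nlinarith [sq_nonneg (s - t)]
      have h2 : c / s = c * (1 / s) := by ring
      rw [h2]
      have h3 := mul_le_mul_of_nonneg_left h1 hc
      nlinarith [h3]
  rcases Nat.eq_zero_or_pos n with h0 | h0
  · subst h0
    simp
  · obtain ⟨M, rfl⟩ : ∃ M, n = M + 1 := ⟨n - 1, by omega⟩
    refine le_trans (key M) ?_
    refine mul_le_mul_of_nonneg_left ?_ (by positivity)
    refine Real.sqrt_le_sqrt ?_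
    push_cast
    linarith

/-- `ER_eq`, `lam μ 1 y ≤ m1 μ` for `Nw w ≤ I`, `F_lam_tail` for `I < Nw w` (the term `m = 0` is `0`), and
`∑ 1 / √m ≤ 2 √n` -/
lemma ER_upper (H : ∀ n, Hyp μ A C n) (hA : 0 ≤ A) (I n : ℕ) {δ : ℝ} (hδ : 0 ≤ δ)
    (hI : ∑' a : ℕ × ℕ, nu μ a * (if I < a.1 then (a.1 : ℝ≥0∞) ^ 2 else 0) ≤ ENNReal.ofReal δ) :
    Ex (nu μ) n (fun w => (Rw w : ℝ≥0∞)) ≤
      m1 μ * ∑ m ∈ range n, Fp μ m I + ENNReal.ofReal (2 * A * δ * √(n : ℝ)) := by
  have hlam : ∀ y : ℕ, lam μ 1 y ≤ m1 μ := by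
    intro y
    unfold lam m1
    refine ENNReal.tsum_le_tsum fun a => ?_
    refine mul_le_mul' (le_refl _) ?_
    rw [ENNReal.rpow_one]
    exact_mod_cast Nat.sub_le _ _
  have hterm : ∀ m : ℕ, m < n → Ex (nu μ) m (fun w => lam μ 1 (Nw w)) ≤
      m1 μ * Fp μ m I + ENNReal.ofReal (A * δ / √(m : ℝ)) := by
    intro m hm
    have h1 : Ex (nu μ) m (fun w => lam μ 1 (Nw w)) ≤
        Ex (nu μ) m (fun w => m1 μ * (if Nw w ≤ I then 1 else 0) +
          (if I < Nw w then lam μ 1 (Nw w) else 0)) := by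
      refine Ex_mono _ _ fun w _ => ?_
      by_cases hw : Nw w ≤ I
      · rw [if_pos hw, if_neg (not_lt.2 hw), mul_one, add_zero]
        exact hlam _
      · rw [if_neg hw, if_pos (not_le.1 hw), mul_zero, zero_add]
    refine le_trans h1 ?_
    rw [Ex_add, Ex_mul_left, Fp_eq_Nw]
    refine add_le_add (le_refl _) ?_
    rcases Nat.eq_zero_or_pos m with h0 | h0
    · subst h0
      have : Ex (nu μ) 0 (fun w => if I < Nw w then lam μ 1 (Nw w) else 0) = 0 := by
        simp only [Ex]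
        rw [if_neg]
        simp [Nw, run, nz]
      rw [this]
      exact bot_le
    · refine le_trans (F_lam_tail (H (m + 1)) hA h0 (Nat.lt_succ_self m) I) ?_
      refine le_trans (mul_le_mul' (le_refl _) hI) ?_
      rw [← ENNReal.ofReal_mul (by positivity)]
      refine ENNReal.ofReal_le_ofReal (le_of_eq ?_)
      ring
  rw [ER_eq]
  refine le_trans (Finset.sum_le_sum fun m hm => hterm m (Finset.mem_range.1 hm)) ?_
  rw [Finset.sum_add_distrib, ← Finset.mul_sum]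
  refine add_le_add (le_refl _) ?_
  rw [← ENNReal.ofReal_sum_of_nonneg (fun m _ => by positivity)]
  refine ENNReal.ofReal_le_ofReal ?_
  have := LowB_sum (A * δ) (by positivity) n
  linarith

/-- With `2 A δ ≤ 1 / 64` one gets `∑ m < n, F_m(I) ≥ √n / (64 m1)` for `16 ≤ n`.  Use it for `B n` in place of
`n`, `B` a large integer; the sum over `m < n` is at most `3 A (I + 1) √n` (`sum_Fp_le`), and for `n ≤ m` we
have `F_m(I) ≤ F_n(I)` (`Fp_anti`).  So `F_n(I) ≥ √n / (B n)`. -/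
theorem F_lower (h0 : μ 0 = 0) (H : ∀ n, Hyp μ A C n) (hA : 1 ≤ A) (hK : Ks μ 1 ≠ ∞) :
    ∃ (I : ℕ) (c : ℝ), 0 < c ∧ ∀ n : ℕ, 1 ≤ n → ENNReal.ofReal (c / √(n : ℝ)) ≤ Fp μ n I := by
  have hA0 : 0 ≤ A := by linarith
  have hm1 : m1 μ ≠ ∞ := ne_top_of_le_ne_top hK (m1_le_Ks μ zero_le_one)
  set M : ℝ := (m1 μ).toReal + 1 with hM
  have hMpos : 0 < M := by
    have : 0 ≤ (m1 μ).toReal := ENNReal.toReal_nonneg
    linarith
  have hm1M : m1 μ ≤ ENNReal.ofReal M := by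
    rw [← ENNReal.ofReal_toReal hm1]
    refine ENNReal.ofReal_le_ofReal ?_
    rw [hM]
    linarith
  have hδ : 0 < 1 / (128 * A) := by positivity
  obtain ⟨I, hI⟩ := tail_sq hK hδ
  have hF : ∀ m, Fp μ m I ≠ ∞ := fun m => ne_top_of_le_ne_top ENNReal.one_ne_top (Fp_le_one m I)
  set f : ℕ → ℝ := fun m => (Fp μ m I).toReal with hf
  have hf0 : ∀ m, 0 ≤ f m := fun m => ENNReal.toReal_nonneg
  have hfF : ∀ m, Fp μ m I = ENNReal.ofReal (f m) := fun m => (ENNReal.ofReal_toReal (hF m)).symm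
  have hsum : ∀ N, ∑ m ∈ range N, Fp μ m I = ENNReal.ofReal (∑ m ∈ range N, f m) := by
    intro N
    rw [ENNReal.ofReal_sum_of_nonneg (fun m _ => hf0 m)]
    exact Finset.sum_congr rfl fun m _ => hfF m
  set c0 : ℝ := 3 * A * (I + 1) with hc0
  have hc1 : 1 ≤ c0 := by
    have : (0 : ℝ) ≤ I := Nat.cast_nonneg I
    nlinarith
  have hup : ∀ N : ℕ, 1 ≤ N → ∑ m ∈ range N, f m ≤ c0 * √(N : ℝ) := by
    intro N hN
    have h1 := sum_Fp_le (H N) hA hN I
    rw [hsum] at h1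
    exact (ENNReal.ofReal_le_ofReal_iff (by positivity)).1 h1
  have hlow : ∀ n : ℕ, 16 ≤ n → √(n : ℝ) / 64 ≤ M * ∑ m ∈ range n, f m := by
    intro n hn
    have h1 := ER_lower h0 (μ := μ) hn
    have h2 := ER_upper H hA0 I n hδ.le hI
    have h3 : m1 μ * ∑ m ∈ range n, Fp μ m I ≤ ENNReal.ofReal (M * ∑ m ∈ range n, f m) := by
      rw [ENNReal.ofReal_mul hMpos.le, hsum]
      exact mul_le_mul' hm1M (le_refl _)
    have h4 := le_trans h1 (le_trans h2 (add_le_add h3 (le_refl _)))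
    have h5 : 0 ≤ M * ∑ m ∈ range n, f m :=
      mul_nonneg hMpos.le (Finset.sum_nonneg fun m _ => hf0 m)
    rw [← ENNReal.ofReal_add h5 (by positivity)] at h4
    have h6 := (ENNReal.ofReal_le_ofReal_iff (by positivity)).1 h4
    have h7 : 2 * A * (1 / (128 * A)) * √(n : ℝ) = √(n : ℝ) / 64 := by
      field_simp
      norm_num
    rw [h7] at h6
    linarith
  have hanti : ∀ m n : ℕ, m ≤ n → f n ≤ f m := by
    intro m n hmn
    exact ENNReal.toReal_mono (hF m) (Fp_anti hmn I)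
  obtain ⟨B, hB⟩ := exists_nat_ge ((128 * M * c0) ^ 2 + 16)
  have hB1 : 16 ≤ B := by
    have : (16 : ℝ) ≤ B := by
      have := sq_nonneg (128 * M * c0)
      linarith
    exact_mod_cast this
  have hBpos : (0 : ℝ) < B := by
    have : (16 : ℝ) ≤ B := by exact_mod_cast hB1
    linarith
  have hB2 : 128 * M * c0 ≤ √(B : ℝ) := by
    refine Real.le_sqrt_of_sq_le ?_
    linarith
  refine ⟨I, 1 / B, by positivity, ?_⟩
  intro n hn
  rw [hfF n]
  refine ENNReal.ofReal_le_ofReal ?_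
  have hnpos : (0 : ℝ) < n := by exact_mod_cast hn
  have hs0 : 0 < √(n : ℝ) := Real.sqrt_pos.2 hnpos
  have hss : √(n : ℝ) * √(n : ℝ) = n := Real.mul_self_sqrt hnpos.le
  have hle : n ≤ B * n := Nat.le_mul_of_pos_left n (by omega)
  have h16 : 16 ≤ B * n := le_trans hB1 (Nat.le_mul_of_pos_right B hn)
  have h1 := hlow (B * n) h16
  have h2 : √((B * n : ℕ) : ℝ) = √(B : ℝ) * √(n : ℝ) := by
    push_cast
    exact Real.sqrt_mul hBpos.le _
  rw [h2] at h1
  have h3 : ∑ m ∈ range (B * n), f m ≤ c0 * √(n : ℝ) + B * n * f n := by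
    rw [Finset.range_eq_Ico, ← Finset.sum_Ico_consecutive f (Nat.zero_le n) hle]
    have h4 := hup n hn
    rw [Finset.range_eq_Ico] at h4
    have h5 : ∑ m ∈ Finset.Ico n (B * n), f m ≤ ∑ m ∈ Finset.Ico n (B * n), f n :=
      Finset.sum_le_sum fun m hm => hanti n m (Finset.mem_Ico.1 hm).1
    rw [Finset.sum_const, Nat.card_Ico, nsmul_eq_mul] at h5
    have h6 : ((B * n - n : ℕ) : ℝ) * f n ≤ B * n * f n := by
      refine mul_le_mul_of_nonneg_right ?_ (hf0 n)
      have : ((B * n - n : ℕ) : ℝ) ≤ ((B * n : ℕ) : ℝ) := by exact_mod_cast Nat.sub_le _ _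
      push_cast at this ⊢
      exact this
    linarith
  have h4 : 2 * c0 * √(n : ℝ) * (64 * M) ≤ √(B : ℝ) * √(n : ℝ) := by
    have := mul_le_mul_of_nonneg_right hB2 hs0.le
    linarith
  have h5 : √(B : ℝ) * √(n : ℝ) ≤ 64 * M * (c0 * √(n : ℝ) + B * n * f n) := by
    have := mul_le_mul_of_nonneg_left h3 hMpos.le
    linarith
  have h6 : c0 * √(n : ℝ) ≤ B * n * f n := by
    have h7 : 64 * M * (c0 * √(n : ℝ)) ≤ 64 * M * (B * n * f n) := by linarith
    exact le_of_mul_le_mul_left h7 (by positivity)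
  have h7 : 1 * √(n : ℝ) ≤ (B * f n * √(n : ℝ)) * √(n : ℝ) := by
    have h8 : 1 * √(n : ℝ) ≤ c0 * √(n : ℝ) := mul_le_mul_of_nonneg_right hc1 hs0.le
    have h9 : (B * f n * √(n : ℝ)) * √(n : ℝ) = B * n * f n := by
      rw [mul_assoc, hss]
      ring
    linarith
  have h8 : 1 ≤ B * f n * √(n : ℝ) := le_of_mul_le_mul_right h7 hs0
  rw [div_le_iff₀ hs0, div_le_iff₀ hBpos]
  linarith

end Pool.Agent.W_63dac5_h39b
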