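import Pool.Agent.W_63dac5_h39b.SumA

/-!
# The total (proofs row 568, A5), real analysis
-/

set_option autoImplicit false

namespace Pool.Agent.W_63dac5_h39b

open Finset

private theorem sumB_min (k i : ℕ) :
    (((min k i : ℕ) : ℝ) + 1) * ((k : ℝ) + i + 1) ≤ 2 * (((k : ℝ) + 1) * (i + 1)) := by
  have hk : (0 : ℝ) ≤ k := Nat.cast_nonneg k
  have hi : (0 : ℝ) ≤ i := Nat.cast_nonneg i
  rcases le_total k i with h | h
  · rw [min_eq_left h]
    have h' : (k : ℝ) ≤ i := by exact_mod_cast h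
    nlinarith
  · rw [min_eq_right h]
    have h' : (i : ℝ) ≤ k := by exact_mod_cast h
    nlinarith

/-- Split `range n` into `0`, `1 ≤ m ≤ q ^ 2`, `q ^ 2 < m ≤ (Y q) ^ 2` and `(Y q) ^ 2 < m`, `q = k + i + 1`.
`(min k i + 1) q ≤ 2 (k + 1) (i + 1)`; in the last term `q ^ (s - 1) √((Y q) ^ 2) ^ (1 - s) = Y ^ (1 - s)`. -/
theorem sum_total {A E s : ℝ} (hA : 1 ≤ A) (hE : 0 ≤ E) (hs : 1 < s) {k i Y : ℕ} (hY : 2 ≤ Y) (n : ℕ)
    (b : ℕ → ℝ) (hb0 : b 0 ≤ 1)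
    (h1 : ∀ m < n, 1 ≤ m → m ≤ (k + i + 1) ^ 2 → b m ≤ A * ((min k i : ℕ) + 1) / √(m : ℝ))
    (h2 : ∀ m < n, (k + i + 1) ^ 2 < m → m ≤ (Y * (k + i + 1)) ^ 2 →
      b m ≤ ((k : ℝ) + 1) * (i + 1) * (4 * A ^ 2 / m))
    (h3 : ∀ m < n, (Y * (k + i + 1)) ^ 2 < m → b m ≤ ((k : ℝ) + 1) * (i + 1) *
      (26 * A ^ 2 * ((((Y : ℝ) * (k + i + 1)) ^ 2 / m) ^ ((s - 1) / (4 * s)) / m) +
        2 * E * ((k : ℝ) + i + 1) ^ (s - 1) *
          ((√(m : ℝ) * (((Y : ℝ) * (k + i + 1)) ^ 2 / m) ^ ((s - 1) / (4 * s))) ^ (-s) / √(m : ℝ)))) :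
    ∑ m ∈ range n, b m ≤ ((k : ℝ) + 1) * (i + 1) *
      (1 + 4 * A + 8 * A ^ 2 * Real.log Y + 104 * s / (s - 1) * A ^ 2 +
        8 / (s - 1) * E * (Y : ℝ) ^ (1 - s)) := by
  have hk : (0 : ℝ) ≤ k := Nat.cast_nonneg k
  have hi : (0 : ℝ) ≤ i := Nat.cast_nonneg i
  have hqpos : (0 : ℝ) < (k : ℝ) + i + 1 := by positivity
  have hYpos : (0 : ℝ) < (Y : ℝ) := by
    have : 0 < Y := by omega
    exact_mod_cast this
  have hs1 : 0 < s - 1 := by linarith
  set D : ℝ := ((k : ℝ) + 1) * (i + 1) with hD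
  have hD1 : 1 ≤ D := by
    rw [hD]
    nlinarith
  have hM : (((Y * (k + i + 1)) ^ 2 : ℕ) : ℝ) = ((Y : ℝ) * (k + i + 1)) ^ 2 := by push_cast; ring
  have hM1 : 1 ≤ (Y * (k + i + 1)) ^ 2 := Nat.one_le_pow _ _ (Nat.mul_pos (by omega) (by omega))
  -- the four functions
  let f1 : ℕ → ℝ := fun m => if 1 ≤ m ∧ m ≤ (k + i + 1) ^ 2 then 1 / √(m : ℝ) else 0
  let f2 : ℕ → ℝ := fun m =>
    if (k + i + 1) ^ 2 < m ∧ m ≤ (Y * (k + i + 1)) ^ 2 then 1 / (m : ℝ) else 0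
  let u : ℕ → ℝ := fun m => (((((Y * (k + i + 1)) ^ 2 : ℕ) : ℝ) / m) ^ ((s - 1) / (4 * s)) / m)
  let v : ℕ → ℝ := fun m =>
    ((√(m : ℝ) * ((((Y * (k + i + 1)) ^ 2 : ℕ) : ℝ) / m) ^ ((s - 1) / (4 * s))) ^ (-s) / √(m : ℝ))
  have hb : ∀ m ∈ range n, b m ≤ (if m = 0 then (1 : ℝ) else 0) +
      A * (((min k i : ℕ) : ℝ) + 1) * f1 m + D * (4 * A ^ 2) * f2 m +
      (D * (26 * A ^ 2) * (if (Y * (k + i + 1)) ^ 2 < m then u m else 0) +
        D * (2 * E * ((k : ℝ) + i + 1) ^ (s - 1)) *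
          (if (Y * (k + i + 1)) ^ 2 < m then v m else 0)) := by
    intro m hm
    have hm' := Finset.mem_range.1 hm
    have hqY : (k + i + 1) ^ 2 ≤ (Y * (k + i + 1)) ^ 2 :=
      Nat.pow_le_pow_left (Nat.le_mul_of_pos_left _ (by omega)) 2
    rcases Nat.eq_zero_or_pos m with h0 | h0
    · subst h0
      simp only [f1, f2]
      simp
      exact hb0
    · have h0' : m ≠ 0 := by omega
      by_cases c1 : m ≤ (k + i + 1) ^ 2
      · have c3 : ¬ (Y * (k + i + 1)) ^ 2 < m := by omega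
        have c2 : ¬ ((k + i + 1) ^ 2 < m ∧ m ≤ (Y * (k + i + 1)) ^ 2) := by omega
        have c0 : 1 ≤ m ∧ m ≤ (k + i + 1) ^ 2 := ⟨h0, c1⟩
        simp only [f1, f2, if_neg h0', if_neg c3, if_neg c2, if_pos c0]
        have := h1 m hm' h0 c1
        calc b m ≤ A * (((min k i : ℕ) : ℝ) + 1) / √(m : ℝ) := this
          _ = _ := by ring
      · by_cases c3 : (Y * (k + i + 1)) ^ 2 < m
        · have c2 : ¬ ((k + i + 1) ^ 2 < m ∧ m ≤ (Y * (k + i + 1)) ^ 2) := by omega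
          have c0 : ¬ (1 ≤ m ∧ m ≤ (k + i + 1) ^ 2) := by omega
          simp only [f1, f2, if_neg h0', if_pos c3, if_neg c2, if_neg c0]
          have := h3 m hm' c3
          rw [← hM] at this
          calc b m ≤ _ := this
            _ = _ := by
              simp only [u, v]
              ring
        · have c2 : ((k + i + 1) ^ 2 < m ∧ m ≤ (Y * (k + i + 1)) ^ 2) := by omega
          have c0 : ¬ (1 ≤ m ∧ m ≤ (k + i + 1) ^ 2) := by omega
          simp only [f1, f2, if_neg h0', if_neg c3, if_pos c2, if_neg c0]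
          have := h2 m hm' c2.1 c2.2
          calc b m ≤ _ := this
            _ = _ := by ring
  have hsum := Finset.sum_le_sum hb
  refine hsum.trans ?_
  rw [Finset.sum_add_distrib, Finset.sum_add_distrib, Finset.sum_add_distrib,
    Finset.sum_add_distrib, ← Finset.mul_sum, ← Finset.mul_sum, ← Finset.mul_sum,
    ← Finset.mul_sum]
  have t0 : ∑ m ∈ range n, (if m = 0 then (1 : ℝ) else 0) ≤ 1 := by
    rw [Finset.sum_ite_eq']
    split_ifs <;> norm_num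
  have t1 : ∑ m ∈ range n, f1 m ≤ 2 * ((k : ℝ) + i + 1) := by
    have := sum_near (k + i + 1) n
    rw [Finset.sum_filter] at this
    calc ∑ m ∈ range n, f1 m ≤ 2 * ((k + i + 1 : ℕ) : ℝ) := this
      _ = _ := by push_cast; ring
  have t2 : ∑ m ∈ range n, f2 m ≤ 2 * Real.log Y := by
    have := sum_mid (q := k + i + 1) (Y := Y) (by omega) (by omega) n
    rw [Finset.sum_filter] at this
    exact this
  have t3 : ∑ m ∈ range n, (if (Y * (k + i + 1)) ^ 2 < m then u m else 0) ≤ 4 * s / (s - 1) := by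
    have := sum_far hs hM1 n
    rw [Finset.sum_filter] at this
    exact this
  have t4 : ∑ m ∈ range n, (if (Y * (k + i + 1)) ^ 2 < m then v m else 0) ≤
      4 / (s - 1) * ((Y : ℝ) * (k + i + 1)) ^ (1 - s) := by
    have := sum_far2 hs hM1 n
    rw [Finset.sum_filter] at this
    rw [hM, Real.sqrt_sq (by positivity)] at this
    rw [← hM] at this
    exact this
  have e4 : ((k : ℝ) + i + 1) ^ (s - 1) * ((Y : ℝ) * (k + i + 1)) ^ (1 - s) = (Y : ℝ) ^ (1 - s) := by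
    rw [Real.mul_rpow hYpos.le hqpos.le, mul_left_comm, ← Real.rpow_add hqpos]
    simp
  have hmin := sumB_min k i
  have hqs : 0 ≤ ((k : ℝ) + i + 1) ^ (s - 1) := by positivity
  have s1 : A * (((min k i : ℕ) : ℝ) + 1) * ∑ m ∈ range n, f1 m ≤ D * (4 * A) := by
    calc A * (((min k i : ℕ) : ℝ) + 1) * ∑ m ∈ range n, f1 m
        ≤ A * (((min k i : ℕ) : ℝ) + 1) * (2 * ((k : ℝ) + i + 1)) :=
          mul_le_mul_of_nonneg_left t1 (by positivity)
      _ = 2 * A * ((((min k i : ℕ) : ℝ) + 1) * ((k : ℝ) + i + 1)) := by ring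
      _ ≤ 2 * A * (2 * (((k : ℝ) + 1) * (i + 1))) :=
          mul_le_mul_of_nonneg_left hmin (by positivity)
      _ = D * (4 * A) := by rw [hD]; ring
  have s2 : D * (4 * A ^ 2) * ∑ m ∈ range n, f2 m ≤ D * (8 * A ^ 2 * Real.log Y) := by
    calc D * (4 * A ^ 2) * ∑ m ∈ range n, f2 m ≤ D * (4 * A ^ 2) * (2 * Real.log Y) :=
          mul_le_mul_of_nonneg_left t2 (by positivity)
      _ = _ := by ring
  have s3 : D * (26 * A ^ 2) * ∑ m ∈ range n, (if (Y * (k + i + 1)) ^ 2 < m then u m else 0) ≤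
      D * (104 * s / (s - 1) * A ^ 2) := by
    calc _ ≤ D * (26 * A ^ 2) * (4 * s / (s - 1)) := mul_le_mul_of_nonneg_left t3 (by positivity)
      _ = _ := by ring
  have s4 : D * (2 * E * ((k : ℝ) + i + 1) ^ (s - 1)) *
      ∑ m ∈ range n, (if (Y * (k + i + 1)) ^ 2 < m then v m else 0) ≤
      D * (8 / (s - 1) * E * (Y : ℝ) ^ (1 - s)) := by
    calc _ ≤ D * (2 * E * ((k : ℝ) + i + 1) ^ (s - 1)) *
          (4 / (s - 1) * ((Y : ℝ) * (k + i + 1)) ^ (1 - s)) :=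
          mul_le_mul_of_nonneg_left t4 (by positivity)
      _ = D * (8 / (s - 1) * E * (((k : ℝ) + i + 1) ^ (s - 1) *
            ((Y : ℝ) * (k + i + 1)) ^ (1 - s))) := by ring
      _ = _ := by rw [e4]
  calc _ ≤ D + D * (4 * A) + D * (8 * A ^ 2 * Real.log Y) + (D * (104 * s / (s - 1) * A ^ 2) +
        D * (8 / (s - 1) * E * (Y : ℝ) ^ (1 - s))) := by
        gcongr
        exact t0.trans hD1
    _ = _ := by ring

end Pool.Agent.W_63dac5_h39b
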