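import Pool.Agent.W_63dac5_h39b.Fstep
import Pool.Agent.W_63dac5_h39b.JD
import Pool.Agent.W_63dac5_h39b.SumB
import Pool.Agent.W_63dac5_h39b.Const

/-!
# The upper bounds (proofs row 568, part A)
-/

set_option autoImplicit false

namespace Pool.Agent.W_63dac5_h39b

open ENNReal Finset
open Pool.Agent.W_MP_63dac5_pr Pool.Agent.W_63dac5_h37

/-- Induction on `n`: `Hyp μ A C n → Hyp μ A C (n + 1)`.  The new bound for `F` is `F_step`; the sum of the
`J μ m k i` for `m < n + 1` is `sum_total` (with `b m = (J μ m k i).toReal`, `E = K (2 A C + 24 A ^ 3)`) and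
`J_near`, `J_mid_range`, `J_far`, `J_le_one`, `Hyp.mono`. -/
theorem hyp_all {μ : PMF ℕ} (h0 : μ 0 = 0) {A C K M s : ℝ} {h Y : ℕ} (hA1 : 1 ≤ A) (hC : 0 ≤ C)
    (hK : 0 ≤ K) (hM : 0 ≤ M) (hs : 1 < s) (hKs : Ks μ s ≤ ENNReal.ofReal K)
    (hm2 : m2 μ h ≤ ENNReal.ofReal M) (hA : 17 * (h + C * M) ≤ A) (hY : 2 ≤ Y)
    (hCC : 1 + 4 * A + 8 * A ^ 2 * Real.log Y + 104 * s / (s - 1) * A ^ 2 +
      8 / (s - 1) * (K * (2 * A * C + 24 * A ^ 3)) * (Y : ℝ) ^ (1 - s) ≤ C) (n : ℕ) :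
    Hyp μ A C n := by
  have hm : m1 μ ≠ ∞ :=
    ne_top_of_le_ne_top ENNReal.ofReal_ne_top ((m1_le_Ks μ (by linarith : (0 : ℝ) ≤ s)).trans hKs)
  have hA0 : 0 ≤ A := by linarith
  induction n with
  | zero =>
    refine ⟨fun m _ hm' => absurd hm' (Nat.not_lt_zero m), fun k i => ?_⟩
    rw [Finset.range_zero, Finset.sum_empty]
    exact bot_le
  | succ n H =>
    have hF : ∀ m : ℕ, 1 ≤ m → m < n + 1 → ∀ k : ℕ,
        Fp μ m k ≤ ENNReal.ofReal (A * (k + 1) / √(m : ℝ)) := by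
      intro m hm1 hmn k
      exact F_step h0 hm (H.mono (Nat.lt_succ_iff.1 hmn)) hC hM hm2 hA hm1 k
    refine ⟨hF, fun k i => ?_⟩
    have hfin : ∀ m : ℕ, J μ m k i ≠ ∞ := fun m =>
      ne_top_of_le_ne_top ENNReal.one_ne_top (J_le_one m k i)
    have hsum : ∑ m ∈ range (n + 1), J μ m k i =
        ENNReal.ofReal (∑ m ∈ range (n + 1), (J μ m k i).toReal) := by
      rw [ENNReal.ofReal_sum_of_nonneg (fun m _ => ENNReal.toReal_nonneg)]
      exact Finset.sum_congr rfl fun m _ => (ENNReal.ofReal_toReal (hfin m)).symm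
    rw [hsum]
    refine ENNReal.ofReal_le_ofReal ?_
    have hE : 0 ≤ K * (2 * A * C + 24 * A ^ 3) := by positivity
    have key := sum_total (k := k) (i := i) hA1 hE hs hY (n + 1) (fun m => (J μ m k i).toReal)
      (by
        have := ENNReal.toReal_mono ENNReal.one_ne_top (J_le_one (μ := μ) 0 k i)
        simpa using this)
      (by
        intro m hmn hm1 _
        refine ENNReal.toReal_le_of_le_ofReal (by positivity) ?_
        exact J_near (hF m hm1 hmn) k i)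
      (by
        intro m hmn hmq _
        refine ENNReal.toReal_le_of_le_ofReal (by positivity) ?_
        have h1 : 1 ≤ (k + i + 1) ^ 2 := Nat.one_le_pow _ _ (by omega)
        exact J_mid_range (H.mono (Nat.lt_succ_iff.1 hmn)) hA1 (by omega) k i)
      (by
        intro m hmn hmq
        refine ENNReal.toReal_le_of_le_ofReal (by positivity) ?_
        exact J_far h0 (H.mono (Nat.lt_succ_iff.1 hmn)) hA1 hC hK hs hKs hY k i hmq)
    refine key.trans ?_
    rw [mul_comm C]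
    exact mul_le_mul_of_nonneg_left hCC (by positivity)

/-- `A = 18 h`, `C = c0 A ^ 2 (1 + log (A (1 + K)))` with `c0` from `exists_const`,
`c = 17 * 324 * c0 * (1 + log 18)`. -/
theorem partA {s : ℝ} (hs : 1 < s) : ∃ c : ℝ, 1 ≤ c ∧ ∀ (μ : PMF ℕ), μ 0 = 0 →
    ∀ (K M : ℝ) (h : ℕ), 0 ≤ K → 0 ≤ M → 1 ≤ h → Ks μ s ≤ ENNReal.ofReal K →
      m2 μ h ≤ ENNReal.ofReal M → c * (h * (1 + Real.log (h * (1 + K))) * M) ≤ 1 →
      ∃ A C : ℝ, 1 ≤ A ∧ 1 ≤ C ∧ ∀ n, Hyp μ A C n := by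
  obtain ⟨c0, hc0, hex⟩ := exists_const hs
  have hl18 : 0 ≤ Real.log 18 := Real.log_nonneg (by norm_num)
  refine ⟨17 * 324 * c0 * (1 + Real.log 18), ?_, ?_⟩
  · have h1 : (1 : ℝ) ≤ 17 * 324 * c0 := by linarith
    nlinarith
  · intro μ h0 K M h hK hM hh hKs hm2 hc
    have hhR : (1 : ℝ) ≤ h := by exact_mod_cast hh
    have hK1 : (1 : ℝ) ≤ 1 + K := by linarith
    have hhK : (1 : ℝ) ≤ h * (1 + K) := by nlinarith
    have hlog : 0 ≤ Real.log (h * (1 + K)) := Real.log_nonneg hhK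
    have hA1 : (1 : ℝ) ≤ 18 * h := by linarith
    obtain ⟨Y, hY, hCC⟩ := hex (18 * h) K hA1 hK
    have hsplit : Real.log (18 * h * (1 + K)) = Real.log 18 + Real.log (h * (1 + K)) := by
      rw [mul_assoc, Real.log_mul (by norm_num) (by positivity)]
    set C : ℝ := c0 * (18 * (h : ℝ)) ^ 2 * (1 + Real.log (18 * h * (1 + K))) with hCdef
    have hlogA : 0 ≤ Real.log (18 * h * (1 + K)) := by rw [hsplit]; linarith
    have hC1 : 1 ≤ C := by
      have h1 : (1 : ℝ) ≤ (18 * (h : ℝ)) ^ 2 := one_le_pow₀ hA1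
      have h2 : (1 : ℝ) ≤ c0 * (18 * (h : ℝ)) ^ 2 := by nlinarith
      have h3 : (1 : ℝ) ≤ 1 + Real.log (18 * h * (1 + K)) := by linarith
      calc (1 : ℝ) = 1 * 1 := (one_mul 1).symm
        _ ≤ C := mul_le_mul h2 h3 zero_le_one (by linarith)
    have hCM : 17 * (C * M) ≤ h := by
      have h1 : 1 + Real.log (18 * h * (1 + K)) ≤
          (1 + Real.log 18) * (1 + Real.log (h * (1 + K))) := by
        rw [hsplit]
        nlinarith [mul_nonneg hl18 hlog]
      have h2 : 17 * (C * M) ≤ 17 * (c0 * (18 * (h : ℝ)) ^ 2 *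
          ((1 + Real.log 18) * (1 + Real.log (h * (1 + K)))) * M) := by
        rw [hCdef]
        gcongr
      have h3 : 17 * (c0 * (18 * (h : ℝ)) ^ 2 *
          ((1 + Real.log 18) * (1 + Real.log (h * (1 + K)))) * M) =
          h * (17 * 324 * c0 * (1 + Real.log 18) *
            (h * (1 + Real.log (h * (1 + K))) * M)) := by ring
      rw [h3] at h2
      calc 17 * (C * M) ≤ _ := h2
        _ ≤ h * 1 := mul_le_mul_of_nonneg_left hc (by positivity)
        _ = h := mul_one _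
    refine ⟨18 * h, C, hA1, hC1, fun n => ?_⟩
    exact hyp_all h0 hA1 (by linarith) hK hM hs hKs hm2 (by linarith) hY hCC n

end Pool.Agent.W_63dac5_h39b
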