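import Pool.Agent.W_63dac5_h39b.Base

/-!
# Words after a large unmet demand (proofs row 568, B3), lists
-/

set_option autoImplicit false

namespace Pool.Agent.W_63dac5_h39b

open ENNReal Finset
open Pool.Agent.W_MP_63dac5_pr Pool.Agent.W_63dac5_h37

private lemma TailA_nz_cons (x : ℕ) (l : List ℕ) :
    nz (x :: l) = (if x = 0 then 0 else 1) + nz l := by
  cases x with
  | zero => simp [nz]
  | succ x =>
    simp only [nz, Nat.succ_ne_zero, if_false]
    try omega

private lemma TailA_key (w : List (ℕ × ℕ)) : ∀ A u : List ℕ,
    nz (need A w) ≤ nz (need (A ++ u) w) + u.sum := by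
  induction w with
  | nil =>
    intro A u
    simp [need, nz]
  | cons a w ih =>
    intro A u
    have h1 := ih (stp A a) (serve (a.1 - nz A) u)
    have h2 := serve_sum (a.1 - nz A) u
    simp only [need, TailA_nz_cons, stp_append, nz_append]
    rcases Nat.eq_zero_or_pos (a.1 - nz A) with h0 | h0
    · rw [if_pos h0]
      omega
    · rw [if_neg (by omega)]
      by_cases h3 : a.1 - (nz A + nz u) = 0
      · rw [if_pos h3]
        have h4 : min (a.1 - nz A) (nz u) = a.1 - nz A := min_eq_left (by omega)
        omega
      · rw [if_neg h3]
        omega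

/-- every demand which is served completely takes at least one stub if it is not zero -/
lemma nz_le_need (u : List ℕ) (w : List (ℕ × ℕ)) : Pw w ≤ nz (need u w) + u.sum := by
  have := TailA_key w [] u
  rwa [List.nil_append] at this

/-- `need_append`, `nz_le_need` -/
lemma Pw_after (w w' : List (ℕ × ℕ)) : Pw w' + Pw w ≤ Pw (w ++ w') + Tw w := by
  have h1 := nz_le_need (run [] w) w'
  have h2 : Pw (w ++ w') = Pw w + nz (need (run [] w) w') := by
    unfold Pw
    rw [need_append, nz_append]
  have h3 : Tw w = (run [] w).sum := rfl
  omega

private lemma TailA_big (b : ℕ) (w : List (ℕ × ℕ)) :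
    (∀ j < w.length, (w.getD j (0, 0)).1 ≤ Nw (w.take j) + b) → Rw w ≤ Pw w * b := by
  induction w using List.reverseRecOn with
  | nil =>
    intro _
    simp [Rw, need]
  | append_singleton w a ih =>
    intro h
    have h1 := ih (fun j hj => by
      have h2 := h j (by rw [List.length_append]; omega)
      rw [List.getD_append _ _ _ _ hj, List.take_append_of_le_length hj.le] at h2
      exact h2)
    have h3 := h w.length (by simp)
    rw [List.getD_append_right _ _ _ _ le_rfl, List.take_append_of_le_length le_rfl,
      List.take_length, Nat.sub_self] at h3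
    simp only [List.getD_cons_zero] at h3
    rw [Rw_snoc, Pw_snoc, add_mul]
    split_ifs with h4
    · rw [one_mul]
      omega
    · have : a.1 - Nw w = 0 := by omega
      rw [this, zero_mul]
      exact h1

/-- Otherwise each of the at most `I` nonzero unmet demands is at most `b`; the unmet demand of the letter
`j + 1` is `a.1 - Nw (w.take j)`. -/
lemma exists_big {w : List (ℕ × ℕ)} {I b : ℕ} (h : Pw w ≤ I) (h' : I * b < Rw w) :
    ∃ j < w.length, Nw (w.take j) + b < (w.getD j (0, 0)).1 := by
  by_contra hcon
  push Not at hcon
  have h1 := TailA_big b w hcon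
  have h2 := Nat.mul_le_mul_right b h
  omega

end Pool.Agent.W_63dac5_h39b
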