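import Pool.Agent.W_63dac5_h39b.Exit
import Pool.Agent.W_63dac5_h39b.TailA

/-!
# The total unmet demand is bounded (proofs row 568, B3)
-/

set_option autoImplicit false

namespace Pool.Agent.W_63dac5_h39b

open ENNReal Finset
open Pool.Agent.W_MP_63dac5_pr Pool.Agent.W_63dac5_h37

variable {μ : PMF ℕ} {A C : ℝ}

/-- `exists_big`, `Ex_split` with `d = (0, 0)`, `Pw_left_le`, and `Pw_after` for the word `u ++ [a]` -/
lemma R_tail_pt (I b n : ℕ) :
    Ex (nu μ) n (fun w => if Pw w ≤ I ∧ I * b < Rw w then 1 else 0) ≤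
      ∑ j ∈ range n, Ex (nu μ) j (fun w => ∑' a, nu μ a *
        (if Pw w ≤ I ∧ Nw w + b < a.1 then Fp μ (n - 1 - j) (I + Tw (w ++ [a])) else 0)) := by
  classical
  set ψ : List (ℕ × ℕ) → ℕ × ℕ → List (ℕ × ℕ) → ℝ≥0∞ := fun u a v =>
    if (Pw u ≤ I ∧ Nw u + b < a.1) ∧ Pw v ≤ I + Tw (u ++ [a]) then 1 else 0 with hψ
  have h1 : Ex (nu μ) n (fun w => if Pw w ≤ I ∧ I * b < Rw w then 1 else 0) ≤
      Ex (nu μ) n (fun w => ∑ j ∈ range n, ψ (w.take j) (w.getD j (0, 0)) (w.drop (j + 1))) := by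
    refine Ex_mono _ _ fun w hw => ?_
    split_ifs with h
    · obtain ⟨j, hj, hbig⟩ := exists_big h.1 h.2
      have hjn : j ∈ range n := Finset.mem_range.2 (by omega)
      refine le_trans ?_ (Finset.single_le_sum
        (f := fun j => ψ (w.take j) (w.getD j (0, 0)) (w.drop (j + 1)))
        (fun _ _ => bot_le) hjn)
      have e1 : w.take j ++ w.drop j = w := List.take_append_drop j w
      have e2 : (w.take j ++ [w.getD j (0, 0)]) ++ w.drop (j + 1) = w := by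
        rw [List.append_assoc, List.singleton_append]
        have e3 : w.getD j (0, 0) :: w.drop (j + 1) = w.drop j := by
          rw [List.getD_eq_getElem _ _ hj]
          exact List.getElem_cons_drop hj
        rw [e3, e1]
      have e4 : Pw (w.take j) ≤ I := by
        have := Pw_left_le (w.take j) (w.drop j)
        rw [e1] at this
        exact this.trans h.1
      have e5 : Pw (w.drop (j + 1)) ≤ I + Tw (w.take j ++ [w.getD j (0, 0)]) := by
        have := Pw_after (w.take j ++ [w.getD j (0, 0)]) (w.drop (j + 1))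
        rw [e2] at this
        have := h.1
        omega
      show (1 : ℝ≥0∞) ≤ if (Pw (w.take j) ≤ I ∧ Nw (w.take j) + b < (w.getD j (0, 0)).1) ∧
        Pw (w.drop (j + 1)) ≤ I + Tw (w.take j ++ [w.getD j (0, 0)]) then 1 else 0
      rw [if_pos ⟨⟨e4, hbig⟩, e5⟩]
    · exact bot_le
  refine h1.trans (le_of_eq ?_)
  rw [Ex_split]
  refine Finset.sum_congr rfl fun j _ => ?_
  refine Ex_congr _ _ fun u _ => ?_
  refine tsum_congr fun a => ?_
  congr 1
  by_cases hc : Pw u ≤ I ∧ Nw u + b < a.1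
  · rw [if_pos hc]
    unfold Fp
    refine Ex_congr _ _ fun v _ => ?_
    show (if (Pw u ≤ I ∧ Nw u + b < a.1) ∧ Pw v ≤ I + Tw (u ++ [a]) then (1 : ℝ≥0∞) else 0) = _
    by_cases hv : Pw v ≤ I + Tw (u ++ [a])
    · rw [if_pos ⟨hc, hv⟩, if_pos hv]
    · rw [if_neg (fun h => hv h.2), if_neg hv]
  · rw [if_neg hc]
    have h2 : (fun v => ψ u a v) = fun _ => 0 * (1 : ℝ≥0∞) := by
      funext v
      show (if (Pw u ≤ I ∧ Nw u + b < a.1) ∧ Pw v ≤ I + Tw (u ++ [a]) then (1 : ℝ≥0∞) else 0) = _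
      rw [if_neg (fun h => hc h.1), zero_mul]
    rw [h2, Ex_mul_left, zero_mul]

private lemma TailB_exchange (f : ℕ → ℕ → ℝ≥0∞) (N : ℕ) :
    ∑ n ∈ range N, ∑ j ∈ range n, f j (n - 1 - j) =
      ∑ j ∈ range N, ∑ l ∈ range (N - 1 - j), f j l := by
  induction N with
  | zero => rfl
  | succ N ih =>
    rw [Finset.sum_range_succ, ih, Finset.sum_range_succ (n := N)]
    have h0 : N + 1 - 1 - N = 0 := by omega
    rw [h0, Finset.sum_range_zero, add_zero, ← Finset.sum_add_distrib]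
    refine Finset.sum_congr rfl fun j hj => ?_
    have hj' : j < N := Finset.mem_range.1 hj
    have h1 : N + 1 - 1 - j = (N - 1 - j) + 1 := by omega
    rw [h1, Finset.sum_range_succ]

/-- `R_tail_pt`; exchange the sums over `n` and `j`, `sum_Fp_le`: at most `3 A √N * ab μ I b N`; `ab_small` with
`δ / (3 A)` -/
theorem R_tail (H : ∀ n, Hyp μ A C n) (hA : 1 ≤ A) (hC : 0 ≤ C) (hK : Ks μ 1 ≠ ∞) (I : ℕ) {δ : ℝ}
    (hδ : 0 < δ) : ∃ ρ : ℕ, ∀ N : ℕ, 1 ≤ N → ∑ n ∈ range N,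
      Ex (nu μ) n (fun w => if Pw w ≤ I ∧ ρ < Rw w then 1 else 0) ≤
        ENNReal.ofReal (δ * √(N : ℝ)) := by
  have hA0 : 0 < A := by linarith
  obtain ⟨b, hb⟩ := ab_small H hC hK I (δ := δ / (3 * A)) (by positivity)
  refine ⟨I * b, fun N hN => ?_⟩
  set f : ℕ → ℕ → ℝ≥0∞ := fun j l => Ex (nu μ) j (fun w => ∑' a, nu μ a *
    (if Pw w ≤ I ∧ Nw w + b < a.1 then Fp μ l (I + Tw (w ++ [a])) else 0)) with hf
  have h1 : ∑ n ∈ range N, Ex (nu μ) n (fun w => if Pw w ≤ I ∧ I * b < Rw w then 1 else 0) ≤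
      ∑ n ∈ range N, ∑ j ∈ range n, f j (n - 1 - j) :=
    Finset.sum_le_sum fun n _ => R_tail_pt I b n
  have h2 : ∑ n ∈ range N, ∑ j ∈ range n, f j (n - 1 - j) ≤
      ∑ j ∈ range N, ∑ l ∈ range N, f j l := by
    rw [TailB_exchange]
    refine Finset.sum_le_sum fun j _ => ?_
    exact Finset.sum_le_sum_of_subset (Finset.range_mono (by omega))
  have h3 : ∀ j, ∑ l ∈ range N, f j l ≤ ENNReal.ofReal (3 * A * √(N : ℝ)) *
      Ex (nu μ) j (fun w => ∑' a, nu μ a *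
        (if Pw w ≤ I ∧ Nw w + b < a.1 then ((I + 1 + Tw (w ++ [a]) : ℕ) : ℝ≥0∞) else 0)) := by
    intro j
    rw [hf]
    rw [← Ex_sum, ← Ex_mul_left]
    refine Ex_mono _ _ fun w _ => ?_
    rw [← Summable.tsum_finsetSum (fun _ _ => ENNReal.summable), ← ENNReal.tsum_mul_left]
    refine ENNReal.tsum_le_tsum fun a => ?_
    rw [← Finset.mul_sum, mul_left_comm]
    refine mul_le_mul' le_rfl ?_
    by_cases hc : Pw w ≤ I ∧ Nw w + b < a.1
    · rw [if_pos hc]
      have h4 : ∑ l ∈ range N, (if Pw w ≤ I ∧ Nw w + b < a.1 then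
          Fp μ l (I + Tw (w ++ [a])) else 0) = ∑ l ∈ range N, Fp μ l (I + Tw (w ++ [a])) :=
        Finset.sum_congr rfl fun l _ => if_pos hc
      rw [h4]
      refine (sum_Fp_le (H N) hA hN _).trans (le_of_eq ?_)
      have h5 : 3 * A * (((I + Tw (w ++ [a]) : ℕ) : ℝ) + 1) * √(N : ℝ) =
          (3 * A * √(N : ℝ)) * ((I + 1 + Tw (w ++ [a]) : ℕ) : ℝ) := by
        push_cast
        ring
      rw [h5, ENNReal.ofReal_mul (by positivity), ENNReal.ofReal_natCast]
    · have h4 : ∑ l ∈ range N, (if Pw w ≤ I ∧ Nw w + b < a.1 then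
          Fp μ l (I + Tw (w ++ [a])) else 0) = 0 :=
        Finset.sum_eq_zero fun l _ => if_neg hc
      rw [h4]
      exact bot_le
  calc ∑ n ∈ range N, Ex (nu μ) n (fun w => if Pw w ≤ I ∧ I * b < Rw w then 1 else 0)
      ≤ ∑ j ∈ range N, ∑ l ∈ range N, f j l := h1.trans h2
    _ ≤ ∑ j ∈ range N, ENNReal.ofReal (3 * A * √(N : ℝ)) *
        Ex (nu μ) j (fun w => ∑' a, nu μ a *
          (if Pw w ≤ I ∧ Nw w + b < a.1 then ((I + 1 + Tw (w ++ [a]) : ℕ) : ℝ≥0∞) else 0)) :=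
        Finset.sum_le_sum fun j _ => h3 j
    _ = ENNReal.ofReal (3 * A * √(N : ℝ)) * ab μ I b N := by
        rw [← Finset.mul_sum]
        rfl
    _ ≤ ENNReal.ofReal (3 * A * √(N : ℝ)) * ENNReal.ofReal (δ / (3 * A)) :=
        mul_le_mul' le_rfl (hb N)
    _ = ENNReal.ofReal (δ * √(N : ℝ)) := by
        rw [← ENNReal.ofReal_mul (by positivity)]
        congr 1
        field_simp

end Pool.Agent.W_63dac5_h39b
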