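import Pool.Agent.W_63dac5_h39b.LowB
import Pool.Agent.W_63dac5_h39b.TailB

/-!
# Many words with all the good properties (proofs row 568, B6)
-/

set_option autoImplicit false

namespace Pool.Agent.W_63dac5_h39b

open ENNReal Finset
open Pool.Agent.W_MP_63dac5_pr Pool.Agent.W_63dac5_h37

variable {μ : PMF ℕ} {A C : ℝ}

/-- Markov inequality for the number of unused right stubs -/
private lemma SelA_markov (H : ∀ n, Hyp μ A C n) (hC : 0 ≤ C) (hK : Ks μ 1 ≠ ∞) (I n m : ℕ)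
    (hm : 1 ≤ m) :
    Ex (nu μ) n (fun w => if Pw w ≤ I ∧ m < Tw w then 1 else 0) ≤
      ENNReal.ofReal ((C * (I + 1)) * (Ks μ 1).toReal / (m : ℝ)) := by
  have hm0 : (0 : ℝ) < m := by exact_mod_cast hm
  have h1 : Ex (nu μ) n (fun w => if Pw w ≤ I ∧ m < Tw w then 1 else 0) ≤
      Ex (nu μ) n (fun w => ENNReal.ofReal (1 / (m : ℝ)) *
        (if Pw w ≤ I then (Tw w : ℝ≥0∞) else 0)) := by
    refine Ex_mono _ _ fun w _ => ?_
    by_cases h : Pw w ≤ I ∧ m < Tw w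
    · rw [if_pos h, if_pos h.1]
      have h2 : (Tw w : ℝ≥0∞) = ENNReal.ofReal (Tw w : ℝ) := (ENNReal.ofReal_natCast _).symm
      rw [h2, ← ENNReal.ofReal_mul (by positivity), ← ENNReal.ofReal_one]
      refine ENNReal.ofReal_le_ofReal ?_
      have h3 : (m : ℝ) ≤ Tw w := by exact_mod_cast h.2.le
      rw [one_div, ← div_eq_inv_mul, le_div_iff₀ hm0]
      linarith
    · rw [if_neg h]
      exact bot_le
  refine h1.trans ?_
  rw [Ex_mul_left]
  refine (mul_le_mul' le_rfl (ET_le H hC hK n I)).trans (le_of_eq ?_)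
  have h4 : Ks μ 1 = ENNReal.ofReal (Ks μ 1).toReal := (ENNReal.ofReal_toReal hK).symm
  conv_lhs => rw [h4]
  rw [← ENNReal.ofReal_mul (by positivity), ← ENNReal.ofReal_mul (by positivity)]
  congr 1
  ring

private lemma SelA_sqrt4 (N : ℕ) : √((4 * N : ℕ) : ℝ) = 2 * √(N : ℝ) := by
  push_cast
  rw [Real.sqrt_mul (by norm_num)]
  congr 1
  rw [show (4 : ℝ) = 2 ^ 2 by norm_num]
  exact Real.sqrt_sq (by norm_num)

open Classical in
/-- `F_lower` gives `c`; the sum of `c / √n` over `N ≤ n < 4 N` is at least `3 c √N / 2`.  Subtract `R_tail` and `hQ`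
with `δ = c / 8` and the length `4 N`, and the event `M (Nat.sqrt N + 1) < Tw` by Markov and `ET_le`. -/
theorem selA (h0 : μ 0 = 0) (H : ∀ n, Hyp μ A C n) (hA : 1 ≤ A) (hC : 0 ≤ C) (hK : Ks μ 1 ≠ ∞)
    (Q : ℕ → List (ℕ × ℕ) → Prop)
    (hQ : ∀ (I ρ : ℕ) (δ : ℝ), 0 < δ → ∃ c₀ : ℕ, ∀ N : ℕ, 1 ≤ N → ∑ n ∈ range N,
      Ex (nu μ) n (fun w => if Pw w ≤ I ∧ Rw w ≤ ρ ∧ ¬ Q c₀ w then 1 else 0) ≤
        ENNReal.ofReal (δ * √(N : ℝ))) :
    ∃ (ρ c₀ M : ℕ) (c : ℝ), 0 < c ∧ ∀ N : ℕ, 1 ≤ N →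
      ENNReal.ofReal (c * √(N : ℝ)) ≤ ∑ n ∈ Ico N (4 * N), Ex (nu μ) n (fun w =>
        if Tw w ≤ M * (Nat.sqrt N + 1) ∧ Rw w ≤ ρ ∧ Q c₀ w then 1 else 0) := by
  obtain ⟨I, c, hc, hF⟩ := F_lower h0 H hA hK
  obtain ⟨ρ, hρ⟩ := R_tail H hA hC hK I (δ := c / 8) (by positivity)
  obtain ⟨c₀, hc₀⟩ := hQ I ρ (c / 8) (by positivity)
  set D : ℝ := (C * (I + 1)) * (Ks μ 1).toReal with hD
  have hD0 : 0 ≤ D := by positivity
  obtain ⟨M, hM⟩ := exists_nat_gt (12 * D / c)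
  have hM0 : 0 < M := by
    have h1 : (0 : ℝ) < M := lt_of_le_of_lt (by positivity) hM
    exact_mod_cast h1
  have hMpos : (0 : ℝ) < M := by exact_mod_cast hM0
  refine ⟨ρ, c₀, M, 3 / 4 * c, by positivity, fun N hN => ?_⟩
  have hNpos : (0 : ℝ) < N := by exact_mod_cast hN
  have hs0 : 0 < √(N : ℝ) := Real.sqrt_pos.2 hNpos
  have hss : √(N : ℝ) * √(N : ℝ) = N := Real.mul_self_sqrt hNpos.le
  have h4N : 1 ≤ 4 * N := by omega
  set g : List (ℕ × ℕ) → ℝ≥0∞ := fun w =>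
    if Tw w ≤ M * (Nat.sqrt N + 1) ∧ Rw w ≤ ρ ∧ Q c₀ w then 1 else 0 with hg
  set g1 : List (ℕ × ℕ) → ℝ≥0∞ := fun w => if Pw w ≤ I ∧ ρ < Rw w then 1 else 0 with hg1
  set g2 : List (ℕ × ℕ) → ℝ≥0∞ := fun w =>
    if Pw w ≤ I ∧ Rw w ≤ ρ ∧ ¬ Q c₀ w then 1 else 0 with hg2
  set g3 : List (ℕ × ℕ) → ℝ≥0∞ := fun w =>
    if Pw w ≤ I ∧ M * (Nat.sqrt N + 1) < Tw w then 1 else 0 with hg3
  have hpt : ∀ w : List (ℕ × ℕ), (if Pw w ≤ I then (1 : ℝ≥0∞) else 0) ≤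
      g w + (g1 w + (g2 w + g3 w)) := by
    intro w
    simp only [hg, hg1, hg2, hg3]
    by_cases hp : Pw w ≤ I
    · rw [if_pos hp]
      by_cases hr : ρ < Rw w
      · rw [if_pos (⟨hp, hr⟩ : Pw w ≤ I ∧ ρ < Rw w)]
        exact le_trans le_self_add le_add_self
      · by_cases hq : Q c₀ w
        · by_cases ht : Tw w ≤ M * (Nat.sqrt N + 1)
          · rw [if_pos (⟨ht, not_lt.1 hr, hq⟩ :
              Tw w ≤ M * (Nat.sqrt N + 1) ∧ Rw w ≤ ρ ∧ Q c₀ w)]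
            exact le_self_add
          · rw [if_pos (⟨hp, not_le.1 ht⟩ : Pw w ≤ I ∧ M * (Nat.sqrt N + 1) < Tw w)]
            exact le_trans (le_trans le_add_self le_add_self) le_add_self
        · rw [if_pos (⟨hp, not_lt.1 hr, hq⟩ : Pw w ≤ I ∧ Rw w ≤ ρ ∧ ¬ Q c₀ w)]
          exact le_trans (le_trans le_self_add le_add_self) le_add_self
    · rw [if_neg hp]
      exact bot_le
  have hn : ∀ n, Fp μ n I ≤ Ex (nu μ) n g + (Ex (nu μ) n g1 + (Ex (nu μ) n g2 + Ex (nu μ) n g3)) := by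
    intro n
    have h1 : Fp μ n I ≤ Ex (nu μ) n (fun w => g w + (g1 w + (g2 w + g3 w))) := by
      unfold Fp
      exact Ex_mono _ _ fun w _ => hpt w
    refine h1.trans (le_of_eq ?_)
    rw [Ex_add, Ex_add, Ex_add]
  have hsub : Ico N (4 * N) ⊆ range (4 * N) := by
    intro n hn
    exact Finset.mem_range.2 (Finset.mem_Ico.1 hn).2
  have hcard : (Ico N (4 * N)).card = 3 * N := by
    rw [Nat.card_Ico]
    omega
  have hlow : ENNReal.ofReal (3 / 2 * c * √(N : ℝ)) ≤ ∑ n ∈ Ico N (4 * N), Fp μ n I := by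
    have h1 : ∀ n ∈ Ico N (4 * N), ENNReal.ofReal (c / (2 * √(N : ℝ))) ≤ Fp μ n I := by
      intro n hn'
      have h2 := Finset.mem_Ico.1 hn'
      refine le_trans (ENNReal.ofReal_le_ofReal ?_) (hF n (le_trans hN h2.1))
      have h3 : √(n : ℝ) ≤ 2 * √(N : ℝ) := by
        rw [← SelA_sqrt4]
        refine Real.sqrt_le_sqrt ?_
        exact_mod_cast h2.2.le
      have h4 : 0 < √(n : ℝ) := Real.sqrt_pos.2 (by exact_mod_cast (le_trans hN h2.1))
      exact div_le_div_of_nonneg_left hc.le h4 h3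
    have h5 := Finset.sum_le_sum h1
    rw [Finset.sum_const, hcard, nsmul_eq_mul] at h5
    refine le_trans (le_of_eq ?_) h5
    rw [← ENNReal.ofReal_natCast, ← ENNReal.ofReal_mul (by positivity)]
    congr 1
    push_cast
    rw [mul_div_assoc', _root_.eq_div_iff (by positivity)]
    have h6 : 3 / 2 * c * √(N : ℝ) * (2 * √(N : ℝ)) = 3 * c * (√(N : ℝ) * √(N : ℝ)) := by ring
    rw [h6, hss]
    ring
  have hb1 : ∑ n ∈ Ico N (4 * N), Ex (nu μ) n g1 ≤ ENNReal.ofReal (c / 4 * √(N : ℝ)) := by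
    refine le_trans (Finset.sum_le_sum_of_subset hsub) (le_trans (hρ (4 * N) h4N) (le_of_eq ?_))
    rw [SelA_sqrt4]
    congr 1
    ring
  have hb2 : ∑ n ∈ Ico N (4 * N), Ex (nu μ) n g2 ≤ ENNReal.ofReal (c / 4 * √(N : ℝ)) := by
    refine le_trans (Finset.sum_le_sum_of_subset hsub) (le_trans ?_ (le_of_eq (?_ :
      ENNReal.ofReal (c / 8 * √((4 * N : ℕ) : ℝ)) = _)))
    · convert hc₀ (4 * N) h4N using 3
    · rw [SelA_sqrt4]
      congr 1
      ring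
  have hb3 : ∑ n ∈ Ico N (4 * N), Ex (nu μ) n g3 ≤ ENNReal.ofReal (c / 4 * √(N : ℝ)) := by
    have h1 : ∀ n ∈ Ico N (4 * N), Ex (nu μ) n g3 ≤
        ENNReal.ofReal (D / ((M * (Nat.sqrt N + 1) : ℕ) : ℝ)) := by
      intro n _
      exact SelA_markov H hC hK I n (M * (Nat.sqrt N + 1)) (Nat.mul_pos hM0 (Nat.succ_pos _))
    refine le_trans (Finset.sum_le_sum h1) ?_
    rw [Finset.sum_const, hcard, nsmul_eq_mul, ← ENNReal.ofReal_natCast,
      ← ENNReal.ofReal_mul (by positivity)]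
    refine ENNReal.ofReal_le_ofReal ?_
    have h2 : √(N : ℝ) ≤ ((Nat.sqrt N + 1 : ℕ) : ℝ) := by
      rw [Real.sqrt_le_left (by positivity)]
      have h3 : N < (Nat.sqrt N + 1) * (Nat.sqrt N + 1) := Nat.lt_succ_sqrt N
      have h4 : (N : ℝ) < ((Nat.sqrt N + 1 : ℕ) : ℝ) * ((Nat.sqrt N + 1 : ℕ) : ℝ) := by
        exact_mod_cast h3
      nlinarith
    have h5 : D / ((M * (Nat.sqrt N + 1) : ℕ) : ℝ) ≤ D / (M * √(N : ℝ)) := by
      refine div_le_div_of_nonneg_left hD0 (by positivity) ?_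
      push_cast at h2 ⊢
      exact mul_le_mul_of_nonneg_left h2 hMpos.le
    have h6 : D / (M * √(N : ℝ)) ≤ c / 12 / √(N : ℝ) := by
      rw [← div_div]
      refine div_le_div_of_nonneg_right ?_ hs0.le
      rw [div_le_iff₀ hMpos]
      rw [div_lt_iff₀ hc] at hM
      linarith
    have h7 : ((3 * N : ℕ) : ℝ) * (D / ((M * (Nat.sqrt N + 1) : ℕ) : ℝ)) ≤
        ((3 * N : ℕ) : ℝ) * (c / 12 / √(N : ℝ)) :=
      mul_le_mul_of_nonneg_left (h5.trans h6) (by positivity)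
    refine h7.trans (le_of_eq ?_)
    push_cast
    rw [mul_div_assoc', _root_.div_eq_iff hs0.ne']
    have h8 : c / 4 * √(N : ℝ) * √(N : ℝ) = c / 4 * (√(N : ℝ) * √(N : ℝ)) := by ring
    rw [h8, hss]
    ring
  have hfin : ENNReal.ofReal (3 / 2 * c * √(N : ℝ)) ≤
      (∑ n ∈ Ico N (4 * N), Ex (nu μ) n g) + ENNReal.ofReal (3 / 4 * c * √(N : ℝ)) := by
    refine le_trans hlow (le_trans (Finset.sum_le_sum fun n _ => hn n) ?_)
    rw [Finset.sum_add_distrib, Finset.sum_add_distrib, Finset.sum_add_distrib]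
    refine add_le_add le_rfl ?_
    refine le_trans (add_le_add hb1 (add_le_add hb2 hb3)) (le_of_eq ?_)
    rw [← ENNReal.ofReal_add (by positivity) (by positivity),
      ← ENNReal.ofReal_add (by positivity) (by positivity)]
    congr 1
    ring
  have hsplit : ENNReal.ofReal (3 / 2 * c * √(N : ℝ)) =
      ENNReal.ofReal (3 / 4 * c * √(N : ℝ)) + ENNReal.ofReal (3 / 4 * c * √(N : ℝ)) := by
    rw [← ENNReal.ofReal_add (by positivity) (by positivity)]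
    congr 1
    ring
  rw [hsplit] at hfin
  exact (ENNReal.add_le_add_iff_right ENNReal.ofReal_ne_top).1 hfin

end Pool.Agent.W_63dac5_h39b
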