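import Pool.Agent.W_63dac5_h39b.SelA

/-!
# Cauchy Schwarz (proofs row 568, B6)
-/

set_option autoImplicit false

namespace Pool.Agent.W_63dac5_h39b

open ENNReal Finset
open Pool.Agent.W_MP_63dac5_pr Pool.Agent.W_63dac5_h37

variable {μ : PMF ℕ} {A C : ℝ}

open Classical in
/-- probability of the event `E` and the value `z` of `Sw` -/
noncomputable def qz (μ : PMF ℕ) (E : List (ℕ × ℕ) → Prop) (n : ℕ) (z : ℤ) : ℝ≥0∞ :=
  Ex (nu μ) n (fun w => if E w ∧ Sw w = z then 1 else 0)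

/-- Cauchy Schwarz -/
lemma cs_sum {ι : Type*} (s : Finset ι) (f : ι → ℝ≥0∞) :
    (∑ i ∈ s, f i) ^ 2 ≤ (s.card : ℝ≥0∞) * ∑ i ∈ s, f i ^ 2 := by
  have h := ENNReal.rpow_sum_le_const_mul_sum_rpow s f (p := 2) (by norm_num)
  have e : (2 : ℝ) - 1 = 1 := by norm_num
  rw [e, ENNReal.rpow_one] at h
  have e2 : ∀ x : ℝ≥0∞, x ^ (2 : ℝ) = x ^ 2 := by
    intro x
    have := ENNReal.rpow_natCast x 2
    simpa using this
  simp only [e2] at h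
  exact h

open Classical in
/-- on the event of the left side `- ρ ≤ Sw w ≤ Z` (`Sw_eq`) -/
lemma sum_qz (E : List (ℕ × ℕ) → Prop) {ρ : ℕ} (hE : ∀ w, E w → Rw w ≤ ρ) (n Z : ℕ) :
    Ex (nu μ) n (fun w => if Tw w ≤ Z ∧ E w then 1 else 0) ≤
      ∑ z ∈ Finset.Icc (- (ρ : ℤ)) (Z : ℤ), qz μ E n z := by
  unfold qz
  rw [← Ex_sum]
  refine Ex_mono _ _ fun w _ => ?_
  by_cases hw : Tw w ≤ Z ∧ E w
  · rw [if_pos hw]
    have h1 := Sw_eq w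
    have h2 := hE w hw.2
    have hmem : Sw w ∈ Finset.Icc (- (ρ : ℤ)) (Z : ℤ) := by
      rw [Finset.mem_Icc]
      have := hw.1
      constructor <;> omega
    calc (1 : ℝ≥0∞) = if E w ∧ Sw w = Sw w then 1 else 0 := by rw [if_pos ⟨hw.2, rfl⟩]
      _ ≤ _ := Finset.single_le_sum (f := fun z => if E w ∧ Sw w = z then (1 : ℝ≥0∞) else 0)
          (fun _ _ => bot_le) hmem
  · rw [if_neg hw]
    exact bot_le

open Classical in
/-- `cs_sum` for the pairs `(n, z)`, `N ≤ n < 4 N`, `- ρ ≤ z ≤ Z = M (Nat.sqrt N + 1) ≤ 2 M √N`: there are at most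
`3 N (2 M + ρ + 1) √N` of them. -/
theorem selB {E : List (ℕ × ℕ) → Prop} {ρ M : ℕ} {c : ℝ} (hc : 0 < c) (hE : ∀ w, E w → Rw w ≤ ρ)
    (h : ∀ N : ℕ, 1 ≤ N → ENNReal.ofReal (c * √(N : ℝ)) ≤ ∑ n ∈ Ico N (4 * N), Ex (nu μ) n (fun w =>
        if Tw w ≤ M * (Nat.sqrt N + 1) ∧ E w then 1 else 0)) :
    ∃ c' : ℝ, 0 < c' ∧ ∀ N : ℕ, 1 ≤ N →
      ENNReal.ofReal (c' / √(N : ℝ)) ≤ ∑ n ∈ Ico N (4 * N), ∑' z : ℤ, qz μ E n z ^ 2 := by
  have hKpos : (0 : ℝ) < 3 * (2 * M + ρ + 1) := by positivity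
  refine ⟨c ^ 2 / (3 * (2 * M + ρ + 1)), by positivity, fun N hN => ?_⟩
  have hNr : (1 : ℝ) ≤ N := by exact_mod_cast hN
  have hsq1 : (1 : ℝ) ≤ √(N : ℝ) := Real.one_le_sqrt.mpr hNr
  have hsqpos : (0 : ℝ) < √(N : ℝ) := by linarith
  set Z : ℕ := M * (Nat.sqrt N + 1) with hZ
  set T : Finset (ℕ × ℤ) := Ico N (4 * N) ×ˢ Finset.Icc (- (ρ : ℤ)) (Z : ℤ) with hT
  have hcs := cs_sum T (fun p => qz μ E p.1 p.2)
  have hlow : ENNReal.ofReal (c * √(N : ℝ)) ≤ ∑ p ∈ T, qz μ E p.1 p.2 := by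
    refine (h N hN).trans ?_
    rw [hT, Finset.sum_product]
    exact Finset.sum_le_sum fun n _ => sum_qz E hE n Z
  have hcard : (T.card : ℝ) ≤ 3 * N * ((2 * M + ρ + 1) * √(N : ℝ)) := by
    have e1 : T.card = 3 * N * (Z + ρ + 1) := by
      rw [hT, Finset.card_product, Nat.card_Ico, Int.card_Icc]
      have a1 : 4 * N - N = 3 * N := by omega
      have a2 : ((Z : ℤ) + 1 - -(ρ : ℤ)).toNat = Z + ρ + 1 := by omega
      rw [a1, a2]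
    rw [e1]
    push_cast
    have hs : ((Nat.sqrt N : ℕ) : ℝ) ≤ √(N : ℝ) := Real.nat_sqrt_le_real_sqrt
    have hZr : (Z : ℝ) ≤ 2 * M * √(N : ℝ) := by
      rw [hZ]
      push_cast
      have hM : (0 : ℝ) ≤ M := Nat.cast_nonneg _
      nlinarith
    have hρ : (0 : ℝ) ≤ ρ := Nat.cast_nonneg _
    have : (Z : ℝ) + ρ + 1 ≤ (2 * M + ρ + 1) * √(N : ℝ) := by nlinarith
    have hN0 : (0 : ℝ) ≤ 3 * N := by positivity
    exact mul_le_mul_of_nonneg_left this hN0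
  set S : ℝ≥0∞ := ∑ n ∈ Ico N (4 * N), ∑' z : ℤ, qz μ E n z ^ 2 with hS
  have hup : ∑ p ∈ T, qz μ E p.1 p.2 ^ 2 ≤ S := by
    rw [hT, Finset.sum_product, hS]
    exact Finset.sum_le_sum fun n _ => ENNReal.sum_le_tsum _
  have hcardE : (T.card : ℝ≥0∞) ≤ ENNReal.ofReal (3 * N * ((2 * M + ρ + 1) * √(N : ℝ))) := by
    rw [← ENNReal.ofReal_natCast]
    exact ENNReal.ofReal_le_ofReal hcard
  have hmain : ENNReal.ofReal ((c * √(N : ℝ)) ^ 2) ≤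
      ENNReal.ofReal (3 * N * ((2 * M + ρ + 1) * √(N : ℝ))) * S := by
    rw [ENNReal.ofReal_pow (by positivity)]
    calc ENNReal.ofReal (c * √(N : ℝ)) ^ 2 ≤ (∑ p ∈ T, qz μ E p.1 p.2) ^ 2 := by
          gcongr
      _ ≤ (T.card : ℝ≥0∞) * ∑ p ∈ T, qz μ E p.1 p.2 ^ 2 := hcs
      _ ≤ _ := mul_le_mul' hcardE hup
  have hKN : (0 : ℝ) < 3 * N * ((2 * M + ρ + 1) * √(N : ℝ)) := by positivity
  have hdiv : c ^ 2 / (3 * (2 * M + ρ + 1)) / √(N : ℝ) =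
      (c * √(N : ℝ)) ^ 2 / (3 * N * ((2 * M + ρ + 1) * √(N : ℝ))) := by
    have hN0 : (N : ℝ) ≠ 0 := by positivity
    have hne : √(N : ℝ) ≠ 0 := hsqpos.ne'
    have hsq : √(N : ℝ) ^ 2 = N := Real.sq_sqrt (by positivity)
    rw [mul_pow, hsq]
    field_simp
  rw [hdiv, ENNReal.ofReal_div_of_pos hKN]
  exact ENNReal.div_le_of_le_mul' hmain

end Pool.Agent.W_63dac5_h39b
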