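import Mathlib

/-!
# Sums over the lengths (proofs row 568, A2 to A5), real analysis
-/

set_option autoImplicit false

namespace Pool.Agent.W_63dac5_h39b

open Finset

private theorem SumA_key {κ x : ℝ} (hκ : 0 < κ) (hx : 1 < x) :
    κ * x ^ (-1 - κ) ≤ (x - 1) ^ (-κ) - x ^ (-κ) := by
  have hx0 : 0 < x := by linarith
  have hx1 : 0 < x - 1 := by linarith
  have hr : 0 < (x - 1) / x := by positivity
  have h1 : (x - 1) ^ (-κ) = ((x - 1) / x) ^ (-κ) * x ^ (-κ) := by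
    rw [← Real.mul_rpow hr.le hx0.le, div_mul_cancel₀ _ hx0.ne']
  have h2 : 1 + κ / x ≤ ((x - 1) / x) ^ (-κ) := by
    rw [Real.rpow_def_of_pos hr]
    have h3 : Real.log ((x - 1) / x) ≤ -(1 / x) := by
      have := Real.log_le_sub_one_of_pos hr
      have h4 : (x - 1) / x - 1 = -(1 / x) := by field_simp; ring
      linarith
    have h5 := Real.add_one_le_exp (Real.log ((x - 1) / x) * -κ)
    have h6 : κ / x ≤ Real.log ((x - 1) / x) * -κ := by
      have : κ * (1 / x) ≤ κ * (-Real.log ((x - 1) / x)) := by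
        apply mul_le_mul_of_nonneg_left _ hκ.le
        linarith
      have h7 : κ / x = κ * (1 / x) := by ring
      linarith
    linarith
  have hp : 0 < x ^ (-κ) := Real.rpow_pos_of_pos hx0 _
  have h8 : x ^ (-1 - κ) = x ^ (-κ) / x := by
    rw [show (-1 - κ : ℝ) = -κ - 1 by ring, Real.rpow_sub hx0, Real.rpow_one]
  rw [h1, h8]
  have h9 := mul_le_mul_of_nonneg_right h2 hp.le
  have h10 : (1 + κ / x) * x ^ (-κ) = x ^ (-κ) + κ * (x ^ (-κ) / x) := by ring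
  linarith

private theorem SumA_tail {κ : ℝ} (hκ : 0 < κ) {M : ℕ} (hM : 1 ≤ M) (N : ℕ) :
    ∑ m ∈ Ioc M N, (m : ℝ) ^ (-1 - κ) ≤ (M : ℝ) ^ (-κ) / κ := by
  have hM0 : (0 : ℝ) < M := by exact_mod_cast hM
  rcases Nat.lt_or_ge N M with h | h
  · rw [Ioc_eq_empty_of_le h.le, sum_empty]
    positivity
  · have hstrong : ∑ m ∈ Ioc M N, (m : ℝ) ^ (-1 - κ) ≤ ((M : ℝ) ^ (-κ) - (N : ℝ) ^ (-κ)) / κ := by
      induction N, h using Nat.le_induction with
      | base => simp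
      | succ N hN ih =>
        rw [sum_Ioc_succ_top (by omega)]
        have hN1 : (1 : ℝ) < ((N + 1 : ℕ) : ℝ) := by
          have : 1 ≤ N := le_trans hM hN
          push_cast
          have : (1 : ℝ) ≤ N := by exact_mod_cast this
          linarith
        have hk := SumA_key hκ hN1
        have hcast : ((N + 1 : ℕ) : ℝ) - 1 = (N : ℝ) := by push_cast; ring
        rw [hcast] at hk
        have hk2 : ((N + 1 : ℕ) : ℝ) ^ (-1 - κ) ≤
            ((N : ℝ) ^ (-κ) - ((N + 1 : ℕ) : ℝ) ^ (-κ)) / κ := by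
          rw [le_div_iff₀ hκ, mul_comm]
          exact hk
        have e : ((M : ℝ) ^ (-κ) - ((N + 1 : ℕ) : ℝ) ^ (-κ)) / κ =
            ((M : ℝ) ^ (-κ) - (N : ℝ) ^ (-κ)) / κ +
              ((N : ℝ) ^ (-κ) - ((N + 1 : ℕ) : ℝ) ^ (-κ)) / κ := by ring
        rw [e]
        linarith
    have hN0 : 0 ≤ (N : ℝ) ^ (-κ) := by positivity
    refine hstrong.trans ?_
    gcongr
    linarith

private theorem SumA_subset {P : ℕ → Prop} [DecidablePred P] {f : ℕ → ℝ} {S : Finset ℕ} (n : ℕ)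
    (hS : ∀ m, m < n → P m → m ∈ S) (hf : ∀ m ∈ S, 0 ≤ f m) :
    ∑ m ∈ (range n).filter P, f m ≤ ∑ m ∈ S, f m := by
  apply sum_le_sum_of_subset_of_nonneg
  · intro m hm
    rw [mem_filter, mem_range] at hm
    exact hS m hm.1 hm.2
  · intro m hm _
    exact hf m hm

/-- comparison with the integral; `κ = (s - 1) / (4 s)`, the sum of `m ^ (-1 - κ)` over `m > M` is at most
`M ^ (-κ) / κ` -/
theorem sum_far {s : ℝ} (hs : 1 < s) {M : ℕ} (hM : 1 ≤ M) (n : ℕ) :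
    ∑ m ∈ (range n).filter (fun m => M < m), (((M : ℝ) / m) ^ ((s - 1) / (4 * s)) / m) ≤
      4 * s / (s - 1) := by
  set κ : ℝ := (s - 1) / (4 * s) with hκd
  have hκ : 0 < κ := by
    have : 0 < s - 1 := by linarith
    have : 0 < s := by linarith
    positivity
  have hM0 : (0 : ℝ) < M := by exact_mod_cast hM
  have hterm : ∀ m ∈ Ioc M n, ((M : ℝ) / m) ^ κ / m = (M : ℝ) ^ κ * (m : ℝ) ^ (-1 - κ) := by
    intro m hm
    have hm1 : M < m := (mem_Ioc.mp hm).1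
    have hm0 : (0 : ℝ) < m := by
      have : 0 < m := by omega
      exact_mod_cast this
    rw [Real.div_rpow hM0.le hm0.le, show (-1 - κ : ℝ) = -κ - 1 by ring, Real.rpow_sub hm0,
      Real.rpow_one, Real.rpow_neg hm0.le]
    field_simp
  calc ∑ m ∈ (range n).filter (fun m => M < m), (((M : ℝ) / m) ^ κ / m)
      ≤ ∑ m ∈ Ioc M n, (((M : ℝ) / m) ^ κ / m) := by
        apply SumA_subset
        · intro m hmn hm
          exact mem_Ioc.mpr ⟨hm, hmn.le⟩
        · intro m _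
          positivity
    _ = (M : ℝ) ^ κ * ∑ m ∈ Ioc M n, (m : ℝ) ^ (-1 - κ) := by
        rw [mul_sum]
        exact sum_congr rfl hterm
    _ ≤ (M : ℝ) ^ κ * ((M : ℝ) ^ (-κ) / κ) := by
        apply mul_le_mul_of_nonneg_left (SumA_tail hκ hM n)
        positivity
    _ = 1 / κ := by
        rw [Real.rpow_neg hM0.le]
        have : (M : ℝ) ^ κ ≠ 0 := (Real.rpow_pos_of_pos hM0 _).ne'
        field_simp
    _ = 4 * s / (s - 1) := by
        rw [hκd, one_div_div]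

/-- the terms are `M ^ (- κ s) m ^ (- 1 - δ)` with `δ = (s - 1) / 4`, `κ s = (s - 1) / 4` -/
theorem sum_far2 {s : ℝ} (hs : 1 < s) {M : ℕ} (hM : 1 ≤ M) (n : ℕ) :
    ∑ m ∈ (range n).filter (fun m => M < m),
      ((√(m : ℝ) * ((M : ℝ) / m) ^ ((s - 1) / (4 * s))) ^ (-s) / √(m : ℝ)) ≤
      4 / (s - 1) * √(M : ℝ) ^ (1 - s) := by
  set κ : ℝ := (s - 1) / (4 * s) with hκd
  have hs0 : 0 < s := by linarith
  have hs1 : 0 < s - 1 := by linarith
  have hδ : 0 < (s - 1) / 4 := by positivity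
  have hM0 : (0 : ℝ) < M := by exact_mod_cast hM
  have hκs : κ * s = (s - 1) / 4 := by
    rw [hκd]
    field_simp
  have hterm : ∀ m ∈ Ioc M n, (√(m : ℝ) * ((M : ℝ) / m) ^ κ) ^ (-s) / √(m : ℝ) =
      (M : ℝ) ^ (-((s - 1) / 4)) * (m : ℝ) ^ (-1 - (s - 1) / 4) := by
    intro m hm
    have hm1 : M < m := (mem_Ioc.mp hm).1
    have hm0 : (0 : ℝ) < m := by
      have : 0 < m := by omega
      exact_mod_cast this
    have hr : (0 : ℝ) < (M : ℝ) / m := by positivity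
    rw [Real.mul_rpow (Real.sqrt_nonneg _) (Real.rpow_nonneg hr.le _), Real.sqrt_eq_rpow,
      ← Real.rpow_mul hm0.le, ← Real.rpow_mul hr.le, Real.div_rpow hM0.le hm0.le]
    have e1 : κ * -s = -((s - 1) / 4) := by rw [mul_neg, hκs]
    rw [e1]
    have e2 : (m : ℝ) ^ (-1 - (s - 1) / 4) =
        (m : ℝ) ^ (1 / 2 * -s) / (m : ℝ) ^ (-((s - 1) / 4)) / (m : ℝ) ^ ((1 : ℝ) / 2) := by
      rw [← Real.rpow_sub hm0, ← Real.rpow_sub hm0]
      congr 1
      ring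
    rw [e2]
    ring
  calc ∑ m ∈ (range n).filter (fun m => M < m),
        ((√(m : ℝ) * ((M : ℝ) / m) ^ κ) ^ (-s) / √(m : ℝ))
      ≤ ∑ m ∈ Ioc M n, ((√(m : ℝ) * ((M : ℝ) / m) ^ κ) ^ (-s) / √(m : ℝ)) := by
        apply SumA_subset
        · intro m hmn hm
          exact mem_Ioc.mpr ⟨hm, hmn.le⟩
        · intro m _
          positivity
    _ = (M : ℝ) ^ (-((s - 1) / 4)) * ∑ m ∈ Ioc M n, (m : ℝ) ^ (-1 - (s - 1) / 4) := by
        rw [mul_sum]
        exact sum_congr rfl hterm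
    _ ≤ (M : ℝ) ^ (-((s - 1) / 4)) * ((M : ℝ) ^ (-((s - 1) / 4)) / ((s - 1) / 4)) := by
        apply mul_le_mul_of_nonneg_left (SumA_tail hδ hM n)
        positivity
    _ = 4 / (s - 1) * √(M : ℝ) ^ (1 - s) := by
        have e3 : √(M : ℝ) ^ (1 - s) = (M : ℝ) ^ (-((s - 1) / 4)) * (M : ℝ) ^ (-((s - 1) / 4)) := by
          rw [Real.sqrt_eq_rpow, ← Real.rpow_mul hM0.le, ← Real.rpow_add hM0]
          congr 1
          ring
        rw [e3]
        field_simp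

theorem sum_near (q n : ℕ) :
    ∑ m ∈ (range n).filter (fun m => 1 ≤ m ∧ m ≤ q ^ 2), 1 / √(m : ℝ) ≤ 2 * q := by
  have h1 : ∀ Q : ℕ, ∑ m ∈ Ioc 0 Q, 1 / √(m : ℝ) ≤ 2 * √(Q : ℝ) := by
    intro Q
    induction Q with
    | zero => simp
    | succ Q ih =>
      rw [sum_Ioc_succ_top (by omega)]
      have ha : 0 ≤ √(Q : ℝ) := Real.sqrt_nonneg _
      have hb : 0 < √((Q + 1 : ℕ) : ℝ) := Real.sqrt_pos.mpr (by positivity)
      have hab : √(Q : ℝ) ≤ √((Q + 1 : ℕ) : ℝ) := by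
        apply Real.sqrt_le_sqrt
        push_cast
        linarith
      have ha2 : √(Q : ℝ) ^ 2 = Q := Real.sq_sqrt (by positivity)
      have hb2 : √((Q + 1 : ℕ) : ℝ) ^ 2 = Q + 1 := by
        rw [Real.sq_sqrt (by positivity)]
        push_cast
        ring
      have hk : 1 / √((Q + 1 : ℕ) : ℝ) ≤ 2 * (√((Q + 1 : ℕ) : ℝ) - √(Q : ℝ)) := by
        rw [div_le_iff₀ hb]
        nlinarith
      linarith
  have h2 : ∑ m ∈ (range n).filter (fun m => 1 ≤ m ∧ m ≤ q ^ 2), 1 / √(m : ℝ) ≤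
      ∑ m ∈ Ioc 0 (q ^ 2), 1 / √(m : ℝ) := by
    apply SumA_subset
    · intro m _ hm
      exact mem_Ioc.mpr ⟨by omega, hm.2⟩
    · intro m _
      positivity
  refine h2.trans ((h1 (q ^ 2)).trans (le_of_eq ?_))
  push_cast
  rw [Real.sqrt_sq (by positivity)]

/-- `1 / m ≤ log m - log (m - 1)` -/
theorem sum_mid {q Y : ℕ} (hq : 1 ≤ q) (hY : 1 ≤ Y) (n : ℕ) :
    ∑ m ∈ (range n).filter (fun m => q ^ 2 < m ∧ m ≤ (Y * q) ^ 2), 1 / (m : ℝ) ≤
      2 * Real.log Y := by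
  have h1 : ∀ P Q : ℕ, 1 ≤ P → P ≤ Q → ∑ m ∈ Ioc P Q, 1 / (m : ℝ) ≤ Real.log Q - Real.log P := by
    intro P Q hP hPQ
    induction Q, hPQ using Nat.le_induction with
    | base => simp
    | succ Q hQ ih =>
      rw [sum_Ioc_succ_top (by omega)]
      have hQ0 : (0 : ℝ) < Q := by
        have : 0 < Q := by omega
        exact_mod_cast this
      have hQ1 : (0 : ℝ) < ((Q + 1 : ℕ) : ℝ) := by positivity
      have h3 := Real.log_le_sub_one_of_pos (div_pos hQ0 hQ1)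
      rw [Real.log_div hQ0.ne' hQ1.ne'] at h3
      have h4 : (Q : ℝ) / ((Q + 1 : ℕ) : ℝ) - 1 = -(1 / ((Q + 1 : ℕ) : ℝ)) := by
        push_cast
        field_simp
        ring
      linarith
  have hle : q ^ 2 ≤ (Y * q) ^ 2 := by
    apply Nat.pow_le_pow_left
    exact Nat.le_mul_of_pos_left q hY
  have h2 : ∑ m ∈ (range n).filter (fun m => q ^ 2 < m ∧ m ≤ (Y * q) ^ 2), 1 / (m : ℝ) ≤
      ∑ m ∈ Ioc (q ^ 2) ((Y * q) ^ 2), 1 / (m : ℝ) := by
    apply SumA_subset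
    · intro m _ hm
      exact mem_Ioc.mpr hm
    · intro m _
      positivity
  refine h2.trans ((h1 _ _ (Nat.one_le_pow _ _ hq) hle).trans (le_of_eq ?_))
  have hq0 : (0 : ℝ) < q := by exact_mod_cast hq
  have hY0 : (0 : ℝ) < Y := by exact_mod_cast hY
  push_cast
  rw [Real.log_pow, Real.log_pow, Real.log_mul hY0.ne' hq0.ne']
  push_cast
  ring

end Pool.Agent.W_63dac5_h39b
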