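import Pool.Agent.W_63dac5_h39b.End

/-!
# The criterion in terms of the degree, laws with a finite third moment, mixtures (proofs row 568)
-/

set_option autoImplicit false

namespace Pool.Agent.W_63dac5_h39b

open ENNReal Finset
open Pool.Agent.W_MP_63dac5_pr Pool.Agent.W_63dac5_h37 Pool.Agent.W_63dac5_h37A

/-- sums of `ℝ≥0∞` and real sums -/
lemma top_tsum (μ : PMF ℕ) {f : ℕ → ℝ} (hf : ∀ d, 0 ≤ f d)
    (h : Summable (fun d : ℕ => (μ d).toReal * f d)) :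
    ∑' d : ℕ, μ d * ENNReal.ofReal (f d) = ENNReal.ofReal (∑' d : ℕ, (μ d).toReal * f d) := by
  rw [ENNReal.ofReal_tsum_of_nonneg (fun d => mul_nonneg ENNReal.toReal_nonneg (hf d)) h]
  refine tsum_congr fun d => ?_
  rw [ENNReal.ofReal_mul ENNReal.toReal_nonneg, ENNReal.ofReal_toReal (μ.apply_ne_top d)]

lemma top_pow (d : ℕ) {t : ℝ} (ht : 0 ≤ t) : (d : ℝ≥0∞) ^ t = ENNReal.ofReal ((d : ℝ) ^ t) := by
  rw [← ENNReal.ofReal_natCast d, ENNReal.ofReal_rpow_of_nonneg (Nat.cast_nonneg d) ht]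

/-- the criterion -/
theorem crit_top {s : ℝ} (hs : 1 < s) (hs2 : s ≤ 2) : ∃ c : ℝ, 0 < c ∧ ∀ (μ : PMF ℕ), μ 0 = 0 →
    Summable (fun d : ℕ => (μ d).toReal * (d : ℝ) ^ (s + 1)) → ∀ h : ℕ, 1 ≤ h →
      c * h * (1 + Real.log (h * (1 + ∑' d : ℕ, (μ d).toReal * (d : ℝ) ^ (s + 1)))) *
        ∑' d : ℕ, (μ d).toReal * ((d - h : ℕ) : ℝ) ^ 2 ≤ 1 →
      ∑' e : ℕ × ℕ, cw (nu μ) (e.1 + e.2) = ∞ := by
  obtain ⟨c, hc, hcc⟩ := cw_top_crit hs hs2
  refine ⟨c, by linarith, fun μ h0 hsum h hh hle => ?_⟩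
  have hsum2 : Summable (fun d : ℕ => (μ d).toReal * ((d - h : ℕ) : ℝ) ^ 2) := by
    refine Summable.of_nonneg_of_le (fun d => by positivity) (fun d => ?_) hsum
    refine mul_le_mul_of_nonneg_left ?_ ENNReal.toReal_nonneg
    rcases Nat.eq_zero_or_pos d with rfl | hd
    · have : s + 1 ≠ 0 := by linarith
      simp [Real.zero_rpow this]
    · have hd1 : (1 : ℝ) ≤ d := by exact_mod_cast hd
      have h1 : ((d - h : ℕ) : ℝ) ≤ d := by exact_mod_cast Nat.sub_le _ _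
      calc ((d - h : ℕ) : ℝ) ^ 2 ≤ (d : ℝ) ^ 2 := by gcongr
        _ = (d : ℝ) ^ (2 : ℝ) := by
            rw [← Real.rpow_natCast]
            norm_num
        _ ≤ (d : ℝ) ^ (s + 1) := Real.rpow_le_rpow_of_exponent_le hd1 (by linarith)
  refine hcc μ h0 (∑' d : ℕ, (μ d).toReal * (d : ℝ) ^ (s + 1))
    (∑' d : ℕ, (μ d).toReal * ((d - h : ℕ) : ℝ) ^ 2) h
    (tsum_nonneg fun d => by positivity) (tsum_nonneg fun d => by positivity) hh ?_ ?_ ?_
  · refine (Ks_le μ (by linarith)).trans (le_of_eq ?_)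
    rw [← top_tsum μ (fun d => by positivity) hsum]
    refine tsum_congr fun d => ?_
    rw [top_pow d (by linarith)]
  · refine (m2_le μ h).trans (le_of_eq ?_)
    rw [← top_tsum μ (fun d => by positivity) hsum2]
    unfold m2D
    refine tsum_congr fun d => ?_
    rw [ENNReal.ofReal_pow (Nat.cast_nonneg _), ENNReal.ofReal_natCast]
  · calc _ = _ := by ring
      _ ≤ 1 := hle

lemma third_ne_top {p : PMF ℕ} (h : Summable (fun d : ℕ => (p d).toReal * (d : ℝ) ^ 3)) :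
    ∑' d : ℕ, p d * (d : ℝ≥0∞) ^ 3 ≠ ∞ := by
  have h1 := top_tsum p (f := fun d : ℕ => (d : ℝ) ^ 3) (fun d => by positivity) h
  have h2 : ∀ d : ℕ, ENNReal.ofReal ((d : ℝ) ^ 3) = (d : ℝ≥0∞) ^ 3 := by
    intro d
    rw [ENNReal.ofReal_pow (Nat.cast_nonneg _), ENNReal.ofReal_natCast]
  simp only [h2] at h1
  rw [h1]
  exact ENNReal.ofReal_ne_top

/-- finite third moment -/
theorem third_top {μ : PMF ℕ} (h0 : μ 0 = 0)
    (h : Summable (fun d : ℕ => (μ d).toReal * (d : ℝ) ^ 3)) :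
    ∑' e : ℕ × ℕ, cw (nu μ) (e.1 + e.2) = ∞ := by
  obtain ⟨c, hc, hcc⟩ := cw_top_crit (s := 2) (by norm_num) le_rfl
  obtain ⟨K, M, h', hK, hM, hh, h1, h2, h3⟩ := critA (third_ne_top h) hc
  exact hcc μ h0 K M h' hK hM hh h1 h2 h3

/-- mixtures -/
theorem mix_top {p q : PMF ℕ} (hp0 : p 0 = 0) (hq0 : q 0 = 0)
    (hp : Summable (fun d : ℕ => (p d).toReal * (d : ℝ) ^ 3)) {a : ℝ} (ha : 2 < a)
    (hq : Summable (fun d : ℕ => (q d).toReal * (d : ℝ) ^ a)) :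
    ∃ e₀ : ℝ, 0 < e₀ ∧ ∀ (e : ℝ) (μ : PMF ℕ), 0 ≤ e → e ≤ e₀ →
      (∀ d, (μ d).toReal = (1 - e) * (p d).toReal + e * (q d).toReal) →
      ∑' e : ℕ × ℕ, cw (nu μ) (e.1 + e.2) = ∞ := by
  set s : ℝ := min 2 (a - 1) with hs
  have hs1 : 1 < s := lt_min (by norm_num) (by linarith)
  have hs2 : s ≤ 2 := min_le_left _ _
  have hsa : s + 1 ≤ a := by
    have := min_le_right 2 (a - 1)
    linarith
  have hq1 : ∑' d : ℕ, q d * (d : ℝ≥0∞) ^ (s + 1) ≠ ∞ := by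
    have h1 := top_tsum q (f := fun d : ℕ => (d : ℝ) ^ a) (fun d => by positivity) hq
    have h2 : ∑' d : ℕ, q d * ENNReal.ofReal ((d : ℝ) ^ a) ≠ ∞ := by
      rw [h1]
      exact ENNReal.ofReal_ne_top
    refine ne_top_of_le_ne_top h2 (ENNReal.tsum_le_tsum fun d => ?_)
    gcongr
    rw [top_pow d (by linarith)]
    refine ENNReal.ofReal_le_ofReal ?_
    rcases Nat.eq_zero_or_pos d with rfl | hd
    · have h3 : s + 1 ≠ 0 := by linarith
      have h4 : a ≠ 0 := by linarith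
      simp [Real.zero_rpow h3, Real.zero_rpow h4]
    · exact Real.rpow_le_rpow_of_exponent_le (by exact_mod_cast hd) hsa
  obtain ⟨c, hc, hcc⟩ := cw_top_crit hs1 hs2
  obtain ⟨e₀, he₀, h⟩ := critB (third_ne_top hp) hs1 hs2 hq1 hc
  refine ⟨min e₀ 1, lt_min he₀ one_pos, fun e μ he he1 hμ => ?_⟩
  have he2 : e ≤ 1 := he1.trans (min_le_right _ _)
  have hμ' : ∀ d, μ d = ENNReal.ofReal (1 - e) * p d + ENNReal.ofReal e * q d := by
    intro d
    rw [← ENNReal.ofReal_toReal (μ.apply_ne_top d), hμ d,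
      ENNReal.ofReal_add (mul_nonneg (by linarith) ENNReal.toReal_nonneg)
        (mul_nonneg he ENNReal.toReal_nonneg),
      ENNReal.ofReal_mul (by linarith), ENNReal.ofReal_mul he,
      ENNReal.ofReal_toReal (p.apply_ne_top d), ENNReal.ofReal_toReal (q.apply_ne_top d)]
  obtain ⟨K, M, h', hK, hM, hh, h1, h2, h3⟩ := h e μ he he2 (he1.trans (min_le_left _ _)) hμ'
  refine hcc μ ?_ K M h' hK hM hh h1 h2 h3
  rw [hμ' 0, hp0, hq0]
  simp

end Pool.Agent.W_63dac5_h39b
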